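import Pool.Agent.K7.H56.U.O
import Pool.Agent.K7.H56.M.L
import Pool.Agent.R425.G.Cl7
import Pool.Agent.Y664.QA3
import Pool.Agent.K7.H89.U.Q8

/-!
# The Selmer group: rank, Tate-Shafarevich group, and subfields
-/

set_option autoImplicit false
set_option linter.all false

namespace Pool.Agent.K7.H56.U

open NumberField IsDedekindDomain WithZero WeierstrassCurve WeierstrassCurve.Affine
open Pool.Agent.K7.H56
open Pool.Agent.Y696 (E27)
open Pool.Agent.K7.H56.M (W0 W0_Δ W0_base)
open scoped Classical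

/-- the triviality of the Selmer group -/
abbrev S2 (K : Type) [Field K] [NumberField K] : Prop := Pool.Agent.R425.G.SelT (Y702.G.sh W0) K

section nc

/-- there is a prime above two -/
theorem exists_two (K : Type) [Field K] [NumberField K] :
    ∃ v : HeightOneSpectrum (𝓞 K), ((2 : ℕ) : 𝓞 K) ∈ v.asIdeal := by
  have h : ¬ IsUnit ((2 : ℕ) : 𝓞 K) := by
    intro hu
    obtain ⟨u, hu⟩ := hu.exists_right_inv
    have h1 : IsIntegral ℤ ((u : K)) := u.2
    have h2 : (2 : K) * (u : K) = 1 := by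
      have := congrArg (algebraMap (𝓞 K) K) hu
      rw [map_mul, map_natCast, map_one] at this
      exact_mod_cast this
    have h3 : (u : K) = algebraMap ℚ K (1 / 2) := by
      rw [map_div₀, map_one, map_ofNat]
      field_simp
      linear_combination h2
    rw [h3] at h1
    have h4 : IsIntegral ℤ (1 / 2 : ℚ) :=
      (isIntegral_algebraMap_iff (algebraMap ℚ K).injective).1 h1
    obtain ⟨n, hn⟩ := IsIntegrallyClosed.isIntegral_iff.1 h4
    rw [eq_intCast] at hn
    have h5 : (2 * n : ℚ) = 1 := by rw [hn]; norm_num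
    have h6 : (2 * n : ℤ) = 1 := by exact_mod_cast h5
    omega
  obtain ⟨m, hm, hle⟩ := Ideal.exists_le_maximal (Ideal.span {((2 : ℕ) : 𝓞 K)}) (by
    rwa [Ne, Ideal.span_singleton_eq_top])
  have h2 : ((2 : ℕ) : 𝓞 K) ∈ m := hle (Ideal.mem_span_singleton_self _)
  refine ⟨⟨m, hm.isPrime, ?_⟩, h2⟩
  rintro rfl
  rw [Ideal.mem_bot] at h2
  exact absurd h2 (by norm_num)

theorem no_cube {K : Type} [Field K] [NumberField K] (hU : Unr2 K) (x : K) : x ^ 3 ≠ 2 := by
  intro hx
  obtain ⟨v, hv⟩ := exists_two K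
  have h2 := hU v hv
  have h0 : v.valuation K x ≠ 0 := (Valuation.ne_zero_iff _).2 (by
    rintro rfl
    norm_num at hx)
  obtain ⟨k, hk⟩ : ∃ k : ℤ, v.valuation K x = exp k := ⟨log _, (exp_log h0).symm⟩
  have h5 := congrArg (v.valuation K) hx
  rw [map_pow, hk, ← exp_nsmul, h2] at h5
  have h6 := exp_injective h5
  rw [nsmul_eq_mul] at h6
  push_cast at h6
  omega

theorem cub_ne' {K : Type} [Field K] [NumberField K] (h3 : ∀ x : K, x ^ 3 ≠ 2) (x : K) :
    Pool.Agent.TH115.GD.cub (Y702.G.sh W0) x ≠ 0 := by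
  intro hx
  have hx' : x ^ 3 + 16 = 0 := by
    have h := hx
    unfold Pool.Agent.TH115.GD.cub Pool.Agent.Y702.G.sh at h
    simp only [W0, WeierstrassCurve.b₂, WeierstrassCurve.b₄, WeierstrassCurve.b₆] at h
    norm_num at h
    exact h
  apply h3 (-x / 2)
  have : (-x / 2) ^ 3 = -(x ^ 3) / 8 := by ring
  rw [this]
  linear_combination (-1 / 8 : K) * hx'

end nc

section basic

variable {K : Type} [Field K] [NumberField K]

open Pool.Agent.TH115.GD Pool.Agent.Y355.G in
/-- the Selmer group is trivial iff the rank is zero and there is no element of order two in the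
Tate-Shafarevich group -/
theorem sel_iff (h3 : ∀ x : K, x ^ 3 ≠ 2) : S2 K ↔ (Finite (E27 K).toAffine.Point ∧
    ∀ s : Pool.Agent.TH841.NF.D.Sha (E27 K), 2 • s = 0 → s = 0) := by
  have hW : W0.Δ ≠ 0 := by rw [W0_Δ]; norm_num
  rw [← W0_base]
  constructor
  · intro hS
    refine ⟨?_, fun s hs => Pool.Agent.R425.G.sha_two W0 hW hS s hs⟩
    have hdiv : ∀ P : Pt (Y702.G.sh W0) K, ∃ Q : Pt (Y702.G.sh W0) K, Q + Q = P := by
      intro P
      obtain ⟨a, b, c, hC⟩ := V_roots (V := Y702.G.sh W0) rfl rfl (sh_disc hW) (AlgebraicClosure K)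
      obtain ⟨Q, hQ⟩ := halveC hC (act (Y702.G.sh W0) (incl ℚ K (AlgebraicClosure K)) P)
      have h2 : ∀ σ : AlgebraicClosure K ≃ₐ[K] AlgebraicClosure K,
          (act (Y702.G.sh W0) (rs ℚ σ) Q - Q) + (act (Y702.G.sh W0) (rs ℚ σ) Q - Q) = 0 := by
        intro σ
        rw [sub_add_sub_comm, ← map_add]
        rw [hQ, rs_act_incl, sub_self]
      obtain ⟨T, hT, h3⟩ := hS _ (cob_isCoc (Y702.G.sh W0) Q) h2 (fun v => by
        refine Pool.Agent.Y809.BS.loc_congr (LocTriv.sub (Y702.G.sh W0) (Pool.Agent.Y809.BS.loc_zero' (Y702.G.sh W0)) (-Q)) fun σ => ?_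
        rw [map_neg]
        abel) (fun v => by
        refine Pool.Agent.Y809.BS.loc_congr (LocTriv.sub (Y702.G.sh W0) (Pool.Agent.Y809.BS.loc_zero' (Y702.G.sh W0)) (-Q)) fun σ => ?_
        rw [map_neg]
        abel)
      obtain ⟨Q0, hQ0⟩ := fixed_point (K := ℚ) (F := K) (Y702.G.sh W0) (Q - T) (fun σ => by
        have := h3 σ
        rw [map_sub]
        have e : act (Y702.G.sh W0) (rs ℚ σ) Q - act (Y702.G.sh W0) (rs ℚ σ) T - (Q - T) =
          (act (Y702.G.sh W0) (rs ℚ σ) Q - Q) - (act (Y702.G.sh W0) (rs ℚ σ) T - T) := by abel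
        rw [← sub_eq_zero, e, this, sub_self])
      refine ⟨Q0, act_inj (Y702.G.sh W0) (incl ℚ K (AlgebraicClosure K)) ?_⟩
      rw [map_add, hQ0, sub_add_sub_comm, hT, sub_zero]
      exact hQ
    obtain ⟨h1, h2⟩ := Pool.Agent.Y809.BS.finite_odd (mw W0 hW K) hdiv
    let e : (Y702.G.base W0 K).toAffine.Point ≃ Pt (Y702.G.sh W0) K :=
      Equiv.ofBijective (Y355.G.tr (isSh' W0 K))
      ⟨fun P Q h => Y355.G.tr_inj _ h, fun Q => Y355.G.tr_surj _ Q⟩
    exact Finite.of_equiv _ e.symm
  · rintro ⟨hfin, hsha⟩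
    exact Pool.Agent.R425.G.selT_of W0 K hW (cub_ne' h3) hfin hsha

/-- the torsion is odd -/
theorem tors_E' (h3 : ∀ x : K, x ^ 3 ≠ 2) :
    Odd (Nat.card {P : (E27 K).toAffine.Point | ∃ n : ℕ, 0 < n ∧ n • P = 0}) := by
  have h := Pool.Agent.R425.G.tors_odd (K := K) W0 (by rw [W0_Δ]; norm_num) (cub_ne' h3)
  rw [W0_base] at h
  exact h

end basic

section down

variable {F K : Type} [Field F] [NumberField F] [Field K] [NumberField K] [Algebra F K]

open NumberField.LiesOver in
theorem compl_inf (v : InfinitePlace K) : ∃ (u : InfinitePlace F) (j : u.Completion →+* v.Completion),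
    ∀ x : F, j (algebraMap F _ x) = algebraMap K _ (algebraMap F K x) := by
  let u : InfinitePlace F := v.comap (algebraMap F K)
  haveI : v.LiesOver u := ⟨rfl⟩
  refine ⟨u, completionMap, fun x => ?_⟩
  have h1 : algebraMap F v.Completion x = completionMap (algebraMap F u.Completion x) :=
    IsScalarTower.algebraMap_apply F u.Completion v.Completion x
  have h2 : algebraMap F v.Completion x = algebraMap K v.Completion (algebraMap F K x) := by
    apply InfinitePlace.Completion.ext
    rw [InfinitePlace.Completion.algebraMap_toCompletion,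
      InfinitePlace.Completion.algebraMap_toCompletion]
    exact IsScalarTower.algebraMap_apply F K v.1.Completion x
  rw [← h1, h2]

/-- the Selmer group of a subfield -/
theorem s2_down [IsGalois F K] (h3 : ∀ x : K, x ^ 3 ≠ 2) (hS : S2 K) : S2 F :=
  Pool.Agent.R425.G.selT_down W0 (by rw [W0_Δ]; norm_num) (cub_ne' h3)
    (fun v => Pool.Agent.Y664.QA.compl_tower F K v) (fun v => compl_inf v) hS

end down

end Pool.Agent.K7.H56.U
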