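import Pool.Agent.Y710.CV.Core

/-!
# Cocycles with values in the points of order two, from elements of the cubic algebra, over a
general base field
-/

set_option autoImplicit false
set_option linter.all false

open WeierstrassCurve WeierstrassCurve.Affine Polynomial
open scoped Classical

namespace Pool.Agent.K7.H56.U

open Pool.Agent.TH115.GD
open Pool.Agent.Y710.CV (sC_at neg_two cobL act_mul_rs)

section

variable {K Ω : Type} [Field K] [Field Ω] [Algebra ℚ K] [Algebra K Ω] [Algebra ℚ Ω]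
  [IsScalarTower ℚ K Ω] {V : WeierstrassCurve ℚ} {a b c : Ω}

theorem root_act (σ : Ω ≃ₐ[K] Ω) {e : Ω} (he : cub V e = 0) : cub V (σ e) = 0 := by
  have := cub_map V (rs ℚ σ) e
  rw [he, map_zero] at this
  exact this

/-- products over the roots do not change under permutations -/
theorem prod_perm (hC : IsC (V.baseChange Ω).toAffine a b c) (σ : Ω ≃ₐ[K] Ω) (t : Ω → Ω) :
    t (σ a) * t (σ b) * t (σ c) = t a * t b * t c := by
  have ra := hC.root (root_act σ hC.root_a)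
  have rb := hC.root (root_act σ hC.root_b)
  have rc := hC.root (root_act σ hC.root_c)
  have hab : σ a ≠ σ b := fun h => hC.ab (σ.injective h)
  have hac : σ a ≠ σ c := fun h => hC.ac (σ.injective h)
  have hbc : σ b ≠ σ c := fun h => hC.bc (σ.injective h)
  rcases ra with h1 | h1 | h1 <;> rcases rb with h2 | h2 | h2 <;> rcases rc with h3 | h3 | h3 <;>
    first
      | exact absurd (h1.trans h2.symm) hab
      | exact absurd (h1.trans h3.symm) hac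
      | exact absurd (h2.trans h3.symm) hbc
      | (rw [h1, h2, h3] <;> ring)

variable [IsGalois K Ω] [IsAlgClosed Ω]

/-- the class of an element of the cubic algebra -/
theorem exists_cls (hC : IsC (V.baseChange Ω).toAffine a b c) (ζ : Ω → Ω)
    (hζ : ∀ (σ : Ω ≃ₐ[K] Ω) (e : Ω), cub V e = 0 → σ (ζ e) = ζ (σ e))
    (hζ0 : ∀ e, cub V e = 0 → ζ e ≠ 0) {r : K} (hr : ζ a * ζ b * ζ c = algebraMap K Ω r ^ 2) :
    ∃ (g : (Ω ≃ₐ[K] Ω) → Pt V Ω) (t : Ω → Ω), IsLocallyConstant g ∧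
      (∀ σ τ, g (σ * τ) = g σ + act V (rs ℚ σ) (g τ)) ∧ (∀ σ, g σ + g σ = 0) ∧
      (∀ e, cub V e = 0 → t e ≠ 0 ∧ t e ^ 2 = ζ e) ∧ t a * t b * t c = algebraMap K Ω r ∧
      ∀ σ e, cub V e = 0 → σ (t (σ⁻¹ e)) = sC e (g σ) * t e := by
  haveI : IsSepClosed Ω := inferInstance
  have ex0 : ∀ e : Ω, ∃ y : Ω, y ^ 2 = ζ e := fun e =>
    IsAlgClosed.exists_pow_nat_eq (ζ e) (n := 2) (by norm_num)
  choose t0 ht0 using ex0
  obtain ⟨t, ht, htr⟩ : ∃ t : Ω → Ω, (∀ e, t e ^ 2 = ζ e) ∧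
      t a * t b * t c = algebraMap K Ω r := by
    have h1 : (t0 a * t0 b * t0 c) ^ 2 = algebraMap K Ω r ^ 2 := by
      rw [← hr, mul_pow, mul_pow, ht0, ht0, ht0]
    rcases sq_eq_sq_iff_eq_or_eq_neg.1 h1 with h | h
    · exact ⟨t0, ht0, h⟩
    · refine ⟨fun e => if e = a then - t0 e else t0 e, fun e => ?_, ?_⟩
      · show (if e = a then - t0 e else t0 e) ^ 2 = ζ e
        split_ifs
        · rw [neg_sq, ht0]
        · exact ht0 e
      · show (if a = a then - t0 a else t0 a) * (if b = a then - t0 b else t0 b) *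
          (if c = a then - t0 c else t0 c) = _
        rw [if_pos rfl, if_neg (Ne.symm hC.ab), if_neg (Ne.symm hC.ac)]
        linear_combination -h
  have htn : ∀ e, cub V e = 0 → t e ≠ 0 := by
    intro e he h
    apply hζ0 e he
    rw [← ht, h]
    ring
  have hinv : ∀ (τ : Ω ≃ₐ[K] Ω) (e : Ω), τ (τ⁻¹ e) = e := by
    intro τ e
    rw [← AlgEquiv.mul_apply, mul_inv_cancel]; rfl
  -- the signs
  have hsg : ∀ (σ : Ω ≃ₐ[K] Ω) (e : Ω), cub V e = 0 →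
      ∃ u : Ω, (u = 1 ∨ u = -1) ∧ σ (t (σ⁻¹ e)) = u * t e := by
    intro σ e he
    have he' : cub V (σ⁻¹ e) = 0 := root_act σ⁻¹ he
    have h1 : (σ (t (σ⁻¹ e))) ^ 2 = t e ^ 2 := by
      rw [← map_pow, ht, hζ σ _ he', hinv, ht]
    rcases sq_eq_sq_iff_eq_or_eq_neg.1 h1 with h | h
    · exact ⟨1, Or.inl rfl, by rw [h, one_mul]⟩
    · exact ⟨-1, Or.inr rfl, by rw [h, neg_one_mul]⟩
  have hex : ∀ σ : Ω ≃ₐ[K] Ω, ∃ P : Pt V Ω, P + P = 0 ∧
      ∀ e, cub V e = 0 → σ (t (σ⁻¹ e)) = sC e P * t e := by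
    intro σ
    obtain ⟨ua, hua, ea⟩ := hsg σ a hC.root_a
    obtain ⟨ub, hub, eb⟩ := hsg σ b hC.root_b
    obtain ⟨uc, huc, ec⟩ := hsg σ c hC.root_c
    have hp : ua * ub * uc = 1 := by
      have h1 := prod_perm hC σ⁻¹ t
      have h2 : σ (t (σ⁻¹ a)) * σ (t (σ⁻¹ b)) * σ (t (σ⁻¹ c)) = t a * t b * t c := by
        rw [← map_mul, ← map_mul, h1, htr, AlgEquiv.commutes]
      rw [ea, eb, ec] at h2
      have h3 : t a * t b * t c ≠ 0 :=
        mul_ne_zero (mul_ne_zero (htn a hC.root_a) (htn b hC.root_b)) (htn c hC.root_c)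
      apply mul_right_cancel₀ h3
      rw [one_mul]
      linear_combination h2
    obtain ⟨P, hP, ha, hb, hc⟩ := exists_tor hC hua hub huc hp
    refine ⟨P, hP, fun e he => ?_⟩
    rcases hC.root he with rfl | rfl | rfl
    · rw [ea, ha]
    · rw [eb, hb]
    · rw [ec, hc]
  choose g hg2 hg using hex
  have hact : ∀ (τ : Ω ≃ₐ[K] Ω) (e : Ω) (P : Pt V Ω),
      sC e (act V (rs ℚ τ) P) = sC (τ⁻¹ e) P := by
    intro τ e P
    have := sC_act' V (rs ℚ τ) (τ⁻¹ e) P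
    have h3 : (rs ℚ τ) (τ⁻¹ e) = e := hinv τ e
    rw [h3] at this
    exact this
  have hta : ∀ (σ : Ω ≃ₐ[K] Ω) (P : Pt V Ω), P + P = 0 →
      act V (rs ℚ σ) P + act V (rs ℚ σ) P = 0 :=
    fun σ P hP => (two_act V _ _).2 hP
  have hmul : ∀ σ τ, g (σ * τ) = g σ + act V (rs ℚ σ) (g τ) := by
    intro σ τ
    have key : ∀ e, cub V e = 0 → sC e (g (σ * τ)) = sC e (g σ + act V (rs ℚ σ) (g τ)) := by
      intro e he
      have he' : cub V (σ⁻¹ e) = 0 := root_act σ⁻¹ he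
      have h1 := hg (σ * τ) e he
      have h2 := hg τ (σ⁻¹ e) he'
      have h3 := hg σ e he
      have h4 : (σ * τ)⁻¹ e = τ⁻¹ (σ⁻¹ e) := by rw [mul_inv_rev]; rfl
      have h5 : (σ * τ) (t ((σ * τ)⁻¹ e)) = σ (τ (t (τ⁻¹ (σ⁻¹ e)))) := by rw [h4]; rfl
      rw [h5, h2, map_mul] at h1
      have h6 : σ (sC (σ⁻¹ e) (g τ)) = sC (σ⁻¹ e) (g τ) := by
        rcases sC_sq (a := σ⁻¹ e) (g τ) with h | h <;> rw [h] <;> simp
      rw [h6, h3] at h1
      rw [sC_at hC he (hg2 σ) (hta σ _ (hg2 τ)), hact]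
      apply mul_right_cancel₀ (htn e he)
      linear_combination -h1
    refine sC_ext hC (hg2 _) ?_ (key a hC.root_a) (key b hC.root_b)
    rw [add_add_add_comm, hg2, hta _ _ (hg2 _), add_zero]
  refine ⟨g, t, ?_, hmul, hg2, fun e he => ⟨htn e he, ht e⟩, htr, hg⟩
  -- continuity
  set S : Finset Ω := {a, b, c, t a, t b, t c} with hS
  have hUopen : IsOpen (⋂ x ∈ S, (MulAction.stabilizer (Ω ≃ₐ[K] Ω) x : Set (Ω ≃ₐ[K] Ω))) :=
    isOpen_biInter_finset fun x _ => stabilizer_isOpen_of_isIntegral (K := K) x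
  set U := ⋂ x ∈ S, (MulAction.stabilizer (Ω ≃ₐ[K] Ω) x : Set (Ω ≃ₐ[K] Ω)) with hU
  have hUmem : ∀ τ ∈ U, ∀ x ∈ S, τ x = x := by
    intro τ hτ x hx
    rw [hU, Set.mem_iInter₂] at hτ
    exact hτ x hx
  have hU0 : ∀ τ ∈ U, g τ = 0 := by
    intro τ hτ
    have hfx := hUmem τ hτ
    have hτinv : ∀ x, τ x = x → τ⁻¹ x = x := by
      intro x hx
      apply τ.injective
      rw [hinv, hx]
    have key : ∀ e, cub V e = 0 → τ e = e → τ (t e) = t e → sC e (g τ) = sC e (0 : Pt V Ω) := by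
      intro e he h1 h2
      have h3 := hg τ e he
      rw [hτinv e h1, h2] at h3
      rw [sC_zero]
      apply mul_right_cancel₀ (htn e he)
      rw [← h3, one_mul]
    exact sC_ext hC (hg2 τ) (add_zero 0)
      (key a hC.root_a (hfx a (by simp [hS])) (hfx _ (by simp [hS])))
      (key b hC.root_b (hfx b (by simp [hS])) (hfx _ (by simp [hS])))
  rw [IsLocallyConstant.iff_exists_open]
  intro τ
  refine ⟨(fun x => τ⁻¹ * x) ⁻¹' U, hUopen.preimage (continuous_const.mul continuous_id), ?_, ?_⟩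
  · show τ⁻¹ * τ ∈ U
    rw [inv_mul_cancel, hU, Set.mem_iInter₂]
    intro x _
    exact (MulAction.stabilizer (Ω ≃ₐ[K] Ω) x).one_mem
  · intro τ' hτ'
    have h1 : τ' = τ * (τ⁻¹ * τ') := by group
    rw [h1, hmul, hU0 _ hτ', map_zero, add_zero]

omit [IsGalois K Ω] in
/-- If the class is trivial, then the element is a square. -/
theorem sq_of_triv (hC : IsC (V.baseChange Ω).toAffine a b c) {ζ : Ω → Ω}
    {g : (Ω ≃ₐ[K] Ω) → Pt V Ω} {t : Ω → Ω} (h2 : ∀ σ, g σ + g σ = 0)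
    (ht : ∀ e, cub V e = 0 → t e ≠ 0 ∧ t e ^ 2 = ζ e)
    (hg : ∀ σ e, cub V e = 0 → σ (t (σ⁻¹ e)) = sC e (g σ) * t e)
    {T : Pt V Ω} (hT : T + T = 0) (hgT : ∀ σ, g σ = act V (rs ℚ σ) T - T) :
    ∃ t' : Ω → Ω, (∀ e, cub V e = 0 → t' e ^ 2 = ζ e) ∧
      ∀ (σ : Ω ≃ₐ[K] Ω) (e : Ω), cub V e = 0 → σ (t' e) = t' (σ e) := by
  haveI : IsSepClosed Ω := inferInstance
  have hinv : ∀ (τ : Ω ≃ₐ[K] Ω) (e : Ω), τ (τ⁻¹ e) = e := by
    intro τ e
    rw [← AlgEquiv.mul_apply, mul_inv_cancel]; rfl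
  have hinv' : ∀ (τ : Ω ≃ₐ[K] Ω) (e : Ω), τ⁻¹ (τ e) = e := by
    intro τ e
    rw [← AlgEquiv.mul_apply, inv_mul_cancel]; rfl
  have hact : ∀ (τ : Ω ≃ₐ[K] Ω) (e : Ω) (P : Pt V Ω),
      sC e (act V (rs ℚ τ) P) = sC (τ⁻¹ e) P := by
    intro τ e P
    have := sC_act' V (rs ℚ τ) (τ⁻¹ e) P
    have h3 : (rs ℚ τ) (τ⁻¹ e) = e := hinv τ e
    rw [h3] at this
    exact this
  have hta : ∀ (σ : Ω ≃ₐ[K] Ω) (P : Pt V Ω), P + P = 0 →
      act V (rs ℚ σ) P + act V (rs ℚ σ) P = 0 :=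
    fun σ P hP => (two_act V _ _).2 hP
  have hsgn : ∀ (σ : Ω ≃ₐ[K] Ω) (e : Ω) (P : Pt V Ω), σ (sC e P) = sC e P := by
    intro σ e P
    rcases sC_sq (a := e) P with h | h <;> rw [h] <;> simp
  -- the equivariant root
  refine ⟨fun e => sC e T * t e, fun e he => ?_, fun σ e he => ?_⟩
  · have h1 := sC_mul_self (a := e) T
    have h3 := (ht e he).2
    rw [← h3]
    linear_combination (t e ^ 2) * h1
  · have he' := root_act σ he
    have h1 := hg σ (σ e) he'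
    rw [hinv', hgT σ, sub_eq_add_neg, neg_two hT, sC_at hC he' (hta σ T hT) hT, hact,
      hinv'] at h1
    show σ (sC e T * t e) = sC (σ e) T * t (σ e)
    rw [map_mul, hsgn, h1]
    have h3 := sC_mul_self (a := e) T
    linear_combination (sC (σ e) T * t (σ e)) * h3

end

section core

variable {K Ω L Ω' : Type} [Field K] [Field Ω] [Field L] [Field Ω'] [Algebra ℚ K] [Algebra K Ω]
  [Algebra ℚ Ω] [IsScalarTower ℚ K Ω] [Algebra ℚ L] [Algebra L Ω'] [Algebra ℚ Ω']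
  [IsScalarTower ℚ L Ω'] [Algebra K L] [Algebra K Ω'] [IsScalarTower K L Ω']
  [IsScalarTower ℚ K Ω'] {V : WeierstrassCurve ℚ}

variable (L Ω') in
/-- The local condition, in terms of a function on the roots. -/
def LC (V : WeierstrassCurve ℚ) (ζ : Ω' → Ω') : Prop :=
  ∃ R : Pt V Ω', (∀ σ : Ω' ≃ₐ[L] Ω', act V (rs ℚ σ) R = R) ∧
    ∀ e : Ω', cub V e = 0 → ∃ w : Ω', (∀ σ : Ω' ≃ₐ[L] Ω', σ e = e → σ w = w) ∧
      ∀ b c : Ω', IsC (V.baseChange Ω').toAffine e b c → ζ e = w ^ 2 * dc e b c R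

/-- The local condition implies local triviality. -/
theorem core [IsSepClosed Ω'] [IsSepClosed Ω] [IsGalois K Ω] [IsGalois L Ω']
    (V : WeierstrassCurve ℚ) {a b c : Ω}
    (hC : IsC (V.baseChange Ω).toAffine a b c)
    {g : (Ω ≃ₐ[K] Ω) → Pt V Ω} (hmul : ∀ σ τ, g (σ * τ) = g σ + act V (rs ℚ σ) (g τ))
    (h2 : ∀ σ, g σ + g σ = 0) {ζ t : Ω → Ω} (ht : ∀ e, cub V e = 0 → t e ≠ 0 ∧ t e ^ 2 = ζ e)
    (hg : ∀ σ e, cub V e = 0 → σ (t (σ⁻¹ e)) = sC e (g σ) * t e)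
    (ι : Ω →ₐ[K] Ω') {ζ' : Ω' → Ω'} (hζ' : ∀ e, cub V e = 0 → ι (ζ e) = ζ' (ι e))
    (h : LC L Ω' V ζ') :
    LocTriv (F := K) (Ω := Ω) V L Ω' g := by
  obtain ⟨R, hR, hφ⟩ := h
  choose res hres using exists_restrict (F := K) (Ω := Ω) (L := L) (Ω' := Ω') ι
  have hC' : IsC (V.baseChange Ω').toAffine (ι a) (ι b) (ι c) := hC.map (ι.restrictScalars ℚ)
  obtain ⟨Q, hQ⟩ := halveC hC' R
  have hT : ∀ σ : Ω' ≃ₐ[L] Ω', (act V (rs ℚ σ) Q - Q) + (act V (rs ℚ σ) Q - Q) = 0 := by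
    intro σ
    have h1 : act V (rs ℚ σ) (Q + Q) = Q + Q := by rw [hQ, hR]
    rw [map_add] at h1
    have h3 : (act V (rs ℚ σ) Q - Q) + (act V (rs ℚ σ) Q - Q) =
        (act V (rs ℚ σ) Q + act V (rs ℚ σ) Q) - (Q + Q) := by abel
    rw [h3, h1, sub_self]
  set G : (Ω' ≃ₐ[L] Ω') → Pt V Ω' := fun τ => act V (ι.restrictScalars ℚ) (g (res τ)) with hG
  have hG2 : ∀ τ, G τ + G τ = 0 := fun τ => (two_act V _ _).2 (h2 _)
  have hinj : ∀ x y : Ω, ι x = ι y → x = y := fun x y h => (ι : Ω →+* Ω').injective h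
  have hresm : ∀ σ τ, res (σ * τ) = res σ * res τ := by
    intro σ τ
    apply AlgEquiv.ext
    intro x
    apply hinj
    rw [← hres]
    show σ (τ (ι x)) = ι (res σ (res τ x))
    rw [hres, hres]
  have hGm : ∀ σ τ, G (σ * τ) = G σ + act V (rs ℚ σ) (G τ) := by
    intro σ τ
    simp only [hG]
    rw [hresm, hmul, map_add, act_act, act_act]
    have e1 : (ι.restrictScalars ℚ).comp (rs ℚ (res σ)) = (rs ℚ σ).comp (ι.restrictScalars ℚ) :=
      AlgHom.ext fun x => (hres σ x).symm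
    rw [e1]
  set h : (Ω' ≃ₐ[L] Ω') → Pt V Ω' := fun τ => G τ - (act V (rs ℚ τ) Q - Q) with hh
  have hhm : ∀ σ τ, h (σ * τ) = h σ + act V (rs ℚ σ) (h τ) := by
    intro σ τ
    simp only [hh]
    rw [hGm, act_mul_rs, map_sub, map_sub]
    abel
  have hh2 : ∀ σ, h σ + h σ = 0 := by
    intro σ
    simp only [hh]
    have h3 : G σ - (act V (rs ℚ σ) Q - Q) + (G σ - (act V (rs ℚ σ) Q - Q)) =
        (G σ + G σ) - ((act V (rs ℚ σ) Q - Q) + (act V (rs ℚ σ) Q - Q)) := by abel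
    rw [h3, hG2, hT, sub_zero]
  have hfix : ∀ e : Ω', cub V e = 0 → ∀ σ : Ω' ≃ₐ[L] Ω', σ e = e → sC e (h σ) = 1 := by
    intro e' he' σ hσ
    -- the root of `Ω`
    obtain ⟨e, he, hee⟩ : ∃ e : Ω, cub V e = 0 ∧ ι e = e' := by
      rcases hC'.root he' with h1 | h1 | h1
      · exact ⟨a, hC.root_a, h1.symm⟩
      · exact ⟨b, hC.root_b, h1.symm⟩
      · exact ⟨c, hC.root_c, h1.symm⟩
    subst hee
    obtain ⟨b', c', hC1⟩ := hC'.at_root (hC'.root he')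
    obtain ⟨w, hw, hw2⟩ := hφ (ι e) he'
    have e1 := hw2 b' c' hC1
    rw [← hQ, ← hc_sq hC1, ← mul_pow, ← hζ' e he, ← (ht e he).2, map_pow] at e1
    have hwσ := hw σ hσ
    have hrσ : (rs ℚ σ) (ι e) = ι e := hσ
    have hcσ : σ (hc (ι e) b' c' Q) =
        sC (ι e) (act V (rs ℚ σ) Q - Q) * hc (ι e) b' c' Q :=
      hc_sign hC1 hrσ (hT σ)
    have A1 : σ (ι (t e)) = sC (ι e) (act V (rs ℚ σ) Q - Q) * ι (t e) := by
      rcases sq_eq_sq_iff_eq_or_eq_neg.1 e1 with h1 | h1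
      · rw [h1, map_mul, hwσ, hcσ]; ring
      · rw [h1, map_neg, map_mul, hwσ, hcσ]; ring
    have hτ : res σ e = e := by
      apply hinj
      rw [← hres, hσ]
    have hτ' : (res σ)⁻¹ e = e := by
      apply (res σ).injective
      rw [← AlgEquiv.mul_apply, mul_inv_cancel, hτ]
      rfl
    have A2 : σ (ι (t e)) = sC (ι e) (G σ) * ι (t e) := by
      have h5 := hg (res σ) e he
      rw [hτ'] at h5
      rw [hres, h5, map_mul]
      congr 1
      exact (sC_act V (ι.restrictScalars ℚ) _ _).symm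
    have hne : ι (t e) ≠ 0 := (map_ne_zero ι).2 (ht e he).1
    have A3 : sC (ι e) (G σ) = sC (ι e) (act V (rs ℚ σ) Q - Q) :=
      mul_right_cancel₀ hne (by rw [← A2, A1])
    show sC (ι e) (G σ - (act V (rs ℚ σ) Q - Q)) = 1
    rw [sub_eq_add_neg, neg_two (hT σ), sC_add hC1 (hG2 σ) (hT σ), A3, sC_mul_self]
  obtain ⟨S, hS, hS2⟩ := cobL (K := ℚ) (L := L) hC' hhm hh2 hfix
  refine ⟨ι, Q + S, fun τ σ hτσ => ?_⟩
  have h1 : σ = res τ := by
    apply AlgEquiv.ext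
    intro x
    apply hinj
    rw [← hτσ, hres]
  have h3 : act V (ι.restrictScalars ℚ) (g σ) = G τ := by
    rw [h1]
  have h4 : G τ = h τ + (act V (rs ℚ τ) Q - Q) := by
    simp only [hh]
    abel
  rw [h3, h4, hS2, map_add]
  abel

omit [Algebra K L] [Algebra K Ω'] [IsScalarTower K L Ω'] [IsScalarTower ℚ K Ω'] [Algebra ℚ K] in
theorem lc1 {V : WeierstrassCurve ℚ} {ζ : Ω' → Ω'} (hφ : ∀ e : Ω', cub V e = 0 → ∃ w : Ω',
    (∀ σ : Ω' ≃ₐ[L] Ω', σ e = e → σ w = w) ∧ ζ e = w ^ 2) : LC L Ω' V ζ := by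
  refine ⟨0, fun σ => map_zero _, fun e he => ?_⟩
  obtain ⟨w, hw, hz⟩ := hφ e he
  refine ⟨w, hw, fun b c _ => ?_⟩
  have e1 : dc e b c (0 : Pt V Ω') = 1 := rfl
  rw [e1, mul_one, hz]

omit [Algebra K L] [Algebra K Ω'] [IsScalarTower K L Ω'] [IsScalarTower ℚ K Ω'] [Algebra ℚ K] in
theorem lc2 {V : WeierstrassCurve ℚ} (h1 : V.a₁ = 0) (h3 : V.a₃ = 0) (hΔ : V.Δ ≠ 0) {ζ : Ω' → Ω'}
    {x y : L} (hxy : y ^ 2 = cub V x) (hφ : ∀ e : Ω', cub V e = 0 → ∃ w D : Ω',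
    (∀ σ : Ω' ≃ₐ[L] Ω', σ e = e → σ w = w) ∧ ζ e = w ^ 2 * D ∧
      ((algebraMap L Ω' x = e ∧ D = cub' V e) ∨
        (algebraMap L Ω' x ≠ e ∧ D = algebraMap L Ω' x - e))) : LC L Ω' V ζ := by
  have hns : (V.baseChange Ω').toAffine.Nonsingular (algebraMap L Ω' x) (algebraMap L Ω' y) := by
    rw [← Affine.equation_iff_nonsingular_of_Δ_ne_zero]
    · rw [Affine.equation_iff]
      have e1 : (V.baseChange Ω').toAffine.a₁ = 0 := by
        show algebraMap ℚ _ V.a₁ = 0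
        rw [h1, map_zero]
      have e3 : (V.baseChange Ω').toAffine.a₃ = 0 := by
        show algebraMap ℚ _ V.a₃ = 0
        rw [h3, map_zero]
      have e2 : (V.baseChange Ω').toAffine.a₂ = algebraMap ℚ Ω' V.a₂ := rfl
      have e4 : (V.baseChange Ω').toAffine.a₄ = algebraMap ℚ Ω' V.a₄ := rfl
      have e6 : (V.baseChange Ω').toAffine.a₆ = algebraMap ℚ Ω' V.a₆ := rfl
      rw [e1, e2, e3, e4, e6]
      have e7 := congrArg (algebraMap L Ω') hxy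
      simp only [cub, map_add, map_mul, map_pow, ← IsScalarTower.algebraMap_apply ℚ L Ω'] at e7
      linear_combination e7
    · show (V.baseChange Ω').Δ ≠ 0
      rw [WeierstrassCurve.baseChange, WeierstrassCurve.map_Δ]
      exact (_root_.map_ne_zero _).2 hΔ
  refine ⟨Point.some _ _ hns, fun σ => ?_, fun e he => ?_⟩
  · obtain ⟨h', hh⟩ := act_some V (rs ℚ σ) hns
    rw [hh]
    have ex : (rs ℚ σ) (algebraMap L Ω' x) = algebraMap L Ω' x := σ.commutes x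
    have ey : (rs ℚ σ) (algebraMap L Ω' y) = algebraMap L Ω' y := σ.commutes y
    simp only [ex, ey]
  · obtain ⟨w, D, hw, hs, hD⟩ := hφ e he
    refine ⟨w, hw, fun b c hC2 => ?_⟩
    rw [hs]
    congr 1
    rcases hD with ⟨hjx, hD⟩ | ⟨hjx, hD⟩
    · simp only [dc, hjx, if_true]
      rw [hD, hC2.cub'_eq]
    · simp only [dc]
      rw [if_neg hjx, hD]

end core

end Pool.Agent.K7.H56.U
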