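import Pool.Agent.K7.H56.U.A
import Pool.Agent.K7.H56.M.L
import Pool.Agent.R425.G.Cl5
import Pool.Agent.Y696.Gn

/-!
# The class of an element of the cubic algebra over a number field is not locally trivial if ...
-/

set_option autoImplicit false
set_option linter.all false

open NumberField IsDedekindDomain WithZero WeierstrassCurve WeierstrassCurve.Affine
open scoped NNReal Classical

namespace Pool.Agent.K7.H56.U

open Pool.Agent.TH115.GD
open Pool.Agent.Y696 (Cb)
open Pool.Agent.Y702.G (base pts)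
open Pool.Agent.K7.H56.M (W0 W0_Δ)

section zt

variable {K F : Type} [Field K] [Field F]

/-- the evaluation at the root `-e / 2` of `X³ - 2` -/
def zt (x : Cb K) (f : K →+* F) (e : F) : F := f x.a + f x.b * (-(e / 2)) + f x.c * (-(e / 2)) ^ 2

theorem cub_W0 [Algebra ℚ F] (e : F) : cub (Y702.G.sh W0) e = e ^ 3 + 16 := by
  rw [Pool.Agent.R425.G.cub_sh]
  simp only [W0, WeierstrassCurve.b₂, WeierstrassCurve.b₄, WeierstrassCurve.b₆]
  push_cast
  ring

theorem cub'_W0 [Algebra ℚ F] (e : F) : cub' (Y702.G.sh W0) e = 3 * e ^ 2 := by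
  rw [Pool.Agent.R425.G.cub'_sh]
  simp only [W0, WeierstrassCurve.b₂, WeierstrassCurve.b₄]
  push_cast
  ring

theorem root_two [Algebra ℚ F] {e : F} (he : cub (Y702.G.sh W0) e = 0) : (-(e / 2)) ^ 3 = 2 := by
  haveI : CharZero F := algebraRat.charZero F
  rw [cub_W0] at he
  have : (-(e / 2)) ^ 3 = -(e ^ 3) / 8 := by ring
  rw [this]
  linear_combination (-1 / 8 : F) * he

theorem root_of [Algebra ℚ F] {ρ : F} (hρ : ρ ^ 3 = 2) : cub (Y702.G.sh W0) (-(2 * ρ)) = 0 := by
  rw [cub_W0]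
  linear_combination (-8) * hρ

theorem half_root [Algebra ℚ F] (ρ : F) : -(-(2 * ρ) / 2) = ρ := by
  haveI : CharZero F := algebraRat.charZero F
  ring

theorem zt_hom [Algebra ℚ F] (x : Cb K) (f : K →+* F) {e : F} (he : cub (Y702.G.sh W0) e = 0) :
    zt x f e = Cb.hom F f (-(e / 2)) (root_two he) x := by
  rw [Cb.hom_apply]
  rfl

theorem zt_mul [Algebra ℚ F] (x y : Cb K) (f : K →+* F) {e : F} (he : cub (Y702.G.sh W0) e = 0) :
    zt (x * y) f e = zt x f e * zt y f e := by
  rw [zt_hom _ _ he, zt_hom _ _ he, zt_hom _ _ he, map_mul]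

theorem zt_pow [Algebra ℚ F] (x : Cb K) (f : K →+* F) {e : F} (he : cub (Y702.G.sh W0) e = 0) (n : ℕ) :
    zt (x ^ n) f e = zt x f e ^ n := by
  rw [zt_hom _ _ he, zt_hom _ _ he, map_pow]

theorem zt_equi (x : Cb K) {f : K →+* F} {σ : F →+* F} (h : ∀ y, σ (f y) = f y) (e : F) :
    σ (zt x f e) = zt x f (σ e) := by
  unfold zt
  simp only [map_add, map_mul, map_pow, map_neg, map_div₀, map_ofNat, h]

theorem zt_comp {F' : Type} [Field F'] (x : Cb K) (f : K →+* F) (g : F →+* F') (e : F) :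
    g (zt x f e) = zt x (g.comp f) (g e) := by
  unfold zt
  simp only [map_add, map_mul, map_pow, map_neg, map_div₀, map_ofNat, RingHom.comp_apply]

theorem zt_map {K' : Type} [Field K'] (x : Cb K) (f : K →+* K') (g : K' →+* F) (e : F) :
    zt (Cb.map f x) g e = zt x (g.comp f) e := rfl

theorem zt_norm [Algebra ℚ F] {a b c : F} (hC : IsC ((Y702.G.sh W0).baseChange F).toAffine a b c)
    (x : Cb K) (f : K →+* F) : zt x f a * zt x f b * zt x f c = f x.N := by
  haveI : CharZero F := algebraRat.charZero F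
  have h2 := hC.a2
  have h4 := hC.a4
  have h6 := hC.a6
  have c2 : ((Y702.G.sh W0).baseChange F).toAffine.a₂ = 0 := by
    show algebraMap ℚ F (Y702.G.sh W0).a₂ = 0
    have : (Y702.G.sh W0).a₂ = 0 := by
      show ((W0.b₂ : ℤ) : ℚ) = 0
      simp only [W0, WeierstrassCurve.b₂]
      norm_num
    rw [this, map_zero]
  have c4 : ((Y702.G.sh W0).baseChange F).toAffine.a₄ = 0 := by
    show algebraMap ℚ F (Y702.G.sh W0).a₄ = 0
    have : (Y702.G.sh W0).a₄ = 0 := by
      show (8 * ((W0.b₄ : ℤ) : ℚ)) = 0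
      simp only [W0, WeierstrassCurve.b₄]
      norm_num
    rw [this, map_zero]
  have c6 : ((Y702.G.sh W0).baseChange F).toAffine.a₆ = 16 := by
    show algebraMap ℚ F (Y702.G.sh W0).a₆ = 16
    have : (Y702.G.sh W0).a₆ = 16 := by
      show (16 * ((W0.b₆ : ℤ) : ℚ)) = 16
      simp only [W0, WeierstrassCurve.b₆]
      norm_num
    rw [this, map_ofNat]
  rw [c2] at h2
  rw [c4] at h4
  rw [c6] at h6
  set u := -(a / 2) with hu
  set v := -(b / 2) with hv
  set w := -(c / 2) with hw
  have g1 : u + v + w = 0 := by rw [hu, hv, hw]; linear_combination (-1 / 2 : F) * h2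
  have g2 : u * v + u * w + v * w = 0 := by rw [hu, hv, hw]; linear_combination (-1 / 4 : F) * h4
  have g3 : u * v * w = 2 := by rw [hu, hv, hw]; linear_combination (-1 / 8 : F) * h6
  have hN : f x.N = f x.a ^ 3 + 2 * f x.b ^ 3 + 4 * f x.c ^ 3 - 6 * f x.a * f x.b * f x.c := by
    unfold Cb.N
    simp only [map_add, map_sub, map_mul, map_pow, map_ofNat]
  rw [hN]
  unfold zt
  rw [← hu, ← hv, ← hw]
  generalize f x.a = A
  generalize f x.b = B
  generalize f x.c = C
  linear_combination (A ^ 2 * B + A ^ 2 * C * (u + v + w) + A * B * C * (u * v + u * w + v * w) -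
    2 * A * C ^ 2 * (u * v * w) + B ^ 2 * C * (u * v * w)) * g1 +
    (-2 * A ^ 2 * C + A * B ^ 2 + A * C ^ 2 * (u * v + u * w + v * w) +
      B * C ^ 2 * (u * v * w)) * g2 +
    (-3 * A * B * C + B ^ 3 + C ^ 3 * (u * v * w + 2)) * g3

theorem zt_ne [Algebra ℚ F] {x : Cb K} (f : K →+* F) (hN : x.N ≠ 0) {e : F}
    (he : cub (Y702.G.sh W0) e = 0) : zt x f e ≠ 0 := by
  intro h0
  have h1 := congrArg (fun y => zt y f e) (Cb.mul_adj x)
  simp only [zt_mul _ _ f he, h0, zero_mul] at h1
  have h2 : zt (Cb.C x.N) f e = f x.N := by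
    unfold zt
    simp
  rw [h2] at h1
  exact hN ((map_eq_zero f).1 h1.symm)

end zt

section conv

theorem lc_conv {L Ω' : Type} [Field L] [Field Ω'] [Algebra L Ω']
    (i1 i1' : Algebra ℚ L) (i2 i2' : Algebra ℚ Ω') (s : @IsScalarTower ℚ L Ω' i1.toSMul _ i2.toSMul)
    (s' : @IsScalarTower ℚ L Ω' i1'.toSMul _ i2'.toSMul) {V : WeierstrassCurve ℚ} {ζ : Ω' → Ω'}
    (h : @LC L Ω' _ _ i1 _ i2 s V ζ) : @LC L Ω' _ _ i1' _ i2' s' V ζ := by
  have e1 : i1 = i1' := Subsingleton.elim _ _
  have e2 : i2 = i2' := Subsingleton.elim _ _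
  subst e1
  subst e2
  exact h

end conv

section main

variable {K : Type} [Field K] [NumberField K]

theorem cub_ne (h3 : ∀ x : K, x ^ 3 ≠ 2) (x : K) : cub (Y702.G.sh W0) x ≠ 0 := fun h => h3 _ (root_two h)

/-- the embedding of the field `K(∛2)` -/
theorem mem_of_stab (h3 : ∀ x : K, x ^ 3 ≠ 2) {Ω : Type} [Field Ω] [Algebra K Ω] [Algebra ℚ Ω]
    [IsScalarTower ℚ K Ω] [IsGalois K Ω] {e : Ω} (he : cub (Y702.G.sh W0) e = 0) {x : Ω}
    (hfix : ∀ σ : Ω ≃ₐ[K] Ω, σ e = e → σ x = x) : ∃ s : Cb K, zt s (algebraMap K Ω) e = x := by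
  letI := Cb.fld h3
  letI : Algebra K (Cb K) := (Cb.C : K →+* Cb K).toAlgebra
  let φ : Cb K →ₐ[K] Ω :=
    { toRingHom := Cb.hom Ω (algebraMap K Ω) (-(e / 2)) (root_two he)
      commutes' := fun r => by
        show Cb.hom Ω (algebraMap K Ω) (-(e / 2)) (root_two he) (Cb.C r) = _
        rw [Cb.hom_apply]
        simp }
  have h5 : x ∈ IntermediateField.fixedField (φ.fieldRange.fixingSubgroup) := by
    rw [IntermediateField.mem_fixedField_iff]
    intro σ hσ
    apply hfix
    rw [IntermediateField.mem_fixingSubgroup_iff] at hσ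
    have h6 := hσ (φ Cb.pi) ⟨Cb.pi, rfl⟩
    have h7 : φ Cb.pi = -(e / 2) := by
      show Cb.hom Ω (algebraMap K Ω) (-(e / 2)) (root_two he) Cb.pi = _
      rw [Cb.hom_apply]
      simp
    rw [h7, map_neg, map_div₀, map_ofNat] at h6
    haveI : CharZero Ω := algebraRat.charZero Ω
    have h8 : σ e / 2 = e / 2 := neg_injective h6
    have h9 : (2 : Ω) ≠ 0 := two_ne_zero
    field_simp at h8
    exact h8
  rw [InfiniteGalois.fixedField_fixingSubgroup] at h5
  obtain ⟨s, hs⟩ := h5
  exact ⟨s, by rw [zt_hom _ _ he]; exact hs⟩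

/-- **a nontrivial class of the 2-Selmer group** -/
theorem not_selT (h3 : ∀ x : K, x ^ 3 ≠ 2) {δ : Cb K} {r : K} (hr : δ.N = r ^ 2) (hN : δ.N ≠ 0)
    (hsq : ¬ IsSquare δ)
    (hloc : ∀ v : HeightOneSpectrum (𝓞 K), LC (v.adicCompletion K)
      (AlgebraicClosure (v.adicCompletion K)) (Y702.G.sh W0) (zt δ (algebraMap K _)))
    (hinf : ∀ v : InfinitePlace K, LC v.Completion
      (AlgebraicClosure v.Completion) (Y702.G.sh W0) (zt δ (algebraMap K _))) :
    ¬ Pool.Agent.R425.G.SelT (Y702.G.sh W0) K := by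
  intro hS
  haveI : IsGalois K (AlgebraicClosure K) := by
    haveI : CharZero K := inferInstance
    infer_instance
  have hΔ : W0.Δ ≠ 0 := by rw [W0_Δ]; norm_num
  have hV := Pool.Agent.R425.G.iv_sh W0 hΔ
  obtain ⟨a, b, c, hC⟩ := Y355.G.V_roots hV.a1 hV.a3 hV.Δ (AlgebraicClosure K)
  obtain ⟨g, t, g1, g2, g3, g4, g5, g6⟩ := exists_cls (K := K) hC
    (zt δ (algebraMap K (AlgebraicClosure K)))
    (fun σ e he => zt_equi (σ := (σ : AlgebraicClosure K →+* AlgebraicClosure K)) δ
      (fun y => σ.commutes y) e)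
    (fun e he => zt_ne _ hN he) (r := r)
    (by rw [zt_norm hC, hr, map_pow])
  have hcoc : IsCoc (F := K) (Y702.G.sh W0) g := ⟨g1, g2⟩
  obtain ⟨T, hT, hT2⟩ := hS g hcoc g3
    (fun v => by
      haveI : IsGalois (v.adicCompletion K) (AlgebraicClosure (v.adicCompletion K)) := by
        haveI : CharZero (v.adicCompletion K) := algebraRat.charZero _
        infer_instance
      let ι : AlgebraicClosure K →ₐ[K] AlgebraicClosure (v.adicCompletion K) :=
        IsAlgClosed.lift
      refine core (K := K) (Y702.G.sh W0) hC g2 g3 g4 g6 ι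
        (ζ' := zt δ (algebraMap K (AlgebraicClosure (v.adicCompletion K)))) (fun e he => ?_) (hloc v)
      have h := zt_comp δ (algebraMap K (AlgebraicClosure K))
        (ι : AlgebraicClosure K →+* AlgebraicClosure (v.adicCompletion K)) e
      have h1 : (ι : AlgebraicClosure K →+* AlgebraicClosure (v.adicCompletion K)).comp
          (algebraMap K (AlgebraicClosure K)) = algebraMap K _ := RingHom.ext fun y => ι.commutes y
      rw [h1] at h
      exact h)
    (fun v => by
      haveI : IsGalois v.Completion (AlgebraicClosure v.Completion) := by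
        haveI : CharZero v.Completion := algebraRat.charZero _
        infer_instance
      let ι : AlgebraicClosure K →ₐ[K] AlgebraicClosure v.Completion :=
        IsAlgClosed.lift
      refine core (K := K) (Y702.G.sh W0) hC g2 g3 g4 g6 ι
        (ζ' := zt δ (algebraMap K (AlgebraicClosure v.Completion))) (fun e he => ?_) (hinf v)
      have h := zt_comp δ (algebraMap K (AlgebraicClosure K))
        (ι : AlgebraicClosure K →+* AlgebraicClosure v.Completion) e
      have h1 : (ι : AlgebraicClosure K →+* AlgebraicClosure v.Completion).comp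
          (algebraMap K (AlgebraicClosure K)) = algebraMap K _ := RingHom.ext fun y => ι.commutes y
      rw [h1] at h
      exact h)
  obtain ⟨t', ht1, ht2⟩ := sq_of_triv (K := K) hC g3 g4 g6 hT hT2
  obtain ⟨s, hs⟩ := mem_of_stab h3 hC.root_a (x := t' a) (fun σ hσ => by
    rw [ht2 σ a hC.root_a, hσ])
  apply hsq
  refine ⟨s, ?_⟩
  letI := Cb.fld h3
  have h7 : Cb.hom (AlgebraicClosure K) (algebraMap K _) (-(a / 2)) (root_two hC.root_a) δ =
      Cb.hom (AlgebraicClosure K) (algebraMap K _) (-(a / 2)) (root_two hC.root_a) (s ^ 2) := by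
    rw [← zt_hom _ _ hC.root_a, ← zt_hom _ _ hC.root_a, zt_pow _ _ hC.root_a, hs,
      ht1 a hC.root_a]
  have h8 := (Cb.hom (AlgebraicClosure K) (algebraMap K _) (-(a / 2))
    (root_two hC.root_a)).injective h7
  rw [h8, pow_two]

end main

end Pool.Agent.K7.H56.U
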