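import Pool.Agent.K7.H56.U.B
import Pool.Agent.R425.G.Cl3

/-!
# The local condition at the infinite places
-/

set_option autoImplicit false
set_option linter.all false

open NumberField IsDedekindDomain WithZero WeierstrassCurve WeierstrassCurve.Affine
open scoped NNReal Classical

namespace Pool.Agent.K7.H56.U

open Pool.Agent.TH115.GD
open Pool.Agent.Y696 (Cb)
open Pool.Agent.Y702.G (base pts)
open Pool.Agent.K7.H56.M (W0 W0_Δ)

section inf

variable {K : Type} [Field K]

theorem pos_real {x : Cb K} {r : K} (hr : x.N = r ^ 2) (hN : x.N ≠ 0) (f : K →+* ℂ)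
    (hf : ∀ y, starRingEnd ℂ (f y) = f y) {e : ℂ} (he : cub (Y702.G.sh W0) e = 0)
    (hce : starRingEnd ℂ e = e) : ∃ s : ℝ, zt x f e = (s : ℂ) ∧ 0 < s := by
  have hΔ : W0.Δ ≠ 0 := by rw [W0_Δ]; norm_num
  have hV := Pool.Agent.R425.G.iv_sh W0 hΔ
  obtain ⟨a, b, c, hC0⟩ := Y355.G.V_roots hV.a1 hV.a3 hV.Δ ℂ
  obtain ⟨e2, e3, hC⟩ := hC0.at_root (hC0.root he)
  have hroot : ∀ y : ℂ, cub (Y702.G.sh W0) y = 0 → cub (Y702.G.sh W0) (starRingEnd ℂ y) = 0 := by
    intro y hy
    rw [cub_W0] at hy ⊢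
    have h1 := congrArg (starRingEnd ℂ) hy
    simpa only [map_add, map_pow, map_ofNat, map_zero] using h1
  have h2r : starRingEnd ℂ e2 ≠ e2 := by
    intro h2
    obtain ⟨x1, hx1⟩ := Complex.conj_eq_iff_real.1 hce
    obtain ⟨x2, hx2⟩ := Complex.conj_eq_iff_real.1 h2
    apply hC.ab
    have g1 : e ^ 3 = e2 ^ 3 := by
      have h3 := hC.root_a
      have h4 := hC.root_b
      rw [cub_W0] at h3 h4
      linear_combination h3 - h4
    rw [hx1, hx2] at g1 ⊢
    have g2 : x1 ^ 3 = x2 ^ 3 := by exact_mod_cast g1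
    have g3 : x1 = x2 := (Odd.strictMono_pow (by decide : Odd 3)).injective g2
    rw [g3]
  have h23 : starRingEnd ℂ e2 = e3 := by
    rcases hC.root (hroot e2 hC.root_b) with h1 | h1 | h1
    · exfalso
      apply hC.ab
      have h2 := congrArg (starRingEnd ℂ) h1
      rw [Complex.conj_conj, hce] at h2
      exact h2.symm
    · exact absurd h1 h2r
    · exact h1
  have hnorm := zt_norm hC x f
  have hc1 : starRingEnd ℂ (zt x f e) = zt x f e := by
    rw [zt_equi x (σ := starRingEnd ℂ) hf, hce]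
  have hc3 : zt x f e3 = starRingEnd ℂ (zt x f e2) := by
    rw [zt_equi x (σ := starRingEnd ℂ) hf, h23]
  obtain ⟨s, hs⟩ := Complex.conj_eq_iff_real.1 hc1
  refine ⟨s, hs, ?_⟩
  rw [hs, hc3, mul_assoc, Complex.mul_conj, hr, map_pow] at hnorm
  obtain ⟨q, hq⟩ := Complex.conj_eq_iff_real.1 (hf r)
  rw [hq] at hnorm
  have h5 : s * Complex.normSq (zt x f e2) = q ^ 2 := by exact_mod_cast hnorm
  have h6 : 0 < q ^ 2 := by
    have : q ≠ 0 := by
      rintro rfl
      apply hN
      rw [hr]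
      have h7 : f r = 0 := by rw [hq]; simp
      rw [(map_eq_zero f).1 h7]
      ring
    positivity
  rw [← h5] at h6
  exact pos_of_mul_pos_left h6 (Complex.normSq_nonneg _)

theorem lc_cplx {L : Type} [Field L] [Algebra ℚ L] [IsAlgClosed L]
    (ζ : AlgebraicClosure L → AlgebraicClosure L) : LC L (AlgebraicClosure L) (Y702.G.sh W0) ζ := by
  refine lc1 fun e he => ?_
  obtain ⟨y, hy⟩ := IsAlgClosed.exists_pow_nat_eq (ζ e) (n := 2) (by norm_num)
  refine ⟨y, fun σ _ => ?_, hy.symm⟩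
  obtain ⟨x, rfl⟩ := (IsAlgClosed.algebraMap_bijective_of_isIntegral (k := L)
    (K := AlgebraicClosure L)).2 y
  exact σ.commutes x

theorem lc_real {x : Cb K} {r : K} (hr : x.N = r ^ 2) (hN : x.N ≠ 0) {L : Type} [Field L]
    [Algebra ℚ L] (κ : L ≃+* ℝ) (f : K →+* L) :
    LC L (AlgebraicClosure L) (Y702.G.sh W0) (zt x ((algebraMap L (AlgebraicClosure L)).comp f)) := by
  letI algC : Algebra L ℂ := (Complex.ofRealHom.comp (κ : L →+* ℝ)).toAlgebra
  letI algR : Algebra L ℝ := (κ : L →+* ℝ).toAlgebra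
  haveI : IsScalarTower L ℝ ℂ := IsScalarTower.of_algebraMap_eq fun x => rfl
  haveI : Algebra.IsAlgebraic L ℝ := by
    refine ⟨fun x => ?_⟩
    have h : x = algebraMap L ℝ (κ.symm x) := (κ.apply_symm_apply x).symm
    rw [h]
    exact isAlgebraic_algebraMap _
  haveI : Algebra.IsAlgebraic ℝ ℂ := Algebra.IsAlgebraic.of_finite ℝ ℂ
  haveI : Algebra.IsAlgebraic L ℂ := Algebra.IsAlgebraic.trans L ℝ ℂ
  haveI : IsAlgClosure L ℂ := ⟨inferInstance, inferInstance⟩
  let φ : AlgebraicClosure L ≃ₐ[L] ℂ := IsAlgClosure.equiv L (AlgebraicClosure L) ℂ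
  have hφL : ∀ x : L, φ (algebraMap L _ x) = ((κ x : ℝ) : ℂ) := fun x => φ.commutes x
  have haut : ∀ σ : AlgebraicClosure L ≃ₐ[L] AlgebraicClosure L,
      (∀ x, φ (σ x) = φ x) ∨ ∀ x, φ (σ x) = starRingEnd ℂ (φ x) := by
    intro σ
    let f : ℂ →ₐ[ℝ] ℂ := AlgHom.mk' ((φ.symm.trans (σ.trans φ) : ℂ ≃ₐ[L] ℂ) : ℂ →+* ℂ) (by
      intro r x
      show φ (σ (φ.symm (r • x))) = r • φ (σ (φ.symm x))
      have h1 : r • x = φ (algebraMap L _ (κ.symm r)) * x := by
        rw [hφL, κ.apply_symm_apply, Complex.real_smul]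
      rw [h1]
      have h2 : φ.symm (φ (algebraMap L _ (κ.symm r)) * x) =
          algebraMap L _ (κ.symm r) * φ.symm x := by
        rw [map_mul, φ.symm_apply_apply]
      rw [h2, map_mul, σ.commutes, map_mul, hφL, κ.apply_symm_apply, Complex.real_smul])
    have hf : ∀ x, f (φ x) = φ (σ x) := by
      intro x
      show φ (σ (φ.symm (φ x))) = _
      rw [φ.symm_apply_apply]
    rcases Complex.real_algHom_eq_id_or_conj f with h | h
    · left
      intro x
      rw [← hf, h]
      rfl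
    · right
      intro x
      rw [← hf, h]
      rfl
  refine lc1 fun e he => ?_
  by_cases hre : starRingEnd ℂ (φ e) = φ e
  · have he' : cub (Y702.G.sh W0) (φ e) = 0 := by
      rw [cub_W0] at he ⊢
      have h1 := congrArg φ he
      simpa only [map_add, map_pow, map_ofNat, map_zero] using h1
    obtain ⟨s, hs, hs0⟩ := pos_real hr hN
      (((φ : AlgebraicClosure L →+* ℂ)).comp ((algebraMap L (AlgebraicClosure L)).comp f))
      (fun y => by
        show starRingEnd ℂ (φ (algebraMap L _ (f y))) = φ (algebraMap L _ (f y))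
        rw [hφL, Complex.conj_ofReal]) he' hre
    refine ⟨φ.symm ((√s : ℝ) : ℂ), fun σ _ => ?_, ?_⟩
    · apply φ.injective
      rcases haut σ with h | h
      · rw [h]
      · rw [h, φ.apply_symm_apply, Complex.conj_ofReal]
    · apply φ.injective
      rw [map_pow, φ.apply_symm_apply]
      have h3 : φ (zt x ((algebraMap L (AlgebraicClosure L)).comp f) e) =
          zt x (((φ : AlgebraicClosure L →+* ℂ)).comp ((algebraMap L (AlgebraicClosure L)).comp f))
            (φ e) := zt_comp x _ (φ : AlgebraicClosure L →+* ℂ) e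
      rw [h3, hs, ← Complex.ofReal_pow, Real.sq_sqrt hs0.le]
  · obtain ⟨y, hy⟩ := IsAlgClosed.exists_pow_nat_eq
      (zt x ((algebraMap L (AlgebraicClosure L)).comp f) e) (n := 2) (by norm_num)
    refine ⟨y, fun σ hσ => ?_, hy.symm⟩
    apply φ.injective
    rcases haut σ with h | h
    · exact h y
    · exfalso
      apply hre
      rw [← h, hσ]

theorem lc_inf [NumberField K] {x : Cb K} {r : K} (hr : x.N = r ^ 2) (hN : x.N ≠ 0)
    (v : InfinitePlace K) :
    LC v.Completion (AlgebraicClosure v.Completion) (Y702.G.sh W0) (zt x (algebraMap K _)) := by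
  rcases v.isReal_or_isComplex with hv | hv
  · exact lc_conv _ _ _ _ _ _
      (lc_real hr hN (InfinitePlace.Completion.ringEquivRealOfIsReal hv)
        (algebraMap K v.Completion))
  · haveI : IsAlgClosed v.Completion :=
      IsAlgClosed.of_ringEquiv _ _ (InfinitePlace.Completion.ringEquivComplexOfIsComplex hv).symm
    exact lc_conv _ _ _ _ _ _ (lc_cplx _)

end inf

end Pool.Agent.K7.H56.U
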