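import Pool.Agent.K7.H56.U.C
import Pool.Agent.R425.G.Cl2

/-!
# The local condition at the places of good reduction
-/

set_option autoImplicit false
set_option linter.all false

open NumberField IsDedekindDomain WithZero WeierstrassCurve WeierstrassCurve.Affine
open scoped NNReal Classical

namespace Pool.Agent.K7.H56.U

open Pool.Agent.TH115.GD
open Pool.Agent.Y696 (Cb)
open Pool.Agent.Y702.G (base pts)
open Pool.Agent.K7.H56.M (W0 W0_Δ)
open Pool.Agent.R425 (lz exists_data)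
open Pool.Agent.R425.G (w_sub_one w_rt u_int)

section good

variable {K : Type} [Field K]

theorem lc_lz {O : Type} [CommRing O] (P : Ideal O)
    [hP : P.IsMaximal] [hfin : Finite (O ⧸ P)]
    {L Ω' : Type} [Field L] [Field Ω'] [Algebra L Ω'] [IsAlgClosed Ω'] [IsGalois L Ω']
    [Algebra ℚ L] [Algebra ℚ Ω'] [IsScalarTower ℚ L Ω']
    (j : O →+* L) (w : Valuation Ω' ℝ≥0)
    (hσ : ∀ (σ : Ω' ≃ₐ[L] Ω') (x : Ω'), w (σ x) = w x)
    (hj : ∀ a, w (algebraMap L Ω' (j a)) ≤ 1) (hjP : ∀ a, w (algebraMap L Ω' (j a)) < 1 ↔ a ∈ P)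
    (happ : ∀ x : L, w (algebraMap L Ω' x) ≤ 1 →
      ∃ a : O, w (algebraMap L Ω' x - algebraMap L Ω' (j a)) < 1)
    (h2 : w 2 = 1) (h3 : w 3 = 1) {x : Cb K} {r : K} (f : K →+* L)
    (hr : x.N = r ^ 2)
    (hev : ∀ e : Ω', cub (Y702.G.sh W0) e = 0 → ∃ s : L, s ≠ 0 ∧
      w (zt x ((algebraMap L Ω').comp f) e) = w (algebraMap L Ω' s) ^ 2) :
    LC L Ω' (Y702.G.sh W0) (zt x ((algebraMap L Ω').comp f)) := by
  haveI : CharZero Ω' := algebraRat.charZero Ω'
  have hΔ : W0.Δ ≠ 0 := by rw [W0_Δ]; norm_num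
  have hV := Pool.Agent.R425.G.iv_sh W0 hΔ
  obtain ⟨e1, e2, e3, hC⟩ := Y355.G.V_roots hV.a1 hV.a3 hV.Δ Ω'
  have hΔw : w (256 * ((W0.Δ : ℤ) : Ω')) = 1 := by
    have e : (256 : Ω') = 2 ^ 8 := by norm_num
    have e' : ((W0.Δ : ℤ) : Ω') = - 3 ^ 3 := by
      rw [W0_Δ]
      norm_num
    rw [e', e, map_mul, Valuation.map_neg, map_pow, map_pow, h2, h3, one_pow, one_pow, one_mul]
  obtain ⟨d12, d13, d23⟩ := w_sub_one w hC hΔw
  have main := lz P j w hσ hj hjP happ Pool.Agent.Y500.G.s_fl h2 (V := Y702.G.sh W0) (a := 0)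
    (b := 0) (c := 16)
    (fun {F} _ _ x => by rw [cub_W0]; push_cast; ring)
    (fun {F} _ _ x => by rw [cub'_W0]; push_cast; ring)
    (e1 := e1) (e2 := e2) (e3 := e3) hC.cub_eq (w_rt w hC.root_a) (w_rt w hC.root_b)
    (w_rt w hC.root_c) d12 d13 d23 (zt x ((algebraMap L Ω').comp f))
    (fun σ e he => zt_equi x (σ := (σ : Ω' →+* Ω')) (fun y => σ.commutes (f y)) e)
    hev (f r)
    (by
      show zt x _ e1 * zt x _ e2 * zt x _ e3 = _
      rw [zt_norm hC, hr, map_pow]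
      rfl)
  rcases main with hA | ⟨X, Y, hXY, hB⟩
  · exact lc1 fun e he => hA e he
  · exact lc2 hV.a1 hV.a3 hV.Δ hXY fun e he => hB e he

theorem lc_good [NumberField K] {x : Cb K} {r : K} (hr : x.N = r ^ 2)
    (v : HeightOneSpectrum (𝓞 K)) (hv2 : ((2 : ℕ) : 𝓞 K) ∉ v.asIdeal)
    (hv3 : ((3 : ℕ) : 𝓞 K) ∉ v.asIdeal)
    (hev : ∀ w : Valuation (AlgebraicClosure (v.adicCompletion K)) ℝ≥0,
      (∀ x y : v.adicCompletion K, w (algebraMap (v.adicCompletion K) _ x) ≤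
        w (algebraMap (v.adicCompletion K) _ y) ↔ Valued.v x ≤ Valued.v y) →
      ∀ ρ : AlgebraicClosure (v.adicCompletion K), ρ ^ 3 = 2 →
        ∃ s : v.adicCompletion K, s ≠ 0 ∧
        w (Cb.ev (Cb.map (algebraMap K _) x) ρ) = w (algebraMap _ _ s) ^ 2) :
    LC (v.adicCompletion K) (AlgebraicClosure (v.adicCompletion K)) (Y702.G.sh W0)
      (zt x (algebraMap K _)) := by
  haveI : CharZero (v.adicCompletion K) := algebraRat.charZero _
  haveI : IsGalois (v.adicCompletion K) (AlgebraicClosure (v.adicCompletion K)) := inferInstance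
  haveI : CharZero (AlgebraicClosure (v.adicCompletion K)) := algebraRat.charZero _
  obtain ⟨w, hw1, hw2, hw3, hw4, hw5⟩ := exists_data v
  have hone : ∀ m : ℕ, ((m : ℕ) : 𝓞 K) ∉ v.asIdeal →
      w ((m : ℕ) : AlgebraicClosure (v.adicCompletion K)) = 1 := by
    intro m hm
    have h5 := hw3 (m : 𝓞 K)
    have h6 := (hw4 (m : 𝓞 K)).not.2 hm
    simp only [map_natCast] at h5 h6
    exact le_antisymm h5 (not_lt.1 h6)
  have h2 : w (2 : AlgebraicClosure (v.adicCompletion K)) = 1 := by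
    have := hone 2 hv2
    exact_mod_cast this
  have h3 : w (3 : AlgebraicClosure (v.adicCompletion K)) = 1 := by
    have := hone 3 hv3
    exact_mod_cast this
  haveI : v.asIdeal.IsMaximal := v.isMaximal
  haveI : Finite (𝓞 K ⧸ v.asIdeal) := Ring.HasFiniteQuotients.finiteQuotient v.ne_bot
  let j : 𝓞 K →+* (v.adicCompletion K) :=
    (algebraMap K (v.adicCompletion K)).comp (algebraMap (𝓞 K) K)
  refine lc_conv _ _ _ _ _ _ (lc_lz v.asIdeal j w hw1 hw3 hw4 hw5 h2 h3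
    (algebraMap K (v.adicCompletion K)) hr fun e he => ?_)
  exact hev w hw2 (-(e / 2)) (root_two he)

end good

end Pool.Agent.K7.H56.U
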