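import Pool.Agent.K7.H56.U.D

/-!
# The local condition at the places above three
-/

set_option autoImplicit false
set_option linter.all false

open NumberField IsDedekindDomain WithZero WeierstrassCurve WeierstrassCurve.Affine
open scoped NNReal Classical

namespace Pool.Agent.K7.H56.U

open Pool.Agent.TH115.GD
open Pool.Agent.Y696 (Cb)
open Pool.Agent.Y702.G (base pts)
open Pool.Agent.K7.H56.M (W0 W0_Δ)
open Pool.Agent.R425 (lz exists_data)
open Pool.Agent.R425.G (w_sub_one w_rt u_int)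

section sq

variable {L Ω' : Type} [Field L] [Field Ω'] [Algebra L Ω'] [IsAlgClosed Ω'] [IsGalois L Ω']
  [Algebra ℚ L] [Algebra ℚ Ω'] [IsScalarTower ℚ L Ω'] {V : WeierstrassCurve ℚ}
  (w : Valuation Ω' ℝ≥0) (hσ : ∀ (σ : Ω' ≃ₐ[L] Ω') (x : Ω'), w (σ x) = w x)

/-- the canonical square root of a principal unit -/
theorem sq_unit (h2 : w 2 = 1) {u : Ω'} (hu : w (u - 1) < 1) : ∃ y, y ^ 2 = u ∧ w (y - 1) < 1 := by
  obtain ⟨y, hy⟩ := IsAlgClosed.exists_pow_nat_eq u (n := 2) (by norm_num)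
  have h1 : (y - 1) * (y + 1) = u - 1 := by rw [← hy]; ring
  have h3 : w (y - 1) * w (y + 1) < 1 := by rw [← map_mul, h1]; exact hu
  by_cases h : w (y - 1) < 1
  · exact ⟨y, hy, h⟩
  · refine ⟨-y, by rw [neg_sq, hy], ?_⟩
    rw [not_lt] at h
    have h4 : w (y + 1) < 1 := by
      by_contra h5
      rw [not_lt] at h5
      exact absurd h3 (not_lt.2 (one_le_mul h h5))
    have : -y - 1 = -(y + 1) := by ring
    rw [this, Valuation.map_neg]
    exact h4

theorem sq_unit_uniq (h2 : w 2 = 1) {y y' : Ω'} (h : y ^ 2 = y' ^ 2) (hy : w (y - 1) < 1)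
    (hy' : w (y' - 1) < 1) : y = y' := by
  rcases sq_eq_sq_iff_eq_or_eq_neg.1 h with h1 | h1
  · exact h1
  · exfalso
    have h3 : (2 : Ω') = -((y - 1) + (y' - 1)) := by rw [h1]; ring
    have h4 : w (2 : Ω') < 1 := by
      rw [h3, Valuation.map_neg]
      exact Valuation.map_add_lt _ hy hy'
    rw [h2] at h4
    exact lt_irrefl _ h4

include hσ in
theorem lc_unit (h2 : w 2 = 1) {a b c : Ω'} (hC : IsC (V.baseChange Ω').toAffine a b c)
    {ζ p u : Ω' → Ω'} {D r : L} (hr : ζ a * ζ b * ζ c = algebraMap L Ω' r ^ 2)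
    (h0 : ∀ e, cub V e = 0 → ζ e ≠ 0)
    (hp : ∀ (σ : Ω' ≃ₐ[L] Ω') e, cub V e = 0 → σ (p e) = p (σ e))
    (hu : ∀ (σ : Ω' ≃ₐ[L] Ω') e, cub V e = 0 → σ (u e) = u (σ e))
    (hu1 : ∀ e, cub V e = 0 → w (u e - 1) < 1)
    (hζ : ∀ e, cub V e = 0 → ζ e = algebraMap L Ω' D * p e ^ 2 * u e) : LC L Ω' V ζ := by
  have ex : ∀ e : Ω', ∃ y : Ω', cub V e = 0 → y ^ 2 = u e ∧ w (y - 1) < 1 := by
    intro e
    by_cases he : cub V e = 0
    · obtain ⟨y, hy⟩ := sq_unit w h2 (hu1 e he)
      exact ⟨y, fun _ => hy⟩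
    · exact ⟨0, fun h => absurd h he⟩
  choose y hy using ex
  have hyσ : ∀ (σ : Ω' ≃ₐ[L] Ω') e, cub V e = 0 → σ (y e) = y (σ e) := by
    intro σ e he
    have he' := root_act σ he
    refine sq_unit_uniq w h2 ?_ ?_ (hy _ he').2
    · rw [← map_pow, (hy _ he).1, hu σ e he, (hy _ he').1]
    · have : σ (y e) - 1 = σ (y e - 1) := by rw [map_sub, map_one]
      rw [this, hσ]
      exact (hy _ he).2
  set s : Ω' → Ω' := fun e => p e * y e with hs
  have hsσ : ∀ (σ : Ω' ≃ₐ[L] Ω') e, cub V e = 0 → σ (s e) = s (σ e) := by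
    intro σ e he
    simp only [hs]
    rw [map_mul, hp σ e he, hyσ σ e he]
  have hζs : ∀ e, cub V e = 0 → ζ e = algebraMap L Ω' D * s e ^ 2 := by
    intro e he
    simp only [hs]
    rw [hζ e he, mul_pow, (hy e he).1]
    ring
  set Y := s a * s b * s c with hY
  have hYσ : ∀ σ : Ω' ≃ₐ[L] Ω', σ Y = Y := by
    intro σ
    rw [hY, map_mul, map_mul, hsσ σ a hC.root_a, hsσ σ b hC.root_b, hsσ σ c hC.root_c]
    exact prod_perm hC σ s
  have hne : ∀ e, cub V e = 0 → s e ≠ 0 ∧ algebraMap L Ω' D ≠ 0 := by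
    intro e he
    have h := h0 e he
    rw [hζs e he] at h
    exact ⟨fun h1 => h (by rw [h1]; ring), fun h1 => h (by rw [h1]; ring)⟩
  have hD := (hne a hC.root_a).2
  have hY0 : Y ≠ 0 := mul_ne_zero (mul_ne_zero (hne a hC.root_a).1 (hne b hC.root_b).1)
    (hne c hC.root_c).1
  rw [hζs a hC.root_a, hζs b hC.root_b, hζs c hC.root_c] at hr
  have hr' : algebraMap L Ω' D ^ 3 * Y ^ 2 = algebraMap L Ω' r ^ 2 := by
    rw [← hr, hY]
    ring
  set q := algebraMap L Ω' r / (algebraMap L Ω' D * Y) with hq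
  have hq2 : q ^ 2 = algebraMap L Ω' D := by
    rw [hq, div_pow, ← hr']
    field_simp
  refine lc1 fun e he => ⟨q * s e, fun σ hσe => ?_, ?_⟩
  · have h1 : σ q = q := by
      rw [hq, map_div₀, map_mul, hYσ, AlgEquiv.commutes, AlgEquiv.commutes]
    rw [map_mul, h1, hsσ σ e he, hσe]
  · rw [mul_pow, hq2, hζs e he]

end sq

section three

variable {K : Type} [Field K]

theorem lc_three0 {L Ω' : Type} [Field L] [Field Ω'] [Algebra L Ω'] [IsAlgClosed Ω']
    [IsGalois L Ω'] [Algebra ℚ L] [Algebra ℚ Ω'] [IsScalarTower ℚ L Ω'] (w : Valuation Ω' ℝ≥0)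
    (hσ : ∀ (σ : Ω' ≃ₐ[L] Ω') (x : Ω'), w (σ x) = w x) (h2 : w 2 = 1) (h3 : w 3 < 1)
    (hc : ∀ s : L, w (algebraMap L Ω' s) ^ 3 ≠ w 3) {x : Cb K} {r : K} (f : K →+* L)
    (hr : x.N = r ^ 2) (hN : x.N ≠ 0) :
    LC L Ω' (Y702.G.sh W0) (zt x ((algebraMap L Ω').comp f)) := by
  haveI : CharZero Ω' := algebraRat.charZero Ω'
  have hΔ : W0.Δ ≠ 0 := by rw [W0_Δ]; norm_num
  have hV := Pool.Agent.R425.G.iv_sh W0 hΔ
  obtain ⟨e1, e2, e3, hC⟩ := Y355.G.V_roots hV.a1 hV.a3 hV.Δ Ω'
  have hnorm := zt_norm hC x ((algebraMap L Ω').comp f)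
  have hr' : zt x ((algebraMap L Ω').comp f) e1 * zt x ((algebraMap L Ω').comp f) e2 *
      zt x ((algebraMap L Ω').comp f) e3 = algebraMap L Ω' (f r) ^ 2 := by
    rw [hnorm, hr, map_pow]
    rfl
  -- the uniformizer
  set pp : Ω' → Ω' := fun e => 1 + -(e / 2) with hpp
  have hpσ : ∀ (σ : Ω' ≃ₐ[L] Ω') e, σ (pp e) = pp (σ e) := by
    intro σ e
    simp only [hpp]
    simp only [map_add, map_neg, map_div₀, map_ofNat, map_one]
  have hpe : ∀ e, cub (Y702.G.sh W0) e = 0 → pp e ^ 3 * (pp e - 2) = 3 := by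
    intro e he
    have h := root_two he
    simp only [hpp]
    set ρ := -(e / 2)
    linear_combination (ρ + 2) * h
  have hρ1 : ∀ e, cub (Y702.G.sh W0) e = 0 → w (-(e / 2)) = 1 := by
    intro e he
    have h := congrArg w (root_two he)
    rw [map_pow, h2] at h
    exact (pow_eq_one_iff_of_nonneg zero_le (by norm_num)).1 h
  have h1le : ∀ e, cub (Y702.G.sh W0) e = 0 → w (pp e - 2) ≤ 1 := by
    intro e he
    have : pp e - 2 = -(e / 2) + -1 := by simp only [hpp]; ring
    rw [this]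
    exact (Valuation.map_add _ _ _).trans (max_le (hρ1 e he).le (by
      rw [Valuation.map_neg, map_one]))
  have h1e : ∀ e, cub (Y702.G.sh W0) e = 0 → w (pp e - 2) = 1 := by
    intro e he
    have h := root_two he
    have h4 : (pp e - 2) * ((-(e / 2)) ^ 2 + -(e / 2) + 1) = 1 := by
      simp only [hpp]
      set ρ := -(e / 2)
      linear_combination h
    have h5 : w ((-(e / 2)) ^ 2 + -(e / 2) + 1) ≤ 1 := by
      refine Valuation.map_add_le _ (Valuation.map_add_le _ ?_ (hρ1 e he).le) (map_one _).le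
      rw [map_pow, hρ1 e he, one_pow]
    have h6 := congrArg w h4
    rw [map_mul, map_one] at h6
    exact Pool.Agent.R425.G.one_of_mul (h1le e he) h5 h6
  have hp3 : ∀ e, cub (Y702.G.sh W0) e = 0 → w (pp e) ^ 3 = w 3 := by
    intro e he
    rw [← hpe e he, map_mul, h1e e he, mul_one, map_pow]
  set g := w (pp e1) with hg
  have hgall : ∀ e, cub (Y702.G.sh W0) e = 0 → w (pp e) = g := by
    intro e he
    have h := (hp3 e he).trans (hp3 e1 hC.root_a).symm
    exact (pow_left_inj₀ zero_le zero_le (by norm_num)).1 h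
  have hg3 : g ^ 3 = w 3 := hp3 e1 hC.root_a
  have h30 : w (3 : Ω') ≠ 0 := (Valuation.ne_zero_iff _).2 (by norm_num)
  have hg0 : g ≠ 0 := by
    intro h
    rw [h, zero_pow (by norm_num)] at hg3
    exact h30 hg3.symm
  have hg1 : g < 1 := by
    by_contra h
    rw [not_lt] at h
    rw [← hg3] at h3
    exact absurd h3 (not_lt.2 (one_le_pow₀ h))
  have hgpos : 0 < g := pos_iff_ne_zero.2 hg0
  -- the coefficients
  set A : L := f (x.a - x.b + x.c) with hA
  set B : L := f (x.b - 2 * x.c) with hB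
  set C : L := f x.c with hCC
  set W : L → ℝ≥0 := fun y => w (algebraMap L Ω' y) with hW
  have hW0 : ∀ y, W y = 0 ↔ y = 0 := by
    intro y
    simp only [hW]
    rw [Valuation.zero_iff, map_eq_zero]
  have hWd : ∀ y z, W (y / z) = W y / W z := by
    intro y z
    simp only [hW]
    rw [map_div₀, map_div₀]
  have hWm : ∀ y z, W (y * z) = W y * W z := by
    intro y z
    simp only [hW]
    rw [map_mul, map_mul]
  have hW3 : W 3 = w 3 := by
    simp only [hW]
    rw [map_ofNat]
  have t1 : ∀ y z : L, W y = W z * g → y = 0 ∧ z = 0 := by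
    intro y z h
    by_cases hz : z = 0
    · subst hz
      rw [(hW0 0).2 rfl, zero_mul] at h
      exact ⟨(hW0 y).1 h, rfl⟩
    · exfalso
      apply hc (y / z)
      have h4 : W (y / z) = g := by
        rw [hWd, h]
        field_simp [(hW0 z).not.2 hz]
      show W (y / z) ^ 3 = w 3
      rw [h4, hg3]
  have t2 : ∀ y z : L, W y = W z * g ^ 2 → y = 0 ∧ z = 0 := by
    intro y z h
    by_cases hz : z = 0
    · subst hz
      rw [(hW0 0).2 rfl, zero_mul] at h
      exact ⟨(hW0 y).1 h, rfl⟩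
    · have hWz := (hW0 z).not.2 hz
      have hy : y ≠ 0 := by
        rintro rfl
        rw [(hW0 0).2 rfl] at h
        exact mul_ne_zero hWz (pow_ne_zero 2 hg0) h.symm
      have hWy := (hW0 y).not.2 hy
      exfalso
      apply hc (3 * z / y)
      have h4 : W (3 * z / y) = g := by
        rw [hWd, hWm, hW3, ← hg3, h]
        field_simp
      show W (3 * z / y) ^ 3 = w 3
      rw [h4, hg3]
  have nz : ¬ (A = 0 ∧ B = 0 ∧ C = 0) := by
    rintro ⟨ha, hb, hcc⟩
    rw [hA, map_eq_zero] at ha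
    rw [hB, map_eq_zero] at hb
    rw [hCC, map_eq_zero] at hcc
    rw [hcc] at ha hb
    apply hN
    unfold Cb.N
    have h5 : x.b = 0 := by linear_combination hb
    rw [h5] at ha
    have h6 : x.a = 0 := by linear_combination ha
    rw [h5, h6, hcc]
    ring
  set ζ := zt x ((algebraMap L Ω').comp f) with hζ
  have hζe : ∀ e, ζ e = algebraMap L Ω' A + algebraMap L Ω' B * pp e +
      algebraMap L Ω' C * pp e ^ 2 := by
    intro e
    simp only [hζ, zt, hA, hB, hCC, hpp, RingHom.comp_apply, map_add, map_sub, map_mul, map_ofNat]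
    ring
  have hζ0 : ∀ e, cub (Y702.G.sh W0) e = 0 → ζ e ≠ 0 := fun e he => zt_ne _ hN he
  have hW' : ∀ y, w (algebraMap L Ω' y) = W y := fun y => rfl
  -- the case of the first and the third term
  have caseI : W B * g < W A → W C * g ^ 2 < W A → LC L Ω' (Y702.G.sh W0) ζ := by
    intro hBA hCA
    have hA0 : A ≠ 0 := by
      intro h
      rw [(hW0 A).2 h] at hBA
      exact absurd hBA not_lt_zero
    have hA1 : algebraMap L Ω' A ≠ 0 := (map_ne_zero _).2 hA0
    refine lc_unit w hσ h2 hC (D := A) (r := f r) (p := fun _ => 1)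
      (u := fun e => (algebraMap L Ω' A)⁻¹ * ζ e) hr' hζ0 (fun σ e _ => map_one σ)
      (fun σ e he => ?_) (fun e he => ?_) (fun e he => ?_)
    · rw [map_mul, map_inv₀, AlgEquiv.commutes]
      congr 1
      exact zt_equi x (σ := (σ : Ω' →+* Ω')) (fun y => σ.commutes (f y)) e
    · have h5 : (algebraMap L Ω' A)⁻¹ * ζ e - 1 = (algebraMap L Ω' A)⁻¹ *
          (algebraMap L Ω' B * pp e + algebraMap L Ω' C * pp e ^ 2) := by
        rw [hζe e]
        field_simp
        ring
      rw [h5, map_mul, map_inv₀]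
      have h6 : w (algebraMap L Ω' B * pp e + algebraMap L Ω' C * pp e ^ 2) < W A := by
        refine Valuation.map_add_lt _ ?_ ?_
        · rw [map_mul, hgall e he]; exact hBA
        · rw [map_mul, map_pow, hgall e he]; exact hCA
      rw [hW', inv_mul_lt_iff₀ (pos_iff_ne_zero.2 ((hW0 A).not.2 hA0)), mul_one]
      exact h6
    · rw [one_pow, mul_one, mul_inv_cancel_left₀ hA1]
  have caseIII : W A < W C * g ^ 2 → W B * g < W C * g ^ 2 → LC L Ω' (Y702.G.sh W0) ζ := by
    intro hAC hBC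
    have hC0 : C ≠ 0 := by
      intro h
      rw [(hW0 C).2 h, zero_mul] at hAC
      exact absurd hAC not_lt_zero
    have hC1 : algebraMap L Ω' C ≠ 0 := (map_ne_zero _).2 hC0
    have hpp0 : ∀ e, cub (Y702.G.sh W0) e = 0 → pp e ≠ 0 := by
      intro e he h
      apply hg0
      rw [← hgall e he, h, map_zero]
    refine lc_unit w hσ h2 hC (D := C) (r := f r) (p := pp)
      (u := fun e => (algebraMap L Ω' C * pp e ^ 2)⁻¹ * ζ e) hr' hζ0 (fun σ e _ => hpσ σ e)
      (fun σ e he => ?_) (fun e he => ?_) (fun e he => ?_)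
    · rw [map_mul, map_inv₀, map_mul, map_pow, hpσ, AlgEquiv.commutes]
      congr 1
      exact zt_equi x (σ := (σ : Ω' →+* Ω')) (fun y => σ.commutes (f y)) e
    · have h7 := hpp0 e he
      have h5 : (algebraMap L Ω' C * pp e ^ 2)⁻¹ * ζ e - 1 = (algebraMap L Ω' C * pp e ^ 2)⁻¹ *
          (algebraMap L Ω' A + algebraMap L Ω' B * pp e) := by
        rw [hζe e]
        field_simp
        ring
      rw [h5, map_mul, map_inv₀, map_mul, map_pow, hgall e he]
      have h6 : w (algebraMap L Ω' A + algebraMap L Ω' B * pp e) < W C * g ^ 2 := by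
        refine Valuation.map_add_lt _ hAC ?_
        · rw [map_mul, hgall e he]; exact hBC
      rw [hW', inv_mul_lt_iff₀ (pos_iff_ne_zero.2 (mul_ne_zero ((hW0 C).not.2 hC0)
        (pow_ne_zero 2 hg0))), mul_one]
      exact h6
    · have h7 := hpp0 e he
      rw [mul_inv_cancel_left₀ (mul_ne_zero hC1 (pow_ne_zero 2 h7))]
  have caseII : W A < W B * g → W C * g ^ 2 < W B * g → LC L Ω' (Y702.G.sh W0) ζ := by
    intro hAB hCB
    have hB0 : B ≠ 0 := by
      intro h
      rw [(hW0 B).2 h, zero_mul] at hAB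
      exact absurd hAB not_lt_zero
    have hB1 : algebraMap L Ω' B ≠ 0 := (map_ne_zero _).2 hB0
    have hpp0 : ∀ e, cub (Y702.G.sh W0) e = 0 → pp e ≠ 0 := by
      intro e he h
      apply hg0
      rw [← hgall e he, h, map_zero]
    have hq0 : ∀ e, cub (Y702.G.sh W0) e = 0 → pp e - 2 ≠ 0 := by
      intro e he h
      have h5 := h1e e he
      rw [h, map_zero] at h5
      exact zero_ne_one h5
    refine lc_unit w hσ h2 hC (D := 3 * B) (r := f r) (p := fun e => (pp e)⁻¹)
      (u := fun e => (algebraMap L Ω' B * pp e)⁻¹ * ζ e * (pp e - 2)⁻¹) hr' hζ0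
      (fun σ e _ => by rw [map_inv₀, hpσ])
      (fun σ e he => ?_) (fun e he => ?_) (fun e he => ?_)
    · rw [map_mul, map_mul, map_inv₀, map_mul, map_inv₀, map_sub, map_ofNat, hpσ,
        AlgEquiv.commutes]
      congr 2
      exact zt_equi x (σ := (σ : Ω' →+* Ω')) (fun y => σ.commutes (f y)) e
    · have h7 := hpp0 e he
      have h8 := hq0 e he
      have h5 : (algebraMap L Ω' B * pp e)⁻¹ * ζ e * (pp e - 2)⁻¹ - 1 =
          ((algebraMap L Ω' B * pp e)⁻¹ *
          (algebraMap L Ω' A + algebraMap L Ω' C * pp e ^ 2) - (pp e - 3)) * (pp e - 2)⁻¹ := by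
        rw [hζe e]
        field_simp
        ring
      rw [h5, map_mul, map_inv₀, h1e e he, _root_.inv_one, mul_one]
      refine lt_of_le_of_lt (Valuation.map_sub _ _ _) (max_lt ?_ ?_)
      · rw [map_mul, map_inv₀, map_mul, hgall e he]
        have h6 : w (algebraMap L Ω' A + algebraMap L Ω' C * pp e ^ 2) < W B * g := by
          refine Valuation.map_add_lt _ hAB ?_
          · rw [map_mul, map_pow, hgall e he]; exact hCB
        rw [hW', inv_mul_lt_iff₀ (pos_iff_ne_zero.2 (mul_ne_zero ((hW0 B).not.2 hB0)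
          hg0)), mul_one]
        exact h6
      · refine lt_of_le_of_lt (Valuation.map_sub _ _ _) (max_lt ?_ h3)
        rw [hgall e he]
        exact hg1
    · have h7 := hpp0 e he
      have h8 := hq0 e he
      have h9 := hpe e he
      rw [map_mul, map_ofNat, ← h9]
      field_simp
  -- the dominant term
  rcases le_total (W A) (W B * g) with h12 | h12
  · rcases le_total (W B * g) (W C * g ^ 2) with h23 | h23
    · have h4 : W B * g ≠ W C * g ^ 2 := by
        intro h
        have h5 : W B = W C * g := by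
          have h6 : W B * g = (W C * g) * g := by rw [h]; ring
          exact mul_right_cancel₀ hg0 h6
        obtain ⟨h6, h7⟩ := t1 _ _ h5
        rw [(hW0 B).2 h6, zero_mul, le_zero_iff] at h12
        exact nz ⟨(hW0 A).1 h12, h6, h7⟩
      have h5 := lt_of_le_of_ne h23 h4
      exact caseIII (lt_of_le_of_lt h12 h5) h5
    · have h4 : W C * g ^ 2 ≠ W B * g := by
        intro h
        have h5 : W B = W C * g := by
          have h6 : W B * g = (W C * g) * g := by rw [← h]; ring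
          exact mul_right_cancel₀ hg0 h6
        obtain ⟨h6, h7⟩ := t1 _ _ h5
        rw [(hW0 B).2 h6, zero_mul, le_zero_iff] at h12
        exact nz ⟨(hW0 A).1 h12, h6, h7⟩
      have h5 : W A ≠ W B * g := by
        intro h
        obtain ⟨h6, h7⟩ := t1 _ _ h
        rw [(hW0 B).2 h7, zero_mul, le_zero_iff, mul_eq_zero] at h23
        exact nz ⟨h6, h7, (hW0 C).1 (h23.resolve_right (pow_ne_zero 2 hg0))⟩
      exact caseII (lt_of_le_of_ne h12 h5) (lt_of_le_of_ne h23 h4)
  · rcases le_total (W A) (W C * g ^ 2) with h13 | h13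
    · have h4 : W A ≠ W C * g ^ 2 := by
        intro h
        obtain ⟨h6, h7⟩ := t2 _ _ h
        rw [(hW0 A).2 h6, le_zero_iff, mul_eq_zero] at h12
        exact nz ⟨h6, (hW0 B).1 (h12.resolve_right hg0), h7⟩
      have h5 := lt_of_le_of_ne h13 h4
      exact caseIII h5 (lt_of_le_of_lt h12 h5)
    · have h4 : W C * g ^ 2 ≠ W A := by
        intro h
        obtain ⟨h6, h7⟩ := t2 _ _ h.symm
        rw [(hW0 A).2 h6, le_zero_iff, mul_eq_zero] at h12
        exact nz ⟨h6, (hW0 B).1 (h12.resolve_right hg0), h7⟩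
      have h5 : W B * g ≠ W A := by
        intro h
        obtain ⟨h6, h7⟩ := t1 _ _ h.symm
        rw [(hW0 A).2 h6, le_zero_iff, mul_eq_zero] at h13
        exact nz ⟨h6, h7, (hW0 C).1 (h13.resolve_right (pow_ne_zero 2 hg0))⟩
      exact caseI (lt_of_le_of_ne h12 h5) (lt_of_le_of_ne h13 h4)

theorem lc_three [NumberField K] {x : Cb K} {r : K} (hr : x.N = r ^ 2) (hN : x.N ≠ 0)
    (v : HeightOneSpectrum (𝓞 K)) (hv3 : ((3 : ℕ) : 𝓞 K) ∈ v.asIdeal)
    (hv : v.valuation K 3 = exp (-1 : ℤ) ∨ v.valuation K 3 = exp (-2 : ℤ)) :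
    LC (v.adicCompletion K) (AlgebraicClosure (v.adicCompletion K)) (Y702.G.sh W0)
      (zt x (algebraMap K _)) := by
  haveI : CharZero (v.adicCompletion K) := algebraRat.charZero _
  haveI : IsGalois (v.adicCompletion K) (AlgebraicClosure (v.adicCompletion K)) := inferInstance
  haveI : CharZero (AlgebraicClosure (v.adicCompletion K)) := algebraRat.charZero _
  obtain ⟨w, hw1, hw2, hw3, hw4, hw5⟩ := exists_data v
  have hone : ∀ m : ℕ, ((m : ℕ) : 𝓞 K) ∉ v.asIdeal →
      w ((m : ℕ) : AlgebraicClosure (v.adicCompletion K)) = 1 := by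
    intro m hm
    have h5 := hw3 (m : 𝓞 K)
    have h6 := (hw4 (m : 𝓞 K)).not.2 hm
    simp only [map_natCast] at h5 h6
    exact le_antisymm h5 (not_lt.1 h6)
  have h2 : w (2 : AlgebraicClosure (v.adicCompletion K)) = 1 := by
    have := hone 2 (fun h => by
      have h7 := Ideal.sub_mem _ hv3 h
      have h8 : ((3 : ℕ) : 𝓞 K) - ((2 : ℕ) : 𝓞 K) = 1 := by push_cast; ring
      rw [h8] at h7
      exact v.isPrime.ne_top ((Ideal.eq_top_iff_one _).2 h7))
    exact_mod_cast this
  have h3 : w (3 : AlgebraicClosure (v.adicCompletion K)) < 1 := by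
    have := (hw4 (3 : 𝓞 K)).2 (by exact_mod_cast hv3)
    simp only [map_ofNat] at this
    exact this
  refine lc_conv _ _ _ _ _ _ (lc_three0 w hw1 h2 h3 (fun s hs => ?_)
    (algebraMap K (v.adicCompletion K)) hr hN)
  have h4 : Valued.v (s ^ 3) = Valued.v (3 : v.adicCompletion K) := by
    have e1 : w (algebraMap (v.adicCompletion K) _ (s ^ 3)) =
        w (algebraMap (v.adicCompletion K) _ (3 : v.adicCompletion K)) := by
      rw [map_pow, map_pow, hs, map_ofNat (algebraMap (v.adicCompletion K) _)]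
    exact le_antisymm ((hw2 _ _).1 e1.le) ((hw2 _ _).1 e1.ge)
  have h5 : Valued.v (3 : v.adicCompletion K) = v.valuation K 3 := by
    have e : (3 : v.adicCompletion K) = algebraMap K (v.adicCompletion K) 3 := by rw [map_ofNat]
    rw [e]
    exact HeightOneSpectrum.valuedAdicCompletion_eq_valuation' v 3
  rw [map_pow, h5] at h4
  have hs0 : Valued.v s ≠ 0 := by
    intro h0
    rw [h0, zero_pow (by norm_num)] at h4
    rcases hv with h | h <;> rw [h] at h4 <;> exact WithZero.exp_ne_zero h4.symm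
  obtain ⟨k, hk⟩ := Pool.Agent.Y696.exp_rep hs0
  rw [hk, ← exp_nsmul] at h4
  rcases hv with h | h
  · rw [h] at h4
    have h7 := exp_injective h4
    rw [nsmul_eq_mul] at h7
    push_cast at h7
    omega
  · rw [h] at h4
    have h7 := exp_injective h4
    rw [nsmul_eq_mul] at h7
    push_cast at h7
    omega

end three

end Pool.Agent.K7.H56.U
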