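import Pool.Agent.K7.H56.U.E

/-!
# The local condition at the places above two
-/

set_option autoImplicit false
set_option linter.all false

open NumberField IsDedekindDomain WithZero WeierstrassCurve WeierstrassCurve.Affine
open scoped NNReal Classical

namespace Pool.Agent.K7.H56.U

open Pool.Agent.TH115.GD
open Pool.Agent.Y696 (Cb)
open Pool.Agent.Y702.G (base pts)
open Pool.Agent.K7.H56.M (W0 W0_Δ)
open Pool.Agent.R425 (lz exists_data)
open Pool.Agent.R425.G (w_sub_one w_rt u_int)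

section two

/-- the canonical root of `u² + u = z` -/
theorem as_root {Ω' : Type} [Field Ω'] [IsAlgClosed Ω'] (w : Valuation Ω' ℝ≥0) {z : Ω'}
    (hz : w z < 1) : ∃ u, u ^ 2 + u = z ∧ w u < 1 := by
  obtain ⟨u, hu⟩ := IsAlgClosed.exists_root (k := Ω')
    (Polynomial.X ^ 2 + Polynomial.X - Polynomial.C z) (by
      have : (Polynomial.X ^ 2 + Polynomial.X - Polynomial.C z : Polynomial Ω').degree = 2 := by
        compute_degree!
      rw [this]
      norm_num)
  have h1 : u ^ 2 + u = z := by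
    have := hu
    simp only [Polynomial.IsRoot.def, Polynomial.eval_sub, Polynomial.eval_add,
      Polynomial.eval_pow, Polynomial.eval_X, Polynomial.eval_C] at this
    linear_combination this
  by_cases h : w u < 1
  · exact ⟨u, h1, h⟩
  · rw [not_lt] at h
    refine ⟨-1 - u, by linear_combination h1, ?_⟩
    have h3 : u * (-1 - u) = -z := by linear_combination -h1
    have h4 : w u * w (-1 - u) < 1 := by
      rw [← map_mul, h3, Valuation.map_neg]
      exact hz
    by_contra h5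
    rw [not_lt] at h5
    exact absurd h4 (not_lt.2 (one_le_mul h h5))

theorem as_uniq {Ω' : Type} [Field Ω'] (w : Valuation Ω' ℝ≥0) {u u' : Ω'}
    (h : u ^ 2 + u = u' ^ 2 + u') (hu : w u < 1) (hu' : w u' < 1) : u = u' := by
  have h1 : (u - u') * (u + u' + 1) = 0 := by linear_combination h
  rcases mul_eq_zero.1 h1 with h2 | h2
  · exact sub_eq_zero.1 h2
  · exfalso
    have h3 : (1 : Ω') = -(u + u') := by linear_combination h2
    have h4 : w (1 : Ω') < 1 := by
      rw [h3, Valuation.map_neg]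
      exact Valuation.map_add_lt _ hu hu'
    rw [map_one] at h4
    exact lt_irrefl _ h4

variable {K : Type} [Field K]

theorem lc_two0 {L Ω' : Type} [Field L] [Field Ω'] [Algebra L Ω'] [IsAlgClosed Ω']
    [IsGalois L Ω'] [Algebra ℚ L] [Algebra ℚ Ω'] [IsScalarTower ℚ L Ω'] (w : Valuation Ω' ℝ≥0)
    (hσ : ∀ (σ : Ω' ≃ₐ[L] Ω') (x : Ω'), w (σ x) = w x) (h2 : w 2 < 1) {x S η : Cb K} {t : K}
    (f : K →+* L) (hS : S.N ≠ 0) (ht0 : t ≠ 0) (ht : w (algebraMap L Ω' (f t)) ≤ 1)
    (ha : w (algebraMap L Ω' (f η.a)) ≤ 1) (hb : w (algebraMap L Ω' (f η.b)) ≤ 1)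
    (hc : w (algebraMap L Ω' (f η.c)) ≤ 1)
    (hx : x * S ^ 2 = (1 + 2 * Cb.pi * Cb.C t ^ 2) * (1 + 4 * Cb.pi * η)) :
    LC L Ω' (Y702.G.sh W0) (zt x ((algebraMap L Ω').comp f)) := by
  haveI : CharZero Ω' := algebraRat.charZero Ω'
  haveI : CharZero L := algebraRat.charZero L
  have hΔ : W0.Δ ≠ 0 := by rw [W0_Δ]; norm_num
  have hV := Pool.Agent.R425.G.iv_sh W0 hΔ
  have hρ1 : ∀ e : Ω', cub (Y702.G.sh W0) e = 0 → w (-(e / 2)) < 1 := by
    intro e he
    have h := congrArg w (root_two he)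
    rw [map_pow] at h
    by_contra h5
    rw [not_lt] at h5
    rw [← h] at h2
    exact absurd h2 (not_lt.2 (one_le_pow₀ h5))
  set τ : Ω' := algebraMap L Ω' (f t) with hτ
  have hτ0 : τ ≠ 0 := (map_ne_zero _).2 ((map_ne_zero _).2 ht0)
  set F := (algebraMap L Ω').comp f with hF
  -- the point
  obtain ⟨Y, hY⟩ : ∃ Y : L, Y ^ 2 = ((f t) ^ 2)⁻¹ ^ 3 + 16 := by
    have hz : w (4 * τ ^ 6) < 1 := by
      have e : (4 : Ω') = 2 ^ 2 := by norm_num
      rw [e, map_mul, map_pow, map_pow]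
      exact mul_lt_one_of_nonneg_of_lt_one_left zero_le
        (pow_lt_one₀ zero_le h2 (by norm_num)) (pow_le_one' ht 6)
    obtain ⟨u, hu, hu1⟩ := as_root w hz
    have huσ : ∀ σ : Ω' ≃ₐ[L] Ω', σ u = u := by
      intro σ
      refine as_uniq w ?_ (by rw [hσ]; exact hu1) hu1
      rw [hu, ← map_pow, ← map_add, hu, map_mul, map_pow, hτ, AlgEquiv.commutes, map_ofNat]
    obtain ⟨u0, hu0⟩ := (InfiniteGalois.mem_range_algebraMap_iff_fixed (k := L) u).2 huσ
    refine ⟨(1 + 2 * u0) / (f t) ^ 3, ?_⟩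
    have hft : f t ≠ 0 := (map_ne_zero _).2 ht0
    have h4 : (1 + 2 * u0) ^ 2 = 1 + 16 * (f t) ^ 6 := by
      apply (algebraMap L Ω').injective
      simp only [map_pow, map_add, map_mul, map_one, map_ofNat, hu0]
      rw [← hτ]
      linear_combination 4 * hu
    rw [div_pow, h4]
    field_simp
  -- the square roots
  set zz : Ω' → Ω' := fun e => -(e / 2) * zt η F e with hzz
  have hηle : ∀ e, cub (Y702.G.sh W0) e = 0 → w (zt η F e) ≤ 1 := by
    intro e he
    have h1 := (hρ1 e he).le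
    unfold zt
    refine Valuation.map_add_le _ (Valuation.map_add_le _ ha ?_) ?_
    · rw [map_mul]
      exact mul_le_one' hb h1
    · rw [map_mul, map_pow]
      exact mul_le_one' hc (pow_le_one' h1 2)
  have hzz1 : ∀ e, cub (Y702.G.sh W0) e = 0 → w (zz e) < 1 := by
    intro e he
    simp only [hzz]
    rw [map_mul]
    exact mul_lt_one_of_nonneg_of_lt_one_left zero_le (hρ1 e he) (hηle e he)
  have ex : ∀ e : Ω', ∃ u : Ω', cub (Y702.G.sh W0) e = 0 → u ^ 2 + u = zz e ∧ w u < 1 := by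
    intro e
    by_cases he : cub (Y702.G.sh W0) e = 0
    · obtain ⟨y, hy⟩ := as_root w (hzz1 e he)
      exact ⟨y, fun _ => hy⟩
    · exact ⟨0, fun h => absurd h he⟩
  choose u hu using ex
  have hFσ : ∀ (σ : Ω' ≃ₐ[L] Ω') y, σ (F y) = F y := fun σ y => σ.commutes (f y)
  have huσ : ∀ (σ : Ω' ≃ₐ[L] Ω') e, cub (Y702.G.sh W0) e = 0 → σ (u e) = u (σ e) := by
    intro σ e he
    have he' := root_act (K := L) σ he
    refine as_uniq w ?_ (by rw [hσ]; exact (hu e he).2) (hu _ he').2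
    rw [(hu _ he').1, ← map_pow, ← map_add, (hu e he).1]
    simp only [hzz]
    rw [map_mul, map_neg, map_div₀, map_ofNat]
    congr 1
    exact zt_equi η (σ := (σ : Ω' →+* Ω')) (hFσ σ) e
  have key : ∀ e, cub (Y702.G.sh W0) e = 0 → zt x F e * zt S F e ^ 2 =
      (1 + 2 * (-(e / 2)) * τ ^ 2) * (1 + 2 * u e) ^ 2 := by
    intro e he
    have h1 := congrArg (fun y => zt y F e) hx
    rw [zt_mul _ _ F he, zt_mul _ _ F he, zt_pow _ F he] at h1
    have g1 : zt (1 + 2 * Cb.pi * Cb.C t ^ 2) F e = 1 + 2 * (-(e / 2)) * τ ^ 2 := by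
      rw [zt_hom _ _ he]
      simp only [map_add, map_mul, map_pow, map_one, map_ofNat]
      rw [Cb.hom_apply, Cb.hom_apply]
      simp [hF, hτ]
    have g2 : zt (1 + 4 * Cb.pi * η) F e = 1 + 4 * zz e := by
      rw [zt_hom _ _ he]
      simp only [map_add, map_mul, map_pow, map_one, map_ofNat]
      rw [← zt_hom η F he, Cb.hom_apply]
      simp [hzz]
      ring
    rw [h1, g1, g2, ← (hu e he).1]
    ring
  refine lc2 hV.a1 hV.a3 hV.Δ (x := ((f t) ^ 2)⁻¹) (y := Y) (by rw [hY, cub_W0]) fun e he => ?_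
  have hS0 := zt_ne F hS he
  refine ⟨τ * (1 + 2 * u e) / zt S F e, algebraMap L Ω' ((f t) ^ 2)⁻¹ - e, fun σ hσe => ?_, ?_,
    Or.inr ⟨fun h => ?_, rfl⟩⟩
  · have h5 : σ (zt S F e) = zt S F e := by
      have := zt_equi S (σ := (σ : Ω' →+* Ω')) (hFσ σ) e
      have h6 : (σ : Ω' →+* Ω') e = e := hσe
      rw [h6] at this
      exact this
    rw [map_div₀, map_mul, map_add, map_mul, h5, huσ σ e he, hσe, map_one, map_ofNat, hτ,
      AlgEquiv.commutes]
  · have h6 : algebraMap L Ω' ((f t) ^ 2)⁻¹ = (τ ^ 2)⁻¹ := by rw [map_inv₀, map_pow]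
    rw [h6]
    have h7 := key e he
    field_simp
    rw [h7]
    ring
  · have h6 : algebraMap L Ω' ((f t) ^ 2)⁻¹ = (τ ^ 2)⁻¹ := by rw [map_inv₀, map_pow]
    rw [h6] at h
    have h8 : e * τ ^ 2 = 1 := by
      rw [← h]
      field_simp
    have h9 : w (e * τ ^ 2) < 1 := by
      have : e * τ ^ 2 = -(2 * -(e / 2)) * τ ^ 2 := by ring
      rw [this, map_mul, Valuation.map_neg, map_mul, map_pow]
      refine mul_lt_one_of_nonneg_of_lt_one_left zero_le ?_ (pow_le_one' ht 2)
      exact mul_lt_one_of_nonneg_of_lt_one_left zero_le h2 (hρ1 e he).le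
    rw [h8, map_one] at h9
    exact lt_irrefl _ h9

theorem lc_two [NumberField K] {x S η : Cb K} {t : K} (v : HeightOneSpectrum (𝓞 K))
    (hv : ((2 : ℕ) : 𝓞 K) ∈ v.asIdeal) (hS : S.N ≠ 0) (ht0 : t ≠ 0) (ht : v.valuation K t ≤ 1)
    (ha : v.valuation K η.a ≤ 1) (hb : v.valuation K η.b ≤ 1) (hc : v.valuation K η.c ≤ 1)
    (hx : x * S ^ 2 = (1 + 2 * Cb.pi * Cb.C t ^ 2) * (1 + 4 * Cb.pi * η)) :
    LC (v.adicCompletion K) (AlgebraicClosure (v.adicCompletion K)) (Y702.G.sh W0)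
      (zt x (algebraMap K _)) := by
  haveI : CharZero (v.adicCompletion K) := algebraRat.charZero _
  haveI : IsGalois (v.adicCompletion K) (AlgebraicClosure (v.adicCompletion K)) := inferInstance
  haveI : CharZero (AlgebraicClosure (v.adicCompletion K)) := algebraRat.charZero _
  obtain ⟨w, hw1, hw2, hw3, hw4, hw5⟩ := exists_data v
  have h2 : w (2 : AlgebraicClosure (v.adicCompletion K)) < 1 := by
    have := (hw4 (2 : 𝓞 K)).2 (by exact_mod_cast hv)
    simp only [map_ofNat] at this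
    exact this
  have hle : ∀ y : K, v.valuation K y ≤ 1 → w (algebraMap (v.adicCompletion K)
      (AlgebraicClosure (v.adicCompletion K)) (algebraMap K (v.adicCompletion K) y)) ≤ 1 := by
    intro y hy
    have h := (hw2 (algebraMap K (v.adicCompletion K) y) 1).2 (by
      rw [map_one]
      exact (HeightOneSpectrum.valuedAdicCompletion_eq_valuation' v y).le.trans hy)
    rw [map_one, map_one] at h
    exact h
  exact lc_conv _ _ _ _ _ _ (lc_two0 w hw1 h2 (algebraMap K (v.adicCompletion K)) hS ht0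
    (hle _ ht) (hle _ ha) (hle _ hb) (hle _ hc) hx)

end two

end Pool.Agent.K7.H56.U
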