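import Pool.Agent.K7.H56.U.F
import Pool.Agent.Y696.EvAll
import Pool.Agent.R425.G.Pl

/-!
# Even valuations at the places of an embedding
-/

set_option autoImplicit false
set_option linter.all false

open NumberField IsDedekindDomain WithZero WeierstrassCurve WeierstrassCurve.Affine
open scoped NNReal Classical

namespace Pool.Agent.K7.H56.U

open Pool.Agent.TH115.GD
open Pool.Agent.Y696 (Cb IV EvV exp_bd peel newton hdivp vm)
open Pool.Agent.K7.H56.M (W0 W0_Δ)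
open Pool.Agent.R425.G (plc mem_plc q_mem_plc plc_le plc_lt plc_one)

section scale

/-- scaling to a unit -/
theorem scale {M : Type} [Field M] {v : Valuation M ℤᵐ⁰} {p : M} (hp : v p = exp (-1 : ℤ))
    (hno : ∀ a : M, ¬ v (a ^ 3 - 2) < 1) {x : Cb M} (hN : x.N ≠ 0) :
    ∃ (s : M) (u : Cb M), s ≠ 0 ∧ IV v u ∧ v u.N = 1 ∧ x = Cb.C s * u := by
  have hp0 : p ≠ 0 := Pool.Agent.Y696.ne_of_exp hp
  obtain ⟨k1, h1⟩ := exp_bd v x.a
  obtain ⟨k2, h2⟩ := exp_bd v x.b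
  obtain ⟨k3, h3⟩ := exp_bd v x.c
  set K := k1 + k2 + k3 with hK
  set x' : Cb M := Cb.C (p ^ K) * x with hx'
  have hpK : v (p ^ K) = exp (-(K : ℤ)) := by
    rw [map_pow, hp, ← exp_nsmul]
    congr 1
    simp
  have hsm : ∀ z (l : ℕ), v z ≤ exp (l : ℤ) → l ≤ K → v (p ^ K * z) ≤ 1 := by
    intro z l hz hl
    rw [map_mul, hpK]
    refine (mul_le_mul' le_rfl hz).trans ?_
    rw [← exp_add, ← exp_zero, exp_le_exp]
    omega
  have hxI : IV v x' := by
    refine ⟨?_, ?_, ?_⟩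
    · rw [hx', Cb.mul_a, Cb.C_a, Cb.C_b, Cb.C_c]
      simpa using hsm _ k1 h1 (by omega)
    · rw [hx', Cb.mul_b, Cb.C_a, Cb.C_b, Cb.C_c]
      simpa using hsm _ k2 h2 (by omega)
    · rw [hx', Cb.mul_c, Cb.C_a, Cb.C_b, Cb.C_c]
      simpa using hsm _ k3 h3 (by omega)
  have hpK0 : p ^ K ≠ 0 := pow_ne_zero _ hp0
  have hx'N : x'.N ≠ 0 := by
    rw [hx', Cb.N_mul, Cb.N_C]
    exact mul_ne_zero (pow_ne_zero _ hpK0) hN
  obtain ⟨m, hm⟩ : ∃ m : ℤ, v x'.N = exp m := ⟨log _, (exp_log ((v.ne_zero_iff).2 hx'N)).symm⟩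
  obtain ⟨i, u, hu, hu1, hxu⟩ := peel (v := v) (ϖ := Cb.C p) (f := 3) (by norm_num)
    (by rw [Cb.N_C, map_pow, hp, ← exp_nsmul]; congr 1) (fun x hx hN => hdivp hp hno x hx hN)
    m.natAbs x' hxI (by rw [hm, exp_le_exp]; omega)
  refine ⟨(p ^ K)⁻¹ * p ^ i, u, mul_ne_zero (inv_ne_zero hpK0) (pow_ne_zero _ hp0), hu, hu1, ?_⟩
  have h4 : Cb.C (p ^ K)⁻¹ * x' = x := by
    rw [hx', ← mul_assoc, ← map_mul, inv_mul_cancel₀ hpK0, map_one, one_mul]
  rw [← h4, hxu, map_mul, map_pow]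
  ring

end scale

section emb

variable {A Ω' : Type} [Field A] [NumberField A] [Field Ω'] (w : Valuation Ω' ℝ≥0) (φ : A →+* Ω')
  {q : ℕ} (hq0 : q ≠ 0) (hq : w (q : Ω') < 1)

include hq0 hq in
theorem w_eq {y z : A} (h : (plc w φ hq0 hq).valuation A y = (plc w φ hq0 hq).valuation A z) :
    w (φ y) = w (φ z) := by
  by_cases hz : z = 0
  · subst hz
    rw [map_zero, Valuation.zero_iff] at h
    rw [h]
  · have hz' : (plc w φ hq0 hq).valuation A z ≠ 0 := (Valuation.ne_zero_iff _).2 hz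
    have h1 : (plc w φ hq0 hq).valuation A (y / z) = 1 := by
      rw [map_div₀, h, div_self hz']
    have h2 := plc_one w φ hq0 hq h1
    rw [map_div₀, map_div₀] at h2
    have hw : w (φ z) ≠ 0 := (Valuation.ne_zero_iff _).2 ((_root_.map_ne_zero _).2 hz)
    exact (div_eq_one_iff_eq hw).1 h2

include hq0 hq in
/-- small elements -/
theorem w_small {ε : ℝ≥0} (hε : 0 < ε) : ∃ n : ℕ, ∀ y : A,
    (plc w φ hq0 hq).valuation A y ≤ exp (-(n : ℤ)) → w (φ y) < ε := by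
  obtain ⟨p, hp⟩ := (plc w φ hq0 hq).valuation_exists_uniformizer A
  have hp' : (plc w φ hq0 hq).valuation A p = exp (-1 : ℤ) := hp
  have hp1 : w (φ p) < 1 := plc_lt w φ hq0 hq (by
    rw [hp', ← exp_zero, exp_lt_exp]; omega)
  have hp0 : p ≠ 0 := Pool.Agent.Y696.ne_of_exp hp'
  obtain ⟨n, hn⟩ := exists_pow_lt_of_lt_one hε hp1
  refine ⟨n, fun y hy => ?_⟩
  have h1 : w (φ (y * (p ^ n)⁻¹)) ≤ 1 := by
    apply plc_le w φ hq0 hq
    rw [map_mul, map_inv₀, map_pow, hp', ← exp_nsmul]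
    refine (mul_le_mul' hy le_rfl).trans ?_
    rw [← exp_neg, ← exp_add, ← exp_zero, exp_le_exp]
    simp
  have h2 : y = (y * (p ^ n)⁻¹) * p ^ n := by
    rw [inv_mul_cancel_right₀ (pow_ne_zero _ hp0)]
  rw [h2, map_mul, map_mul, map_pow, map_pow]
  exact lt_of_le_of_lt (mul_le_of_le_one_left' h1) hn

/-- the evaluation in the field of the embedding -/
theorem w_ev_le {x : Cb Ω'} (ha : w x.a ≤ 1) (hb : w x.b ≤ 1) (hc : w x.c ≤ 1) {ρ : Ω'}
    (hρ : w ρ ≤ 1) : w (x.ev ρ) ≤ 1 := by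
  unfold Cb.ev
  refine Valuation.map_add_le _ (Valuation.map_add_le _ ha ?_) ?_
  · rw [map_mul]; exact mul_le_one' hb hρ
  · rw [map_mul, map_pow]; exact mul_le_one' hc (pow_le_one' hρ 2)

theorem ev_hom (x y : Cb Ω') {ρ : Ω'} (hρ : ρ ^ 3 = 2) : (x * y).ev ρ = x.ev ρ * y.ev ρ := by
  have h := Cb.ev_mul x y ρ
  rw [hρ, sub_self, zero_mul] at h
  exact (sub_eq_zero.1 h).symm

include hq0 hq in
/-- the case of no root -/
theorem caseB (hno : ∀ a : A, ¬ (plc w φ hq0 hq).valuation A (a ^ 3 - 2) < 1) {x : Cb A}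
    (hN : x.N ≠ 0) {ρ : Ω'} (hρ : ρ ^ 3 = 2) (hρ1 : w ρ ≤ 1) :
    ∃ s : A, s ≠ 0 ∧ w (Cb.ev (Cb.map φ x) ρ) = w (φ s) ∧
      (plc w φ hq0 hq).valuation A x.N = (plc w φ hq0 hq).valuation A s ^ 3 := by
  obtain ⟨p, hp⟩ := (plc w φ hq0 hq).valuation_exists_uniformizer A
  obtain ⟨s, u, hs0, hu, hu1, rfl⟩ := scale (v := (plc w φ hq0 hq).valuation A) (p := p) hp hno hN
  refine ⟨s, hs0, ?_, ?_⟩
  · have hle : ∀ y, (plc w φ hq0 hq).valuation A y ≤ 1 → w (φ y) ≤ 1 := fun y =>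
      plc_le w φ hq0 hq
    have h1 : w ((Cb.map φ u).ev ρ) = 1 := by
      have h2 : w ((Cb.map φ u).ev ρ) ≤ 1 := w_ev_le w (hle _ hu.1) (hle _ hu.2.1)
        (hle _ hu.2.2) hρ1
      have hadj := hu.adj
      have h3 : w ((Cb.map φ u.adj).ev ρ) ≤ 1 := w_ev_le w (hle _ hadj.1) (hle _ hadj.2.1)
        (hle _ hadj.2.2) hρ1
      have h4 : w ((Cb.map φ u).ev ρ) * w ((Cb.map φ u.adj).ev ρ) = 1 := by
        rw [← map_mul, ← ev_hom _ _ hρ, ← map_mul, Cb.mul_adj, Cb.map_C]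
        have : (Cb.C (φ u.N) : Cb Ω').ev ρ = φ u.N := by simp [Cb.ev]
        rw [this]
        exact plc_one w φ hq0 hq hu1
      exact Pool.Agent.R425.G.one_of_mul h2 h3 h4
    rw [map_mul, ev_hom _ _ hρ, map_mul, h1, mul_one, Cb.map_C]
    congr 1
    simp [Cb.ev]
  · rw [Cb.N_mul, Cb.N_C, map_mul, hu1, mul_one, map_pow]

variable {ω : A} (hω : ω ^ 2 + ω + 1 = 0)

include hω in
/-- the case of a root -/
theorem caseA (h2 : (plc w φ hq0 hq).valuation A 2 = 1) (h3 : (plc w φ hq0 hq).valuation A 3 = 1)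
    {a : A} (ha : (plc w φ hq0 hq).valuation A (a ^ 3 - 2) < 1) {x : Cb A}
    (hN : x.N ≠ 0) {ρ : Ω'} (hρ : ρ ^ 3 = 2) (n : ℕ) :
    ∃ b : A, (plc w φ hq0 hq).valuation A (b ^ 3 - 2) ≤ exp (-(n : ℤ)) ∧
      w (φ (x.ev b)) = w (Cb.ev (Cb.map φ x) ρ) := by
  set v := (plc w φ hq0 hq).valuation A with hv
  have w3 : w (3 : Ω') = 1 := by
    have := plc_one w φ hq0 hq h3
    rwa [map_ofNat] at this
  have w2 : w (2 : Ω') = 1 := by
    have := plc_one w φ hq0 hq h2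
    rwa [map_ofNat] at this
  have hρ1 : w ρ = 1 := by
    have h := congrArg w hρ
    rw [map_pow, w2] at h
    exact (pow_eq_one_iff_of_nonneg zero_le (by norm_num)).1 h
  set θ := φ ω with hθ
  have hθ1 : θ ^ 2 + θ + 1 = 0 := by
    rw [hθ, ← map_pow, ← map_add, ← map_one φ, ← map_add, hω, map_zero]
  have hθ3 : θ ^ 3 = 1 := by linear_combination (θ - 1) * hθ1
  have wθ : w θ = 1 := by
    have h := congrArg w hθ3
    rw [map_pow, map_one] at h
    exact (pow_eq_one_iff_of_nonneg zero_le (by norm_num)).1 h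
  -- the size of the evaluation
  have hE0 : Cb.ev (Cb.map φ x) ρ ≠ 0 := by
    intro h0
    have h4 : Cb.ev (Cb.map φ x) ρ * Cb.ev (Cb.map φ x.adj) ρ = φ x.N := by
      rw [← ev_hom _ _ hρ, ← map_mul, Cb.mul_adj, Cb.map_C]
      simp [Cb.ev]
    rw [h0, zero_mul] at h4
    exact hN ((_root_.map_eq_zero _).1 h4.symm)
  set E := w (Cb.ev (Cb.map φ x) ρ) with hE
  have hEpos : 0 < E := pos_iff_ne_zero.2 ((Valuation.ne_zero_iff _).2 hE0)
  set B := w (φ x.b) + w (φ x.c) + 1 with hB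
  have hBpos : 0 < B := by rw [hB]; positivity
  obtain ⟨n1, hn1⟩ := w_small w φ hq0 hq (div_pos hEpos hBpos)
  obtain ⟨b, hb, hbn⟩ := newton v h2 h3 ha (n + n1)
  have hbn1 : v (b ^ 3 - 2) ≤ exp (-(n1 : ℤ)) := hbn.trans (by rw [exp_le_exp]; push_cast; omega)
  have hbn2 : v (b ^ 3 - 2) ≤ exp (-(n : ℤ)) := hbn.trans (by rw [exp_le_exp]; push_cast; omega)
  have hbn3 : v (b ^ 3 - 2) < 1 := lt_of_le_of_lt hbn (by
    rw [← exp_zero, exp_lt_exp]; push_cast; omega)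
  have hsm := hn1 _ hbn1
  have hsm1 : w (φ (b ^ 3 - 2)) < 1 := plc_lt w φ hq0 hq hbn3
  -- one of the three conjugates is close
  have hprod : (φ b - ρ) * (φ (ω * b) - ρ) * (φ (ω ^ 2 * b) - ρ) = φ (b ^ 3 - 2) := by
    simp only [map_mul, map_pow, map_sub, map_ofNat]
    rw [← hθ, ← hρ]
    have e4 : θ ^ 4 = θ := by linear_combination θ * hθ3
    linear_combination (φ b * ρ ^ 2 - φ b ^ 2 * ρ * θ) * hθ1 + (φ b ^ 3) * hθ3
  have wb : w (φ b) = 1 := by
    have h4 : v b = 1 := Pool.Agent.Y696.v_one_of_cube v h2 hbn3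
    exact plc_one w φ hq0 hq h4
  have fin : ∀ c : A, v (c ^ 3 - 2) = v (b ^ 3 - 2) → w (φ c) = 1 → w (φ c - ρ) ≤
      w (φ (b ^ 3 - 2)) → ∃ b : A, v (b ^ 3 - 2) ≤ exp (-(n : ℤ)) ∧ w (φ (x.ev b)) = E := by
    intro c hc hc1 hcρ
    refine ⟨c, hc.le.trans hbn2, ?_⟩
    have h5 : φ (x.ev c) - Cb.ev (Cb.map φ x) ρ = (φ c - ρ) * (φ x.b + φ x.c * (φ c + ρ)) := by
      simp only [Cb.ev, map_add, map_mul, map_pow, Cb.map_a', Cb.map_b', Cb.map_c']
      ring
    have h6 : w (φ (x.ev c) - Cb.ev (Cb.map φ x) ρ) < E := by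
      rw [h5, map_mul]
      have h7 : w (φ x.b + φ x.c * (φ c + ρ)) ≤ B := by
        refine (Valuation.map_add _ _ _).trans (max_le ?_ ?_)
        · rw [hB, add_assoc]
          exact le_self_add
        · rw [map_mul]
          have h8 : w (φ c + ρ) ≤ 1 := Valuation.map_add_le _ hc1.le hρ1.le
          refine (mul_le_of_le_one_right' h8).trans ?_
          rw [hB, add_right_comm]
          exact le_add_self
      calc w (φ c - ρ) * w (φ x.b + φ x.c * (φ c + ρ)) ≤ w (φ (b ^ 3 - 2)) * B :=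
            mul_le_mul' hcρ h7
        _ < E / B * B := by
            exact mul_lt_mul_of_pos_right hsm hBpos
        _ = E := div_mul_cancel₀ _ hBpos.ne'
    have h9 := Valuation.map_eq_of_sub_lt w h6
    exact h9
  -- the differences are units
  have d1 : w (θ - 1) = 1 := by
    have h4 : (θ - 1) * (θ + 2) = -3 := by linear_combination hθ1
    have h5 : w (θ - 1) ≤ 1 := (Valuation.map_sub _ _ _).trans (max_le wθ.le (by rw [map_one]))
    have h6 : w (θ + 2) ≤ 1 := Valuation.map_add_le _ wθ.le w2.le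
    have h7 := congrArg w h4
    rw [map_mul, Valuation.map_neg, w3] at h7
    exact Pool.Agent.R425.G.one_of_mul h5 h6 h7
  have far : ∀ y z : Ω', w (y - z) = 1 → w (y - ρ) < 1 → w (z - ρ) = 1 := by
    intro y z hyz hy
    have h4 : z - ρ = (y - ρ) - (y - z) := by ring
    rw [h4, Valuation.map_sub_eq_of_lt_right _ (by rw [hyz]; exact hy), hyz]
  have g12 : w (φ b - φ (ω * b)) = 1 := by
    have : φ b - φ (ω * b) = -(θ - 1) * φ b := by rw [map_mul, ← hθ]; ring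
    rw [this, map_mul, Valuation.map_neg, d1, wb, one_mul]
  have g23 : w (φ (ω * b) - φ (ω ^ 2 * b)) = 1 := by
    have : φ (ω * b) - φ (ω ^ 2 * b) = -(θ - 1) * (θ * φ b) := by
      rw [map_mul, map_mul, map_pow, ← hθ]; ring
    rw [this, map_mul, Valuation.map_neg, d1, map_mul, wb, wθ, one_mul, one_mul]
  have g13 : w (φ b - φ (ω ^ 2 * b)) = 1 := by
    have : φ b - φ (ω ^ 2 * b) = (θ - 1) * (θ ^ 2 * φ b) := by
      rw [map_mul, map_pow, ← hθ]
      linear_combination (-φ b) * hθ3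
    rw [this, map_mul, d1, map_mul, map_pow, wb, wθ, one_pow, one_mul, one_mul]
  have hω3 : ω ^ 3 = 1 := by linear_combination (ω - 1) * hω
  have wω : w (φ ω) = 1 := wθ
  have hsm2 := hsm1
  rw [← hprod, Valuation.map_mul, Valuation.map_mul] at hsm2
  by_cases c1 : w (φ b - ρ) < 1
  · have f2 := far _ _ g12 c1
    have f3 := far _ _ g13 c1
    refine fin b rfl wb ?_
    rw [← hprod, Valuation.map_mul, Valuation.map_mul, f2, f3, mul_one, mul_one]
  · rw [not_lt] at c1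
    by_cases c2 : w (φ (ω * b) - ρ) < 1
    · have f1 := far _ _ (by rw [Valuation.map_sub_swap]; exact g12) c2
      have f3 := far _ _ g23 c2
      refine fin (ω * b) ?_ (by rw [map_mul, map_mul, wω, wb, one_mul]) ?_
      · congr 1
        rw [mul_pow, hω3, one_mul]
      · rw [← hprod, Valuation.map_mul, Valuation.map_mul, f1, f3, mul_one, one_mul]
    · rw [not_lt] at c2
      have c3 : w (φ (ω ^ 2 * b) - ρ) < 1 := by
        by_contra h
        rw [not_lt] at h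
        exact absurd hsm2 (not_lt.2 (one_le_mul (one_le_mul c1 c2) h))
      have f1 := far _ _ (by rw [Valuation.map_sub_swap]; exact g13) c3
      have f2 := far _ _ (by rw [Valuation.map_sub_swap]; exact g23) c3
      refine fin (ω ^ 2 * b) ?_ (by rw [map_mul, map_mul, map_pow, map_pow, wω, wb, one_pow,
        one_mul]) ?_
      · congr 1
        have : (ω ^ 2 * b) ^ 3 = (ω ^ 3) ^ 2 * b ^ 3 := by ring
        rw [this, hω3, one_pow, one_mul]
      · rw [← hprod, Valuation.map_mul, Valuation.map_mul, f1, f2, one_mul, one_mul]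

include hω in
/-- even valuations -/
theorem ev_even (h2 : (plc w φ hq0 hq).valuation A 2 = 1) (h3 : (plc w φ hq0 hq).valuation A 3 = 1)
    {x : Cb A} (hN : x.N ≠ 0) (hr : ∃ r, x.N = r ^ 2)
    (hE : EvV ((plc w φ hq0 hq).valuation A) x) {ρ : Ω'} (hρ : ρ ^ 3 = 2) :
    ∃ s : A, s ≠ 0 ∧ w (Cb.ev (Cb.map φ x) ρ) = w (φ s) ^ 2 := by
  by_cases h : ∃ a : A, (plc w φ hq0 hq).valuation A (a ^ 3 - 2) < 1
  · obtain ⟨a, ha⟩ := h
    obtain ⟨n, hn⟩ := hE
    obtain ⟨b, hb, hb2⟩ := caseA w φ hq0 hq hω h2 h3 ha hN hρ n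
    obtain ⟨m, hm⟩ := hn b hb
    obtain ⟨p, hp⟩ := (plc w φ hq0 hq).valuation_exists_uniformizer A
    have hp' : (plc w φ hq0 hq).valuation A p = exp (-1 : ℤ) := hp
    have hp0 : p ≠ 0 := Pool.Agent.Y696.ne_of_exp hp'
    refine ⟨p ^ (-m), zpow_ne_zero _ hp0, ?_⟩
    rw [← hb2, ← map_pow, ← map_pow]
    apply w_eq w φ hq0 hq
    rw [hm, map_pow, map_zpow₀, hp', ← exp_zsmul, ← exp_nsmul]
    congr 1
    simp
  · push Not at h
    have w2 : w (2 : Ω') = 1 := by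
      have := plc_one w φ hq0 hq h2
      rwa [map_ofNat] at this
    have hρ1 : w ρ = 1 := by
      have h := congrArg w hρ
      rw [map_pow, w2] at h
      exact (pow_eq_one_iff_of_nonneg zero_le (by norm_num)).1 h
    obtain ⟨s, hs0, hs, hs3⟩ := caseB w φ hq0 hq (fun a => not_lt.2 (h a)) hN hρ hρ1.le
    obtain ⟨r, hr⟩ := hr
    have hr0 : r ≠ 0 := by
      rintro rfl
      exact hN (by rw [hr]; ring)
    refine ⟨r / s, div_ne_zero hr0 hs0, ?_⟩
    rw [hs, ← map_pow, ← map_pow]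
    apply w_eq w φ hq0 hq
    have hsv : (plc w φ hq0 hq).valuation A s ≠ 0 := (Valuation.ne_zero_iff _).2 hs0
    rw [map_pow, map_div₀, div_pow, ← map_pow _ r, ← hr, hs3]
    field_simp

include hω in
/-- the values of the evaluations -/
theorem ev_val (h2 : (plc w φ hq0 hq).valuation A 2 = 1) (h3 : (plc w φ hq0 hq).valuation A 3 = 1)
    {x : Cb A} (hN : x.N ≠ 0) {ρ : Ω'} (hρ : ρ ^ 3 = 2) :
    ∃ s : A, s ≠ 0 ∧ w (Cb.ev (Cb.map φ x) ρ) = w (φ s) := by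
  by_cases h : ∃ a : A, (plc w φ hq0 hq).valuation A (a ^ 3 - 2) < 1
  · obtain ⟨a, ha⟩ := h
    obtain ⟨b, hb, hb2⟩ := caseA w φ hq0 hq hω h2 h3 ha hN hρ 0
    refine ⟨x.ev b, ?_, hb2.symm⟩
    intro h0
    rw [h0, map_zero, map_zero] at hb2
    have h4 : Cb.ev (Cb.map φ x) ρ * Cb.ev (Cb.map φ x.adj) ρ = φ x.N := by
      rw [← ev_hom _ _ hρ, ← map_mul, Cb.mul_adj, Cb.map_C]
      simp [Cb.ev]
    rw [(Valuation.zero_iff _).1 hb2.symm, zero_mul] at h4
    exact hN ((_root_.map_eq_zero _).1 h4.symm)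
  · push Not at h
    have w2 : w (2 : Ω') = 1 := by
      have := plc_one w φ hq0 hq h2
      rwa [map_ofNat] at this
    have hρ1 : w ρ = 1 := by
      have h := congrArg w hρ
      rw [map_pow, w2] at h
      exact (pow_eq_one_iff_of_nonneg zero_le (by norm_num)).1 h
    obtain ⟨s, hs0, hs, hs3⟩ := caseB w φ hq0 hq (fun a => not_lt.2 (h a)) hN hρ hρ1.le
    exact ⟨s, hs0, hs⟩

end emb

end Pool.Agent.K7.H56.U
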