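import Pool.Agent.K7.H56.U.G
import Pool.Agent.K7.H56.P.F

/-!
# Places of an extension given by an embedding in a completion
-/

set_option autoImplicit false
set_option linter.all false

open NumberField IsDedekindDomain WithZero WeierstrassCurve WeierstrassCurve.Affine
open scoped NNReal Classical

namespace Pool.Agent.K7.H56.U

open Pool.Agent.TH115.GD
open Pool.Agent.Y696 (Cb IV EvV LvV PA nat_mem_iff val_of_unr exists_above)
open Pool.Agent.K7.H56.M (W0 W0_Δ)
open Pool.Agent.R425.G (plc mem_plc q_mem_plc plc_le plc_lt plc_one)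

section pair

variable {K K' : Type} [Field K] [NumberField K] [Field K'] [NumberField K'] [Algebra K K']

/-- the local condition at the places not above six -/
theorem hev_of {ω : K'} (hω : ω ^ 2 + ω + 1 = 0) {v : HeightOneSpectrum (𝓞 K)}
    (hv2 : ((2 : ℕ) : 𝓞 K) ∉ v.asIdeal) (hv3 : ((3 : ℕ) : 𝓞 K) ∉ v.asIdeal)
    (hun : ∀ v' : HeightOneSpectrum (𝓞 K'), v'.asIdeal.LiesOver v.asIdeal →
      v.asIdeal.ramificationIdx' v'.asIdeal = 1)
    {δ : Cb K} {D t : Cb K'} (hD : D.N ≠ 0) (hr : ∃ r, D.N = r ^ 2) (ht : t.N ≠ 0)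
    (hE : ∀ v' : HeightOneSpectrum (𝓞 K'), v'.asIdeal.LiesOver v.asIdeal →
      EvV (v'.valuation K') D)
    (hδ : Cb.map (algebraMap K K') δ = D * t ^ 2)
    (w : Valuation (AlgebraicClosure (v.adicCompletion K)) ℝ≥0)
    (hw : ∀ x y : v.adicCompletion K, w (algebraMap (v.adicCompletion K) _ x) ≤
        w (algebraMap (v.adicCompletion K) _ y) ↔ Valued.v x ≤ Valued.v y)
    {ρ : AlgebraicClosure (v.adicCompletion K)} (hρ : ρ ^ 3 = 2) :
    ∃ s : v.adicCompletion K, s ≠ 0 ∧
      w (Cb.ev (Cb.map (algebraMap K _) δ) ρ) = w (algebraMap _ _ s) ^ 2 := by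
  haveI : Module.Finite K K' := by
    haveI : IsScalarTower ℚ K K' := IsScalarTower.of_algebraMap_eq fun x => by simp
    exact Module.Finite.of_restrictScalars_finite ℚ K K'
  haveI : Algebra.IsAlgebraic K K' := Algebra.IsAlgebraic.of_finite K K'
  obtain ⟨φ, hφ⟩ : ∃ φ : K' →+* AlgebraicClosure (v.adicCompletion K),
      ∀ y : K, φ (algebraMap K K' y) = algebraMap K _ y := by
    let j : K' →ₐ[K] AlgebraicClosure (v.adicCompletion K) := IsAlgClosed.lift
    exact ⟨j.toRingHom, fun y => j.commutes y⟩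
  have hjK : ∀ y : K, φ (algebraMap K K' y) =
      algebraMap (v.adicCompletion K) _ (algebraMap K (v.adicCompletion K) y) := fun y => hφ y
  have hval : ∀ y : K, Valued.v (algebraMap K (v.adicCompletion K) y) = v.valuation K y :=
    fun y => HeightOneSpectrum.valuedAdicCompletion_eq_valuation' v y
  -- comparison with the valuation of `K`
  have hle : ∀ y z : K, w (φ (algebraMap K K' y)) ≤
      w (φ (algebraMap K K' z)) ↔ v.valuation K y ≤ v.valuation K z := by
    intro y z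
    rw [hjK, hjK, hw, hval, hval]
  have hlt1 : ∀ y : K, w (φ (algebraMap K K' y)) < 1 ↔ v.valuation K y < 1 := by
    intro y
    have h := hle 1 y
    rw [map_one, map_one, map_one, map_one] at h
    rw [← not_le, ← not_le, h]
  obtain ⟨q, hq, hqv⟩ := Pool.Agent.R425.G.exists_prime_mem v
  have hqw : w ((q : ℕ) : AlgebraicClosure (v.adicCompletion K)) < 1 := by
    have h := (hlt1 (q : K)).2 (by
      rw [← nat_mem_iff]
      exact hqv)
    simp only [map_natCast] at h
    exact h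
  set v' := plc w φ hq.ne_zero hqw with hv'
  have hlo : v'.asIdeal.LiesOver v.asIdeal := by
    refine ⟨?_⟩
    ext a
    rw [Ideal.under_def, Ideal.mem_comap]
    show a ∈ v.asIdeal ↔ w (φ ((algebraMap (𝓞 K) (𝓞 K') a : 𝓞 K') : K')) < 1
    have e : ((algebraMap (𝓞 K) (𝓞 K') a : 𝓞 K') : K') = algebraMap K K' (a : K) := rfl
    rw [e, hlt1]
    exact (HeightOneSpectrum.valuation_lt_one_iff_mem v a).symm
  have he := hun v' hlo
  have hvv : ∀ y : K, v'.valuation K' (algebraMap K K' y) = v.valuation K y :=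
    fun y => val_of_unr hlo he y
  have h1 : ∀ n : ℕ, ((n : ℕ) : 𝓞 K) ∉ v.asIdeal → v'.valuation K' (n : K') = 1 := by
    intro n hn
    have h4 := hvv (n : K)
    rw [map_natCast] at h4
    rw [h4]
    rw [nat_mem_iff] at hn
    have h5 : v.valuation K (n : K) ≤ 1 := Pool.Agent.Y696.v_nat_le _ n
    exact le_antisymm h5 (not_lt.1 hn)
  have h2 : v'.valuation K' 2 = 1 := by exact_mod_cast h1 2 hv2
  have h3 : v'.valuation K' 3 = 1 := by exact_mod_cast h1 3 hv3
  obtain ⟨s1, hs10, hs1⟩ := ev_even w φ hq.ne_zero hqw hω h2 h3 hD hr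
    (hE v' hlo) hρ
  obtain ⟨s2, hs20, hs2⟩ := ev_val w φ hq.ne_zero hqw hω h2 h3 ht hρ
  have hs0 : s1 * s2 ≠ 0 := mul_ne_zero hs10 hs20
  obtain ⟨m, hm⟩ : ∃ m : ℤ, v'.valuation K' (s1 * s2) = exp m :=
    ⟨log _, (exp_log ((Valuation.ne_zero_iff _).2 hs0)).symm⟩
  obtain ⟨p, hp⟩ := v.valuation_exists_uniformizer K
  have hp' : v.valuation K p = exp (-1 : ℤ) := hp
  have hp0 : p ≠ 0 := Pool.Agent.Y696.ne_of_exp hp'
  refine ⟨algebraMap K _ (p ^ (-m)), (_root_.map_ne_zero _).2 (zpow_ne_zero _ hp0), ?_⟩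
  have h6 : w (φ (s1 * s2)) =
      w (φ (algebraMap K K' (p ^ (-m)))) := by
    apply w_eq w φ hq.ne_zero hqw
    rw [← hv', hm, hvv, map_zpow₀, hp', ← exp_zsmul]
    congr 1
    simp
  have h7 : Cb.map (algebraMap K (AlgebraicClosure (v.adicCompletion K))) δ =
      Cb.map φ (Cb.map (algebraMap K K') δ) := by
    ext
    · exact (hφ δ.a).symm
    · exact (hφ δ.b).symm
    · exact (hφ δ.c).symm
  rw [h7, hδ, map_mul, map_pow, ev_hom _ _ hρ, pow_two (Cb.map φ t),
    ev_hom _ _ hρ, map_mul, map_mul, hs1, hs2, ← hjK, ← h6, map_mul, map_mul]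
  ring

end pair

end Pool.Agent.K7.H56.U
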