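import Pool.Agent.K7.H56.U.H

/-!
# Elements which satisfy the conditions give nontrivial classes
-/

set_option autoImplicit false
set_option linter.all false

open NumberField IsDedekindDomain WithZero WeierstrassCurve WeierstrassCurve.Affine
open scoped NNReal Classical

namespace Pool.Agent.K7.H56.U

open Pool.Agent.TH115.GD
open Pool.Agent.Y696 (Cb IV EvV LvV PA nat_mem_iff val_of_unr exists_above)
open Pool.Agent.K7.H56.M (W0 W0_Δ)

/-- the conclusion of the approximation at the places above two -/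
def TwoC (K : Type) [Field K] [NumberField K] : Prop :=
  ∀ v : HeightOneSpectrum (𝓞 K), ((2 : ℕ) : 𝓞 K) ∈ v.asIdeal → ∀ δ : Cb K, δ.N ≠ 0 →
    (∃ r, δ.N = r ^ 2) → LvV (v.valuation K) δ →
    ∃ (S η : Cb K) (t : K), S.N ≠ 0 ∧ t ≠ 0 ∧ v.valuation K t ≤ 1 ∧ v.valuation K η.a ≤ 1 ∧
      v.valuation K η.b ≤ 1 ∧ v.valuation K η.c ≤ 1 ∧
      δ * S ^ 2 = (1 + 2 * Cb.pi * Cb.C t ^ 2) * (1 + 4 * Cb.pi * η)

section pair

variable {K K' : Type} [Field K] [NumberField K] [Field K'] [NumberField K'] [Algebra K K']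
  [IsGalois K K']

/-- **an element which satisfies the conditions and is not a square gives a nontrivial class** -/
theorem not_selT_pair {n : ℕ} (hn : Module.finrank K K' = 2 ^ n) {ω : K'}
    (hω : ω ^ 2 + ω + 1 = 0) (h3 : ∀ x : K', x ^ 3 ≠ 2)
    (hun : ∀ (v : HeightOneSpectrum (𝓞 K)) (v' : HeightOneSpectrum (𝓞 K')),
      v'.asIdeal.LiesOver v.asIdeal → ((3 : ℕ) : 𝓞 K) ∉ v.asIdeal →
      v.asIdeal.ramificationIdx' v'.asIdeal = 1)
    (hK2 : ∀ v : HeightOneSpectrum (𝓞 K), ((2 : ℕ) : 𝓞 K) ∈ v.asIdeal →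
      v.valuation K 2 = exp (-1 : ℤ))
    (hK3 : ∀ v : HeightOneSpectrum (𝓞 K), ((3 : ℕ) : 𝓞 K) ∈ v.asIdeal →
      v.valuation K 3 = exp (-1 : ℤ) ∨ v.valuation K 3 = exp (-2 : ℤ))
    (hta : TwoC K) {δ' : Cb K'} (hP : PA δ') (hsq : ¬ IsSquare δ') :
    ¬ Pool.Agent.R425.G.SelT (Y702.G.sh W0) K := by
  have h3K : ∀ x : K, x ^ 3 ≠ 2 := by
    intro x hx
    apply h3 (algebraMap K K' x)
    rw [← map_pow, hx, map_ofNat]
  obtain ⟨δ, D, t, hD, hD0, ht0, hmap, hns, r, hr⟩ := Pool.Agent.Y696.step (L := K) (M := K') hn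
    two_ne_zero h3 PA PA.one (fun x y hx hy => hx.mul hy)
    (fun g x hx => hx.aut (g : K' ≃+* K')) (fun x hx => hx.2.1) (Cb.ne_of_N hP.1) hsq hP
  have htN : t.N ≠ 0 := Cb.N_ne h3 ht0
  have hm : PA (Cb.map (algebraMap K K') δ) := by
    rw [hmap]
    exact hD.mul (PA.sq htN)
  have hδN : δ.N ≠ 0 := by
    intro h
    apply hm.1
    rw [Cb.N_map, h, map_zero]
  have hδsq : ¬ IsSquare δ := by
    rintro ⟨s, hs⟩
    exact hns ⟨Cb.map (algebraMap K K') s, by rw [hs, map_mul]⟩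
  refine not_selT h3K hr hδN hδsq (fun v => ?_) (fun v => lc_inf hr hδN v)
  by_cases hv2 : ((2 : ℕ) : 𝓞 K) ∈ v.asIdeal
  · have hv3 : ((3 : ℕ) : 𝓞 K) ∉ v.asIdeal := by
      intro h
      have h7 := Ideal.sub_mem _ h hv2
      have h8 : ((3 : ℕ) : 𝓞 K) - ((2 : ℕ) : 𝓞 K) = 1 := by push_cast; ring
      rw [h8] at h7
      exact v.isPrime.ne_top ((Ideal.eq_top_iff_one _).2 h7)
    obtain ⟨v', hlo⟩ := exists_above (K := K') v
    have he := hun v v' hlo hv3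
    have hv2' : ((2 : ℕ) : 𝓞 K') ∈ v'.asIdeal := by
      rw [nat_mem_iff, ← map_natCast (algebraMap K K'), val_of_unr hlo he, ← nat_mem_iff]
      exact hv2
    have hvv : v'.valuation K' 2 = exp (-1 : ℤ) := by
      have := val_of_unr hlo he (2 : K)
      rw [map_ofNat] at this
      rw [this]
      exact hK2 v hv2
    have hL : LvV (v.valuation K) δ := LvV.desc hvv (algebraMap K K') (val_of_unr hlo he)
      (Cb.ne_of_N hδN) (hm.2.2.2 v' hv2')
    obtain ⟨S, η, τ, hS, hτ0, hτ, ha, hb, hc, hx⟩ := hta v hv2 δ hδN ⟨r, hr⟩ hL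
    exact lc_two v hv2 hS hτ0 hτ ha hb hc hx
  · by_cases hv3 : ((3 : ℕ) : 𝓞 K) ∈ v.asIdeal
    · exact lc_three hr hδN v hv3 (hK3 v hv3)
    · refine lc_good hr v hv2 hv3 fun w hw ρ hρ => ?_
      refine hev_of hω hv2 hv3 (fun v' hlo => hun v v' hlo hv3) hD.1 hD.2.1 htN
        (fun v' hlo => hD.2.2.1 v' ?_) hmap w hw hρ
      intro h6
      have he := hun v v' hlo hv3
      rw [nat_mem_iff, ← map_natCast (algebraMap K K'), val_of_unr hlo he, ← nat_mem_iff] at h6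
      have h7 : ((6 : ℕ) : 𝓞 K) = ((2 : ℕ) : 𝓞 K) * ((3 : ℕ) : 𝓞 K) := by push_cast; norm_num
      rw [h7] at h6
      rcases v.isPrime.mem_or_mem h6 with h | h
      · exact hv2 h
      · exact hv3 h

end pair

/-- the residue field is perfect -/
theorem frob_surj {K : Type} [Field K] [NumberField K] {v : HeightOneSpectrum (𝓞 K)}
    (hv : ((2 : ℕ) : 𝓞 K) ∈ v.asIdeal) {x : K} (hx : v.valuation K x ≤ 1) :
    ∃ y : K, v.valuation K y ≤ 1 ∧ v.valuation K (x - y ^ 2) < 1 := by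
  obtain ⟨a, ha⟩ := HeightOneSpectrum.exists_valuation_sub_lt_of_integer (K := K) v hx 1
  have ha' : v.valuation K (algebraMap (𝓞 K) K a - x) < 1 := ha
  haveI : v.asIdeal.IsMaximal := v.isMaximal
  haveI : Finite (𝓞 K ⧸ v.asIdeal) := Ring.HasFiniteQuotients.finiteQuotient v.ne_bot
  letI : Field (𝓞 K ⧸ v.asIdeal) := Ideal.Quotient.field v.asIdeal
  have h2 : (2 : 𝓞 K ⧸ v.asIdeal) = 0 := by
    have := Ideal.Quotient.eq_zero_iff_mem.2 hv
    rw [map_natCast] at this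
    exact_mod_cast this
  haveI : CharP (𝓞 K ⧸ v.asIdeal) 2 := CharTwo.of_one_ne_zero_of_two_eq_zero one_ne_zero h2
  have hinj : Function.Injective (fun z : 𝓞 K ⧸ v.asIdeal => z ^ 2) := by
    intro z z' h
    have h' : z ^ 2 = z' ^ 2 := h
    have h4 : (z - z') ^ 2 = 0 := by
      have : (z - z') ^ 2 = z ^ 2 - z' ^ 2 + 2 * (z' ^ 2 - z * z') := by ring
      rw [this, h', h2]
      ring
    exact sub_eq_zero.1 (pow_eq_zero_iff (by norm_num) |>.1 h4)
  obtain ⟨z, hz⟩ := (Finite.injective_iff_surjective.1 hinj) (Ideal.Quotient.mk v.asIdeal a)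
  obtain ⟨b, rfl⟩ := Ideal.Quotient.mk_surjective z
  have hz' : Ideal.Quotient.mk v.asIdeal b ^ 2 = Ideal.Quotient.mk v.asIdeal a := hz
  rw [← map_pow, Ideal.Quotient.eq] at hz'
  refine ⟨algebraMap (𝓞 K) K b, v.valuation_le_one b, ?_⟩
  have h5 : v.valuation K (algebraMap (𝓞 K) K (b ^ 2 - a)) < 1 :=
    (HeightOneSpectrum.valuation_lt_one_iff_mem v _).2 hz'
  have h6 : x - algebraMap (𝓞 K) K b ^ 2 = -(algebraMap (𝓞 K) K a - x) -
      algebraMap (𝓞 K) K (b ^ 2 - a) := by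
    rw [map_sub, map_pow]
    ring
  rw [h6]
  refine lt_of_le_of_lt (Valuation.map_sub _ _ _) (max_lt ?_ h5)
  rw [Valuation.map_neg]
  exact ha'

end Pool.Agent.K7.H56.U
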