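import Pool.Agent.K7.H56.U.I

/-!
# Base change and descent of the conditions
-/

set_option autoImplicit false
set_option linter.all false

open NumberField IsDedekindDomain WithZero
open scoped NNReal Classical

namespace Pool.Agent.K7.H56.U

open Pool.Agent.Y696 (Cb IV EvV LvV WV PA nat_mem_iff val_of_unr exists_above exp_bd newton hdivp vm
  ev_lb le_of_near)

section up

variable {F K : Type} [Field F] [NumberField F] [Field K] [NumberField K] [Algebra F K]

/-- even valuations after base change -/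
theorem evV_up {v₀ : HeightOneSpectrum (𝓞 F)} {v : HeightOneSpectrum (𝓞 K)}
    (hlo : v.asIdeal.LiesOver v₀.asIdeal) (h2 : v₀.valuation F 2 = 1) (h3 : v₀.valuation F 3 = 1)
    {ω : F} (hω : ω ^ 2 + ω + 1 = 0) {x : Cb F} (hN : x.N ≠ 0) (hr : ∃ r, x.N = r ^ 2)
    (h : EvV (v₀.valuation F) x ∨ Even (v₀.asIdeal.ramificationIdx' v.asIdeal)) :
    EvV (v.valuation K) (Cb.map (algebraMap F K) x) := by
  set e := v₀.asIdeal.ramificationIdx' v.asIdeal with he
  have hve : ∀ y : F, v.valuation K (algebraMap F K y) = v₀.valuation F y ^ e := fun y =>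
    (HeightOneSpectrum.valuation_liesOver K v₀ v y).symm
  have hve1 : ∀ {y : F}, v₀.valuation F y ≤ 1 → v.valuation K (algebraMap F K y) ≤ 1 := by
    intro y hy
    rw [hve]
    exact pow_le_one' hy e
  by_cases hc : ∃ a : F, v₀.valuation F (a ^ 3 - 2) < 1
  · obtain ⟨a₀, ha₀⟩ := hc
    -- bounds
    obtain ⟨n1, k1, hb1⟩ := ev_lb (v.valuation K) (Cb.map (algebraMap F K) x) (by
      rw [Cb.N_map]
      exact (_root_.map_ne_zero _).2 hN)
    obtain ⟨k2, hk2⟩ := exp_bd (v.valuation K) (algebraMap F K x.b)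
    obtain ⟨k3, hk3⟩ := exp_bd (v.valuation K) (algebraMap F K x.c)
    have hn2 : ∃ n2 : ℕ, ∀ b : F, v₀.valuation F (b ^ 3 - 2) ≤ exp (-(n2 : ℤ)) →
        ∃ m : ℤ, v.valuation K (algebraMap F K (x.ev b)) = exp (2 * m) := by
      rcases h with ⟨n2, h⟩ | hev
      · refine ⟨n2, fun b hb => ?_⟩
        obtain ⟨m, hm⟩ := h b hb
        refine ⟨e * m, ?_⟩
        rw [hve, hm, ← exp_nsmul]
        congr 1
        rw [nsmul_eq_mul]
        ring
      · obtain ⟨n2, h⟩ := Pool.Agent.Y696.ev_ne (v₀.valuation F) hN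
        obtain ⟨e', he'⟩ := hev
        refine ⟨n2, fun b hb => ?_⟩
        obtain ⟨m, hm⟩ := h b hb
        refine ⟨e' * m, ?_⟩
        rw [hve, hm, ← exp_nsmul]
        congr 1
        rw [nsmul_eq_mul, he']
        push_cast
        ring
    obtain ⟨n2, hn2⟩ := hn2
    -- the approximation over `F`
    set T := n1 + k1 + k2 + k3 + 1 with hT
    obtain ⟨b, hba, hb⟩ := newton (v₀.valuation F) h2 h3 ha₀ (T + n2)
    have hbn2 : v₀.valuation F (b ^ 3 - 2) ≤ exp (-(n2 : ℤ)) :=
      hb.trans (by rw [exp_le_exp]; push_cast; omega)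
    have hb1' : v₀.valuation F (b ^ 3 - 2) < 1 := lt_of_le_of_lt hb (by
      rw [← exp_zero, exp_lt_exp]; push_cast; omega)
    have vb : v₀.valuation F b = 1 := Pool.Agent.Y696.v_one_of_cube _ h2 hb1'
    have hω3 : ω ^ 3 = 1 := by linear_combination (ω - 1) * hω
    refine ⟨T, fun a ha => ?_⟩
    have ha1 : v.valuation K a ≤ 1 :=
      le_of_near _ (ha.trans (by rw [← exp_zero, exp_le_exp]; omega))
    -- the upper bound for `a ^ 3 - b ^ 3`
    have he1 : 1 ≤ e := by
      by_contra hcon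
      have he0 : e = 0 := by omega
      have h6 := hve (b ^ 3 - 2)
      obtain ⟨p, hp⟩ := v₀.valuation_exists_uniformizer F
      have h7 := hve p
      obtain ⟨q, hq⟩ : ∃ q : 𝓞 F, q ∈ v₀.asIdeal ∧ q ≠ 0 := by
        obtain ⟨q, hq, hq0⟩ := Submodule.exists_mem_ne_zero_of_ne_bot v₀.ne_bot
        exact ⟨q, hq, hq0⟩
      have h8 := hve (algebraMap (𝓞 F) F q)
      rw [he0, pow_zero] at h8
      have h9 : v.valuation K (algebraMap F K (algebraMap (𝓞 F) F q)) < 1 := by
        have e1 : algebraMap F K (algebraMap (𝓞 F) F q) =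
            algebraMap (𝓞 K) K (algebraMap (𝓞 F) (𝓞 K) q) := rfl
        rw [e1, HeightOneSpectrum.valuation_lt_one_iff_mem]
        have h10 := hlo.over
        rw [h10] at hq
        exact hq.1
      rw [h8] at h9
      exact lt_irrefl _ h9
    have hbK : v.valuation K (algebraMap F K (b ^ 3 - 2)) ≤ exp (-(T : ℤ)) := by
      rw [hve]
      have h6 : v₀.valuation F (b ^ 3 - 2) ≤ exp (-(T : ℤ)) :=
        hb.trans (by rw [exp_le_exp]; push_cast; omega)
      calc v₀.valuation F (b ^ 3 - 2) ^ e ≤ v₀.valuation F (b ^ 3 - 2) ^ 1 :=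
            pow_le_pow_right_of_le_one' hb1'.le he1
        _ ≤ _ := by rw [pow_one]; exact h6
    have hab : v.valuation K (a ^ 3 - algebraMap F K b ^ 3) ≤ exp (-(T : ℤ)) := by
      have e1 : a ^ 3 - algebraMap F K b ^ 3 = (a ^ 3 - 2) - algebraMap F K (b ^ 3 - 2) := by
        rw [map_sub, map_pow, map_ofNat]
        ring
      rw [e1]
      exact Valuation.map_sub_le _ ha hbK
    -- one of the factors
    set w := v.valuation K with hw
    set θ := algebraMap F K ω with hθ
    have hθ1 : θ ^ 2 + θ + 1 = 0 := by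
      rw [hθ, ← map_pow, ← map_add, ← map_one (algebraMap F K), ← map_add, hω, map_zero]
    have w3 : w 3 = 1 := by
      have := hve 3
      rw [map_ofNat, h3, one_pow] at this
      exact this
    have w2 : w 2 = 1 := by
      have := hve 2
      rw [map_ofNat, h2, one_pow] at this
      exact this
    have wθ : w θ = 1 := by
      have h4 : θ ^ 3 = 1 := by linear_combination (θ - 1) * hθ1
      have h := congrArg w h4
      rw [map_pow, map_one] at h
      exact (pow_eq_one_iff_of_nonneg zero_le (by norm_num)).1 h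
    have wb : w (algebraMap F K b) = 1 := by rw [hve, vb, one_pow]
    have one_of : ∀ {y z : ℤᵐ⁰}, y ≤ 1 → z ≤ 1 → y * z = 1 → y = 1 := by
      intro y z hy hz h
      apply le_antisymm hy
      rw [← h]
      exact mul_le_of_le_one_right' hz
    have d1 : w (θ - 1) = 1 := by
      have h4 : (θ - 1) * (θ + 2) = -3 := by linear_combination hθ1
      have h5 : w (θ - 1) ≤ 1 := (Valuation.map_sub _ _ _).trans (max_le wθ.le (by rw [map_one]))
      have h6 : w (θ + 2) ≤ 1 := Valuation.map_add_le _ wθ.le w2.le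
      have h7 := congrArg w h4
      rw [map_mul, Valuation.map_neg, w3] at h7
      exact one_of h5 h6 h7
    have fin : ∀ c : F, v₀.valuation F (c ^ 3 - 2) = v₀.valuation F (b ^ 3 - 2) →
        w (algebraMap F K c) = 1 → w (a - algebraMap F K c) ≤ exp (-(T : ℤ)) →
        ∃ m : ℤ, w ((Cb.map (algebraMap F K) x).ev a) = exp (2 * m) := by
      intro c hc hc1 hca
      obtain ⟨m, hm⟩ := hn2 c (by rw [hc]; exact hbn2)
      refine ⟨m, ?_⟩
      rw [← hm]
      have h5 : (Cb.map (algebraMap F K) x).ev a - algebraMap F K (x.ev c) =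
          (a - algebraMap F K c) * (algebraMap F K x.b + algebraMap F K x.c *
            (a + algebraMap F K c)) := by
        simp only [Cb.ev, map_add, map_mul, map_pow, Cb.map_a', Cb.map_b', Cb.map_c']
        ring
      have h8 : exp (-(k1 : ℤ)) ≤ w ((Cb.map (algebraMap F K) x).ev a) :=
        hb1 a (ha.trans (by rw [exp_le_exp]; push_cast [hT]; omega))
      have h6 : w ((Cb.map (algebraMap F K) x).ev a - algebraMap F K (x.ev c)) <
          w ((Cb.map (algebraMap F K) x).ev a) := by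
        rw [h5, map_mul]
        have h7 : w (algebraMap F K x.b + algebraMap F K x.c * (a + algebraMap F K c)) ≤
            exp ((k2 + k3 : ℕ) : ℤ) := by
          refine Valuation.map_add_le _ (hk2.trans (by rw [exp_le_exp]; push_cast; omega)) ?_
          rw [map_mul]
          refine (mul_le_of_le_one_right' (Valuation.map_add_le _ ha1 hc1.le)).trans ?_
          exact hk3.trans (by rw [exp_le_exp]; push_cast; omega)
        refine lt_of_lt_of_le (lt_of_le_of_lt (mul_le_mul' hca h7) ?_) h8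
        rw [← exp_add, exp_lt_exp]
        push_cast [hT]
        omega
      have h9 := Valuation.map_eq_of_sub_lt w (x := (Cb.map (algebraMap F K) x).ev a)
        (y := algebraMap F K (x.ev c)) (by rw [Valuation.map_sub_swap]; exact h6)
      exact h9.symm
    have g1 : ∀ y z : K, w (y - z) = 1 → w (a - y) < 1 → w (a - z) = 1 := by
      intro y z hyz hy
      have h4 : a - z = (a - y) + (y - z) := by ring
      rw [h4, Valuation.map_add_eq_of_lt_right _ (by rw [hyz]; exact hy), hyz]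
    set β := algebraMap F K b with hβ
    have hprod : (a - β) * (a - θ * β) * (a - θ ^ 2 * β) = a ^ 3 - β ^ 3 := by
      have h4 : θ ^ 3 = 1 := by linear_combination (θ - 1) * hθ1
      linear_combination (β ^ 2 * a * θ - a ^ 2 * β) * hθ1 - (β ^ 3) * h4
    have g12 : w (β - θ * β) = 1 := by
      have : β - θ * β = -(θ - 1) * β := by ring
      rw [this, map_mul, Valuation.map_neg, d1, wb, one_mul]
    have g23 : w (θ * β - θ ^ 2 * β) = 1 := by
      have : θ * β - θ ^ 2 * β = -(θ - 1) * (θ * β) := by ring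
      rw [this, map_mul, Valuation.map_neg, d1, map_mul, wb, wθ, one_mul, one_mul]
    have g13 : w (β - θ ^ 2 * β) = 1 := by
      have h4 : θ ^ 3 = 1 := by linear_combination (θ - 1) * hθ1
      have : β - θ ^ 2 * β = (θ - 1) * (θ ^ 2 * β) := by linear_combination (-β) * h4
      rw [this, map_mul, d1, map_mul, map_pow, wb, wθ, one_pow, one_mul, one_mul]
    have hTlt : exp (-(T : ℤ)) < (1 : ℤᵐ⁰) := by rw [← exp_zero, exp_lt_exp]; omega
    have hlt : w (a - β) * w (a - θ * β) * w (a - θ ^ 2 * β) < 1 := by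
      rw [← map_mul, ← map_mul, hprod]
      exact lt_of_le_of_lt hab hTlt
    have hle : w (a - β) * w (a - θ * β) * w (a - θ ^ 2 * β) ≤ exp (-(T : ℤ)) := by
      rw [← map_mul, ← map_mul, hprod]
      exact hab
    by_cases c1 : w (a - β) < 1
    · refine fin b rfl wb ?_
      rw [g1 _ _ g12 c1, g1 _ _ g13 c1, mul_one, mul_one] at hle
      exact hle
    · rw [not_lt] at c1
      by_cases c2 : w (a - θ * β) < 1
      · refine fin (ω * b) (by rw [mul_pow, hω3, one_mul]) (by
          rw [map_mul, map_mul, ← hθ, ← hβ, wθ, wb, one_mul]) ?_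
        rw [g1 _ _ (by rw [Valuation.map_sub_swap]; exact g12) c2, g1 _ _ g23 c2, mul_one,
          one_mul] at hle
        rw [map_mul]
        exact hle
      · rw [not_lt] at c2
        have c3 : w (a - θ ^ 2 * β) < 1 := by
          by_contra h
          rw [not_lt] at h
          exact absurd hlt (not_lt.2 (one_le_mul (one_le_mul c1 c2) h))
        refine fin (ω ^ 2 * b) (by
          have : (ω ^ 2 * b) ^ 3 = (ω ^ 3) ^ 2 * b ^ 3 := by ring
          rw [this, hω3, one_pow, one_mul]) (by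
          rw [map_mul, map_mul, map_pow, map_pow, ← hθ, ← hβ, wθ, wb, one_pow, one_mul]) ?_
        rw [g1 _ _ (by rw [Valuation.map_sub_swap]; exact g13) c3,
          g1 _ _ (by rw [Valuation.map_sub_swap]; exact g23) c3, one_mul, one_mul] at hle
        rw [map_mul, map_pow]
        exact hle
  · push Not at hc
    obtain ⟨p, hp⟩ := v₀.valuation_exists_uniformizer F
    obtain ⟨s, u, hs0, hu, hu1, rfl⟩ := scale (v := v₀.valuation F) (p := p) hp
      (fun a => not_lt.2 (hc a)) hN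
    have hsv : v₀.valuation F s ≠ 0 := (Valuation.ne_zero_iff _).2 hs0
    obtain ⟨m, hm⟩ : ∃ m : ℤ, v₀.valuation F s = exp m := ⟨log _, (exp_log hsv).symm⟩
    obtain ⟨r, hr⟩ := hr
    have hr0 : r ≠ 0 := by
      rintro rfl
      exact hN (by rw [hr]; ring)
    obtain ⟨k, hk⟩ : ∃ k : ℤ, v₀.valuation F r = exp k :=
      ⟨log _, (exp_log ((Valuation.ne_zero_iff _).2 hr0)).symm⟩
    have hmk : 3 * m = 2 * k := by
      have h4 := congrArg (v₀.valuation F) hr
      rw [Cb.N_mul, Cb.N_C, map_mul, hu1, mul_one, map_pow, map_pow, hm, hk, ← exp_nsmul,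
        ← exp_nsmul] at h4
      have := exp_injective h4
      rw [nsmul_eq_mul, nsmul_eq_mul] at this
      push_cast at this
      exact this
    obtain ⟨m', hm'⟩ : ∃ m', m = 2 * m' := ⟨k - m, by omega⟩
    refine ⟨1, fun a ha => ⟨e * m', ?_⟩⟩
    have ha3 : v.valuation K (a ^ 3 - 2) < 1 := lt_of_le_of_lt ha (by
      rw [← exp_zero, exp_lt_exp]; omega)
    have ha1 : v.valuation K a ≤ 1 := le_of_near _ ha3.le
    have hev1 : ∀ y : Cb F, IV (v₀.valuation F) y →
        v.valuation K ((Cb.map (algebraMap F K) y).ev a) ≤ 1 := by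
      intro y hy
      unfold Cb.ev
      refine Valuation.map_add_le _ (Valuation.map_add_le _ (hve1 hy.1) ?_) ?_
      · exact vm (hve1 hy.2.1) ha1
      · refine vm (hve1 hy.2.2) ?_
        rw [map_pow]
        exact pow_le_one' ha1 2
    have hN1 : v.valuation K (algebraMap F K u.N) = 1 := by rw [hve, hu1, one_pow]
    have h5 : v.valuation K ((Cb.map (algebraMap F K) u).ev a) = 1 := by
      have h6 := Cb.ev_mul (Cb.map (algebraMap F K) u) (Cb.map (algebraMap F K) u.adj) a
      rw [← map_mul, Cb.mul_adj, Cb.map_C] at h6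
      have h7 : (Cb.C (algebraMap F K u.N) : Cb K).ev a = algebraMap F K u.N := by simp [Cb.ev]
      rw [h7] at h6
      have h8 : v.valuation K ((Cb.map (algebraMap F K) u).ev a *
          (Cb.map (algebraMap F K) u.adj).ev a - algebraMap F K u.N) < 1 := by
        rw [h6, map_mul]
        refine mul_lt_one_of_nonneg_of_lt_one_left zero_le ha3 ?_
        have hadj := hu.adj
        refine Valuation.map_add_le _ (Valuation.map_add_le _ ?_ ?_) ?_
        · exact vm (hve1 hu.2.1) (hve1 hadj.2.2)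
        · exact vm (hve1 hu.2.2) (hve1 hadj.2.1)
        · exact vm (vm (hve1 hu.2.2) (hve1 hadj.2.2)) ha1
      rw [← hN1] at h8
      have h9 := Valuation.map_eq_of_sub_lt _ h8
      rw [hN1, map_mul] at h9
      apply le_antisymm (hev1 u hu)
      rw [← h9]
      exact mul_le_of_le_one_right' (hev1 _ hu.adj)
    have h10 : (Cb.map (algebraMap F K) (Cb.C s * u)).ev a =
        algebraMap F K s * (Cb.map (algebraMap F K) u).ev a := by
      rw [map_mul, Cb.map_C]
      simp only [Cb.ev, Cb.mul_a, Cb.mul_b, Cb.mul_c, Cb.C_a, Cb.C_b, Cb.C_c]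
      ring
    rw [h10, map_mul, h5, mul_one, hve, hm, ← exp_nsmul]
    congr 1
    rw [nsmul_eq_mul, hm']
    ring

theorem lvV_up {v₀ : HeightOneSpectrum (𝓞 F)} {v : HeightOneSpectrum (𝓞 K)}
    (hlo : v.asIdeal.LiesOver v₀.asIdeal) {x : Cb F} (h : LvV (v₀.valuation F) x) :
    LvV (v.valuation K) (Cb.map (algebraMap F K) x) := by
  have hve : ∀ y : F, v.valuation K (algebraMap F K y) =
      v₀.valuation F y ^ (v₀.asIdeal.ramificationIdx' v.asIdeal) := fun y =>
    (HeightOneSpectrum.valuation_liesOver K v₀ v y).symm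
  have hlt : ∀ y : F, v₀.valuation F y < 1 → v.valuation K (algebraMap F K y) < 1 := by
    intro y hy
    obtain ⟨n, d, hnd⟩ := v₀.exists_primeCompl_mul_eq_of_integer (K := F) y hy.le
    have hd : v.valuation K (algebraMap F K (algebraMap (𝓞 F) F d)) = 1 := by
      rw [hve]
      have : v₀.valuation F (algebraMap (𝓞 F) F d) = 1 := by
        apply le_antisymm (v₀.valuation_le_one _)
        by_contra hcon
        rw [not_le, HeightOneSpectrum.valuation_lt_one_iff_mem] at hcon
        exact d.2 hcon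
      rw [this, one_pow]
    have hn : n ∈ v₀.asIdeal := by
      rw [← HeightOneSpectrum.valuation_lt_one_iff_mem (K := F)]
      have h5 : v₀.valuation F (algebraMap (𝓞 F) F n) < 1 := by
        rw [← hnd, map_mul]
        exact lt_of_le_of_lt (mul_le_of_le_one_right' (v₀.valuation_le_one _)) hy
      exact h5
    have h9 : v.valuation K (algebraMap F K (algebraMap (𝓞 F) F n)) < 1 := by
      have e1 : algebraMap F K (algebraMap (𝓞 F) F n) =
          algebraMap (𝓞 K) K (algebraMap (𝓞 F) (𝓞 K) n) := rfl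
      rw [e1, HeightOneSpectrum.valuation_lt_one_iff_mem]
      have h10 := hlo.over
      rw [h10] at hn
      exact hn
    rw [← hnd, map_mul, map_mul, hd, mul_one] at h9
    exact h9
  obtain ⟨s, hs, h1, h2, h3⟩ := h
  refine ⟨Cb.map (algebraMap F K) s, by rw [Cb.N_map]; exact (_root_.map_ne_zero _).2 hs, ?_⟩
  rw [← map_pow, ← map_mul]
  refine ⟨?_, ?_, ?_⟩
  · show v.valuation K (algebraMap F K _) = 1
    rw [hve, h1, one_pow]
  · exact hlt _ h2
  · show v.valuation K (algebraMap F K _) ≤ 1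
    rw [hve]
    exact pow_le_one' h3 _

/-- the prime below -/
noncomputable def lo (F : Type) [Field F] [NumberField F] {K : Type} [Field K] [NumberField K]
    [Algebra F K] (v : HeightOneSpectrum (𝓞 K)) : HeightOneSpectrum (𝓞 F) :=
  ⟨v.asIdeal.under (𝓞 F), inferInstance, by
    intro h
    exact v.ne_bot (Ideal.eq_bot_of_comap_eq_bot h)⟩

theorem lo_lies (v : HeightOneSpectrum (𝓞 K)) : v.asIdeal.LiesOver (lo F v).asIdeal := ⟨rfl⟩

theorem nat_lo (v : HeightOneSpectrum (𝓞 K)) (n : ℕ) :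
    ((n : ℕ) : 𝓞 F) ∈ (lo F v).asIdeal ↔ ((n : ℕ) : 𝓞 K) ∈ v.asIdeal := by
  change _ ∈ v.asIdeal.comap _ ↔ _
  rw [Ideal.mem_comap, map_natCast]

/-- **base change of the conditions** -/
theorem PA_up {ω : F} (hω : ω ^ 2 + ω + 1 = 0) {x : Cb F} (hN : x.N ≠ 0) (hr : ∃ r, x.N = r ^ 2)
    (hE : ∀ v : HeightOneSpectrum (𝓞 K), ((6 : ℕ) : 𝓞 K) ∉ v.asIdeal →
      EvV ((lo F v).valuation F) x ∨ Even ((lo F v).asIdeal.ramificationIdx' v.asIdeal))
    (hL : ∀ v : HeightOneSpectrum (𝓞 F), ((2 : ℕ) : 𝓞 F) ∈ v.asIdeal → LvV (v.valuation F) x) :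
    PA (Cb.map (algebraMap F K) x) := by
  refine ⟨by rw [Cb.N_map]; exact (_root_.map_ne_zero _).2 hN, ?_, fun v hv => ?_, fun v hv => ?_⟩
  · obtain ⟨r, hr⟩ := hr
    exact ⟨algebraMap F K r, by rw [Cb.N_map, hr, map_pow]⟩
  · have h6 : ((6 : ℕ) : 𝓞 F) ∉ (lo F v).asIdeal := by rwa [nat_lo]
    have e6 : ((6 : ℕ) : 𝓞 F) = ((2 : ℕ) : 𝓞 F) * ((3 : ℕ) : 𝓞 F) := by push_cast; norm_num
    have h2 : ((2 : ℕ) : 𝓞 F) ∉ (lo F v).asIdeal := by
      intro h
      rw [e6] at h6
      exact h6 (Ideal.mul_mem_right _ _ h)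
    have h3 : ((3 : ℕ) : 𝓞 F) ∉ (lo F v).asIdeal := by
      intro h
      rw [e6] at h6
      exact h6 (Ideal.mul_mem_left _ _ h)
    have hone : ∀ n : ℕ, ((n : ℕ) : 𝓞 F) ∉ (lo F v).asIdeal →
        (lo F v).valuation F (n : F) = 1 := by
      intro n hn
      rw [nat_mem_iff] at hn
      exact le_antisymm (Pool.Agent.Y696.v_nat_le _ n) (not_lt.1 hn)
    exact evV_up (lo_lies v) (by exact_mod_cast hone 2 h2) (by exact_mod_cast hone 3 h3) hω hN hr
      (hE v hv)
  · exact lvV_up (lo_lies v) (hL _ ((nat_lo v 2).2 hv))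

/-- a nonsquare stays a nonsquare -/
theorem nonsq_up [IsGalois F K] (h3 : ∀ x : K, x ^ 3 ≠ 2) {x : Cb F} (hN : x.N ≠ 0)
    (hr : ∃ r, x.N = r ^ 2) (hsq : ¬ IsSquare x) : ¬ IsSquare (Cb.map (algebraMap F K) x) := by
  rintro ⟨s, hs⟩
  letI := Cb.fld h3
  obtain ⟨r, hr⟩ := hr
  have hN' : s.N ≠ 0 := by
    intro h
    apply hN
    apply (algebraMap F K).injective
    rw [← Cb.N_map, hs, Cb.N_mul, h, map_zero, mul_zero]
  have h1 : s.N ^ 2 = (algebraMap F K r) ^ 2 := by
    rw [← map_pow, ← hr, ← Cb.N_map, hs, Cb.N_mul, pow_two]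
  have hfixN : ∀ τ : K ≃ₐ[F] K, τ s.N = s.N := by
    intro τ
    rcases sq_eq_sq_iff_eq_or_eq_neg.1 h1 with h | h
    · rw [h, τ.commutes]
    · rw [h, map_neg, τ.commutes]
  have hfix : ∀ τ : K ≃ₐ[F] K, Cb.map (τ : K →+* K) s = s := by
    intro τ
    have h2 : (Cb.map (τ : K →+* K) s) ^ 2 = s ^ 2 := by
      rw [← map_pow, pow_two, ← hs]
      ext
      · exact τ.commutes x.a
      · exact τ.commutes x.b
      · exact τ.commutes x.c
    rcases sq_eq_sq_iff_eq_or_eq_neg.1 h2 with h | h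
    · exact h
    · exfalso
      have h4 := congrArg Cb.N h
      rw [Cb.N_map, Cb.N_neg] at h4
      have h5 : τ s.N = -s.N := h4
      rw [hfixN τ] at h5
      apply hN'
      have h6 : (2 : K) * s.N = 0 := by linear_combination h5
      rcases mul_eq_zero.1 h6 with h7 | h7
      · exact absurd h7 two_ne_zero
      · exact h7
  have hex : ∀ z : K, (∀ g : K ≃ₐ[F] K, g z = z) → ∃ y : F, algebraMap F K y = z := by
    haveI : Module.Finite F K := by
      haveI : IsScalarTower ℚ F K := IsScalarTower.of_algebraMap_eq fun x => by simp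
      exact Module.Finite.of_restrictScalars_finite ℚ F K
    intro z hz
    exact (IsGalois.mem_range_algebraMap_iff_fixed z).2 hz
  obtain ⟨a, ha⟩ := hex s.a fun τ => congrArg Cb.a (hfix τ)
  obtain ⟨b, hb⟩ := hex s.b fun τ => congrArg Cb.b (hfix τ)
  obtain ⟨c, hc⟩ := hex s.c fun τ => congrArg Cb.c (hfix τ)
  apply hsq
  refine ⟨⟨a, b, c⟩, ?_⟩
  apply Cb.map_inj (f := algebraMap F K) (algebraMap F K).injective
  rw [hs, map_mul]
  have : Cb.map (algebraMap F K) ⟨a, b, c⟩ = s := by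
    ext
    · exact ha
    · exact hb
    · exact hc
  rw [this]

/-- **descent of the conditions** -/
theorem desc_gd [IsGalois F K] {n : ℕ} (hn : Module.finrank F K = 2 ^ n)
    (hun : Pool.Agent.K7.H56.P.Gd F K) (h3 : ∀ x : K, x ^ 3 ≠ 2)
    (h2 : ∀ v : HeightOneSpectrum (𝓞 K), ((2 : ℕ) : 𝓞 K) ∈ v.asIdeal →
      v.valuation K 2 = exp (-1 : ℤ)) {δ : Cb K}
    (hsq : ¬ IsSquare δ) (hP : PA δ) : ∃ δ₀ : Cb F, ¬ IsSquare δ₀ ∧ PA δ₀ := by
  obtain ⟨δ₀, D, t, hD, hD0, ht0, hmap, hns, r, hr⟩ := Pool.Agent.Y696.step (L := F) (M := K) hn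
    two_ne_zero h3 PA PA.one (fun x y hx hy => hx.mul hy)
    (fun g x hx => hx.aut (g : K ≃+* K)) (fun x hx => hx.2.1) (Cb.ne_of_N hP.1) hsq hP
  have htN : t.N ≠ 0 := Cb.N_ne h3 ht0
  have hm : PA (Cb.map (algebraMap F K) δ₀) := by
    rw [hmap]
    exact hD.mul (PA.sq htN)
  have h0N : δ₀.N ≠ 0 := by
    intro h
    apply hm.1
    rw [Cb.N_map, h, map_zero]
  refine ⟨δ₀, ?_, h0N, ⟨r, hr⟩, fun v₀ hv₀ => ?_, fun v₀ hv₀ => ?_⟩
  · rintro ⟨s, hs⟩
    exact hns ⟨Cb.map (algebraMap F K) s, by rw [hs, map_mul]⟩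
  · by_cases hx : ∃ x : 𝓞 F, x ^ 3 - 2 ∈ v₀.asIdeal
    · obtain ⟨v, hlo⟩ := exists_above (K := K) v₀
      have he := hun v₀ v hlo (fun h => hv₀ (by
        have : ((6 : ℕ) : 𝓞 F) = 2 * 3 := by push_cast; norm_num
        rw [this]
        exact Ideal.mul_mem_left _ _ h)) hx
      refine EvV.desc (algebraMap F K) (val_of_unr hlo he) (hm.2.2.1 v ?_)
      rw [nat_mem_iff, ← map_natCast (algebraMap F K), val_of_unr hlo he, ← nat_mem_iff]
      exact hv₀
    · refine ⟨1, fun a ha => ?_⟩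
      exfalso
      apply hx
      have ha1 : v₀.valuation F a ≤ 1 :=
        le_of_near _ (ha.trans (by rw [← exp_zero, exp_le_exp]; norm_num))
      obtain ⟨x, hx⟩ := HeightOneSpectrum.exists_valuation_sub_lt_of_integer (K := F) v₀ ha1 1
      refine ⟨x, ?_⟩
      rw [← HeightOneSpectrum.valuation_lt_one_iff_mem (K := F)]
      change v₀.valuation F (algebraMap (𝓞 F) F (x ^ 3 - 2)) < 1
      have hx' : v₀.valuation F (algebraMap (𝓞 F) F x - a) < 1 := hx
      have ha' : v₀.valuation F (a ^ 3 - 2) < 1 :=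
        lt_of_le_of_lt ha (by rw [← exp_zero, exp_lt_exp]; norm_num)
      have e : algebraMap (𝓞 F) F (x ^ 3 - 2) = (algebraMap (𝓞 F) F x - a) *
          (algebraMap (𝓞 F) F x ^ 2 + algebraMap (𝓞 F) F x * a + a ^ 2) + (a ^ 3 - 2) := by
        rw [map_sub, map_pow, map_ofNat]
        ring
      rw [e]
      refine Valuation.map_add_lt _ ?_ ha'
      rw [map_mul]
      have hxx := v₀.valuation_le_one (K := F) x
      refine mul_lt_one_of_nonneg_of_lt_one_left zero_le hx' ?_
      refine Valuation.map_add_le _ (Valuation.map_add_le _ ?_ ?_) ?_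
      · rw [map_pow]; exact pow_le_one' hxx 2
      · rw [map_mul]; exact mul_le_one' hxx ha1
      · rw [map_pow]; exact pow_le_one' ha1 2
  · obtain ⟨v, hlo⟩ := exists_above (K := K) v₀
    have hx : ∃ x : 𝓞 F, x ^ 3 - 2 ∈ v₀.asIdeal := ⟨0, by
      have : (0 : 𝓞 F) ^ 3 - 2 = -((2 : ℕ) : 𝓞 F) := by push_cast; ring
      rw [this]
      exact neg_mem hv₀⟩
    have h3' : (3 : 𝓞 F) ∉ v₀.asIdeal := by
      intro h
      have h7 := Ideal.sub_mem _ h hv₀
      have h8 : (3 : 𝓞 F) - ((2 : ℕ) : 𝓞 F) = 1 := by push_cast; ring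
      rw [h8] at h7
      exact v₀.isPrime.ne_top ((Ideal.eq_top_iff_one _).2 h7)
    have he := hun v₀ v hlo h3' hx
    have hv2 : ((2 : ℕ) : 𝓞 K) ∈ v.asIdeal := by
      rw [nat_mem_iff, ← map_natCast (algebraMap F K), val_of_unr hlo he, ← nat_mem_iff]
      exact hv₀
    exact LvV.desc (h2 v hv2) (algebraMap F K) (val_of_unr hlo he) (Cb.ne_of_N h0N)
      (hm.2.2.2 v hv2)

end up

end Pool.Agent.K7.H56.U
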