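import Pool.Agent.K7.H56.U.J
import Pool.Agent.K7.H56.M.K
import Pool.Agent.K7.H70.AS.D
import Pool.Agent.K7.H73.BS.Per

/-!
# Local facts over the fields unramified at two, with the ramification at three of the cube roots of unity
-/

set_option autoImplicit false
set_option linter.unusedSectionVars false

namespace Pool.Agent.K7.H56.U

open WeierstrassCurve IsDedekindDomain NumberField WithZero
open scoped Classical
open Pool.Agent.Y696
open Pool.Agent.TH841.SH.D
open Pool.Agent.TH841.SH (IsR IsX gf not_isX isX_some isX_zero)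
open Pool.Agent.Y678.CM (NsRed)

/-- the local conditions -/
structure G3 (K : Type) [Field K] [NumberField K] : Prop where
  om : ∃ ω : K, ω ^ 2 + ω + 1 = 0
  two : ∀ v : HeightOneSpectrum (𝓞 K), ((2 : ℕ) : 𝓞 K) ∈ v.asIdeal →
    v.valuation K 2 = exp (-1 : ℤ)
  three : ∀ v : HeightOneSpectrum (𝓞 K), (3 : 𝓞 K) ∈ v.asIdeal → v.valuation K 3 = exp (-2 : ℤ)

section final
variable {K : Type} [Field K] [NumberField K]

lemma G3.val_cases (hK : G3 K) (v : HeightOneSpectrum (𝓞 K)) :
    (Valued.v (3 : v.adicCompletion K) = 1) ∨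
    ∃ θ : v.adicCompletion K, θ ^ 2 = -3 ∧ Valued.v θ = exp (-1 : ℤ) := by
  have h3 : (3 : v.adicCompletion K) = algebraMap K (v.adicCompletion K) 3 := by rw [map_ofNat]
  by_cases hv : (3 : 𝓞 K) ∈ v.asIdeal
  · right
    obtain ⟨ω, hω⟩ := hK.om
    have hθ : (2 * ω + 1) ^ 2 = -3 := by linear_combination 4 * hω
    refine ⟨algebraMap K (v.adicCompletion K) (2 * ω + 1), ?_, ?_⟩
    · rw [← map_pow, hθ, map_neg, map_ofNat]
    · rw [Pool.Agent.H723R3.valued_algebraMap]
      have h4 := hK.three v hv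
      have h5 : v.valuation K (2 * ω + 1) ^ 2 = exp (-2 : ℤ) := by
        rw [← map_pow, hθ, Valuation.map_neg, h4]
      have h6 : v.valuation K (2 * ω + 1) ≠ 0 := by
        intro h0
        rw [h0, zero_pow two_ne_zero] at h5
        exact WithZero.exp_ne_zero h5.symm
      obtain ⟨k, hk⟩ := exp_rep h6
      rw [hk, ← exp_nsmul] at h5
      have h7 := exp_injective h5
      rw [hk]
      congr 1
      rw [nsmul_eq_mul] at h7
      push_cast at h7
      omega
  · left
    rw [h3, Pool.Agent.H723R3.valued_algebraMap]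
    have : (3 : K) = algebraMap (𝓞 K) K 3 := by rw [map_ofNat]
    rw [this, HeightOneSpectrum.valuation_of_algebraMap]
    exact (HeightOneSpectrum.intValuation_eq_one_iff).2 hv

/-- **the points of nonsingular reduction form a subgroup of odd index** -/
theorem G3.tam_all (hK : G3 K) (v : HeightOneSpectrum (𝓞 K)) :
    ∃ H : AddSubgroup ((E0 K).baseChange (v.adicCompletion K)).toAffine.Point,
      (∀ P, P ∈ H ↔ NsRed Valued.v ((E0 K).baseChange (v.adicCompletion K)) P) ∧ Odd H.index := by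
  rcases hK.val_cases v with h | ⟨θ, h1, h2⟩
  · exact ⟨⊤, fun P => ⟨fun _ => nsred_all _ h (bc_coeffs _) P, fun _ => trivial⟩, by
      rw [AddSubgroup.index_top]; exact odd_one⟩
  · exact Pool.Agent.Y678.CM.tam_odd _ h1 h2 (bc_coeffs _)

/-- **the model is minimal at every finite place** -/
theorem G3.min_all (hK : G3 K) (v : HeightOneSpectrum (𝓞 K)) :
    WeierstrassCurve.IsMinimal (v.adicCompletionIntegers K)
      ((E0 K).baseChange (v.adicCompletion K)) := by
  have hbc : (E0 K).baseChange (v.adicCompletion K) = E0 (v.adicCompletion K) := E0_map _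
  rw [hbc]
  apply isMinimal_E0
  rintro u hu ⟨r, hr⟩
  have h1 : Valued.v (u : v.adicCompletion K) < 1 := (Pool.Agent.W189.NF.mem_max_iff v u).1 hu
  have h2 : Valued.v (u : v.adicCompletion K) ≤ exp (-1 : ℤ) := exp_lt h1
  have h3 : Valued.v (r : v.adicCompletion K) ≤ 1 := r.2
  have h4 : (27 : v.adicCompletion K) = (u : v.adicCompletion K) ^ 12 * (r : v.adicCompletion K) := by
    have := congrArg (algebraMap (v.adicCompletionIntegers K) (v.adicCompletion K)) hr
    rw [map_mul, map_pow, map_ofNat] at this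
    exact this
  have h5 : Valued.v (27 : v.adicCompletion K) ≤ exp (-12 : ℤ) := by
    rw [h4, map_mul, map_pow]
    calc _ ≤ (exp (-1 : ℤ)) ^ 12 * 1 := by gcongr
      _ = exp (-12 : ℤ) := by rw [mul_one, ← exp_nsmul]; rfl
  have h6 : (exp (-6 : ℤ) : ℤᵐ⁰) ≤ Valued.v (27 : v.adicCompletion K) := by
    rcases hK.val_cases v with h | ⟨θ, e1, e2⟩
    · have : (27 : v.adicCompletion K) = 3 ^ 3 := by norm_num
      rw [this, map_pow, h, one_pow, ← exp_zero, exp_le_exp]
      norm_num
    · have : (27 : v.adicCompletion K) = -θ ^ 6 := by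
        linear_combination (θ ^ 4 - 3 * θ ^ 2 + 9) * e1
      rw [this, Valuation.map_neg, map_pow, e2, ← exp_nsmul]
      exact le_of_eq rfl
  have h7 := h6.trans h5
  rw [exp_le_exp] at h7
  norm_num at h7

lemma G3.disc_odd (hK : G3 K) : ¬ (2 : ℤ) ∣ discr K := by
  rw [NumberField.not_dvd_discr_iff_forall_mem K (𝓞 K) Int.prime_two]
  intro P hP h2
  have h2' : ((2 : ℕ) : 𝓞 K) ∈ P := by exact_mod_cast h2
  have hP0 : P ≠ ⊥ := by
    rintro rfl
    rw [Ideal.mem_bot] at h2'
    exact absurd h2' (by norm_num)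
  let v : HeightOneSpectrum (𝓞 K) := ⟨P, hP, hP0⟩
  have h3 : v.valuation K 2 = WithZero.exp (-1 : ℤ) := hK.two v h2'
  let Q : HeightOneSpectrum ℤ := ⟨Ideal.span {((2 : ℕ) : ℤ)},
    (Ideal.span_singleton_prime (by norm_num)).2 (Nat.prime_iff_prime_int.1 Nat.prime_two), by
      rw [Ne, Ideal.span_singleton_eq_bot]
      norm_num⟩
  have hmax : Q.asIdeal.IsMaximal := Q.isPrime.isMaximal Q.ne_bot
  have hlo : v.asIdeal.LiesOver Q.asIdeal := by
    constructor
    refine (hmax.eq_of_le ?_ ?_)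
    · exact Ideal.IsPrime.ne_top inferInstance
    · rw [Ideal.span_singleton_le_iff_mem, Ideal.under_def, Ideal.mem_comap]
      simpa using h2'
  have h1 := HeightOneSpectrum.valuation_liesOver (K := ℚ) K Q v (2 : ℚ)
  have h4 : Q.valuation ℚ (2 : ℚ) = WithZero.exp (-1 : ℤ) := by
    have := HeightOneSpectrum.intValuation_singleton Q (r := ((2 : ℕ) : ℤ))
      (by norm_num) rfl
    rw [← this, ← HeightOneSpectrum.valuation_of_algebraMap (K := ℚ)]
    simp
  rw [h4, map_ofNat, h3, ← WithZero.exp_nsmul] at h1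
  have h5 := WithZero.exp_injective h1
  have h6 : Q.asIdeal.ramificationIdx' v.asIdeal = 1 := by
    rw [nsmul_eq_mul] at h5
    have : ((Q.asIdeal.ramificationIdx' v.asIdeal : ℕ) : ℤ) = 1 := by linarith
    exact_mod_cast this
  rw [Ideal.ramificationIdx'_eq_ramificationIdx _ _ Q.ne_bot] at h6
  have : Finite (ℤ ⧸ P.under ℤ) := by
    rw [← hlo.over]
    exact Ideal.finiteQuotientOfFreeOfNeBot _ Q.ne_bot
  have hmax' : (P.under ℤ).IsMaximal := by
    have := hlo.over
    change _ = P.under ℤ at this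
    rw [← this]
    exact hmax
  have : Finite (P.under ℤ).ResidueField := by
    have := Ideal.bijective_algebraMap_quotient_residueField (P.under ℤ)
    exact Finite.of_surjective _ this.2
  exact (Ideal.ramificationIdx_eq_one_iff (q := P) (R := ℤ)).1 h6


end final

section small
variable {K₀ K : Type} [Field K₀] [NumberField K₀] [Field K] [NumberField K] [Algebra K₀ K]

/-- the valuation of three -/
lemma G3.val3_small (hK : G3 K) (v : HeightOneSpectrum (𝓞 K₀)) (hv : (3 : 𝓞 K₀) ∈ v.asIdeal) :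
    v.valuation K₀ 3 = WithZero.exp (-1 : ℤ) ∨ v.valuation K₀ 3 = WithZero.exp (-2 : ℤ) := by
  obtain ⟨w, hlo⟩ := exists_above (F := K₀) (K := K) v
  have hw := (three_below hlo).1 hv
  have h3 : w.valuation K 3 = WithZero.exp (-2 : ℤ) := hK.three w hw
  have h4 := HeightOneSpectrum.valuation_liesOver K v w (3 : K₀)
  rw [map_ofNat (algebraMap K₀ K), h3] at h4
  set e := v.asIdeal.ramificationIdx' w.asIdeal with he
  have hx : v.valuation K₀ 3 ≠ 0 := (Valuation.ne_zero_iff _).2 (by norm_num)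
  obtain ⟨k, hk⟩ := exp_rep hx
  rw [hk, ← WithZero.exp_nsmul] at h4
  have h5 := WithZero.exp_injective h4
  rw [nsmul_eq_mul] at h5
  rw [hk]
  have h6 : (k : ℤ) ∣ 2 := ⟨-(e : ℤ), by linarith⟩
  have h7 : k < 0 := by
    by_contra h
    rw [not_lt] at h
    have : (0 : ℤ) ≤ (e : ℤ) * k := by positivity
    omega
  have h8 : -k ∣ 2 := (neg_dvd).2 h6
  have h9 : -k ≤ 2 := Int.le_of_dvd (by norm_num) h8
  have h10 : k = -1 ∨ k = -2 := by omega
  rcases h10 with rfl | rfl
  · left; rfl
  · right; rfl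

/-- the model is minimal -/
lemma G3.min_small (hK : G3 K) (v : HeightOneSpectrum (𝓞 K₀)) :
    WeierstrassCurve.IsMinimal (v.adicCompletionIntegers K₀)
      ((E0 K₀).baseChange (v.adicCompletion K₀)) := by
  have hbc : (E0 K₀).baseChange (v.adicCompletion K₀) = E0 (v.adicCompletion K₀) := E0_map _
  rw [hbc]
  apply isMinimal_E0
  rintro u hu ⟨r, hr⟩
  have h1 : Valued.v (u : v.adicCompletion K₀) < 1 := (Pool.Agent.W189.NF.mem_max_iff v u).1 hu
  have h2 : Valued.v (u : v.adicCompletion K₀) ≤ WithZero.exp (-1 : ℤ) := exp_lt h1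
  have h3 : Valued.v (r : v.adicCompletion K₀) ≤ 1 := r.2
  have h4 : (27 : v.adicCompletion K₀) =
      (u : v.adicCompletion K₀) ^ 12 * (r : v.adicCompletion K₀) := by
    have := congrArg (algebraMap (v.adicCompletionIntegers K₀) (v.adicCompletion K₀)) hr
    rw [map_mul, map_pow, map_ofNat] at this
    exact this
  have h5 : Valued.v (27 : v.adicCompletion K₀) ≤ WithZero.exp (-12 : ℤ) := by
    rw [h4, map_mul, map_pow]
    calc _ ≤ (WithZero.exp (-1 : ℤ)) ^ 12 * 1 := by gcongr
      _ = WithZero.exp (-12 : ℤ) := by rw [mul_one, ← WithZero.exp_nsmul]; rfl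
  have h6 : (WithZero.exp (-6 : ℤ) : WithZero (Multiplicative ℤ)) ≤ Valued.v (27 : v.adicCompletion K₀) := by
    have e : (27 : v.adicCompletion K₀) = (algebraMap K₀ (v.adicCompletion K₀) 3) ^ 3 := by
      rw [map_ofNat]; norm_num
    rw [e, map_pow, Pool.Agent.H723R3.valued_algebraMap]
    by_cases hv : (3 : 𝓞 K₀) ∈ v.asIdeal
    · rcases hK.val3_small v hv with h | h <;>
        (rw [h, ← WithZero.exp_nsmul, WithZero.exp_le_exp]
         simp)
    · have : v.valuation K₀ 3 = 1 := by
        have h3' : (3 : K₀) = algebraMap (𝓞 K₀) K₀ 3 := by rw [map_ofNat]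
        rw [h3', HeightOneSpectrum.valuation_of_algebraMap]
        exact (HeightOneSpectrum.intValuation_eq_one_iff).2 hv
      rw [this, one_pow, ← WithZero.exp_zero, WithZero.exp_le_exp]
      norm_num
  have h7 := h6.trans h5
  rw [WithZero.exp_le_exp] at h7
  norm_num at h7

/-- the local indices are odd -/
lemma G3.tam_small (hK : G3 K) (v : HeightOneSpectrum (𝓞 K₀)) :
    ∃ H : AddSubgroup ((E0 K₀).baseChange (v.adicCompletion K₀)).toAffine.Point,
      (∀ P, P ∈ H ↔ NsRed Valued.v ((E0 K₀).baseChange (v.adicCompletion K₀)) P) ∧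
        Odd H.index := by
  obtain ⟨w, hlo⟩ := exists_above (F := K₀) (K := K) v
  exact Pool.Agent.Y275.QB.jobB v w hlo (hK.tam_all w)


end small

end Pool.Agent.K7.H56.U
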