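import Pool.Agent.K7.H56.U.K

/-!
# The value of the L-function at one in terms of the value of the function of the Hecke character
-/

set_option autoImplicit false
set_option linter.unusedSectionVars false

namespace Pool.Agent.K7.H56.U

open NumberField IsDedekindDomain WithZero WeierstrassCurve
open Pool.Agent.K7.H56 (VV)
open Pool.Agent.K7.H70.AS
open Pool.Agent.R430
open Pool.Agent.W192.HK
open Pool.Agent.Y696
open Pool.Agent.TH841.SH.D
open Pool.Agent.TH936.CM H667R3 Pool.Agent.TH936.PU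
open Pool.Agent.W189.NF (aV eV redMap Ov card_res finite_res)
open Pool.Agent.Y688 (HL)
open scoped Classical

/-- the `L`-function is continued -/
structure IsL (k : Type) [Field k] [NumberField k] (Lf : ℂ → ℂ) : Prop where
  mero : MeromorphicOn Lf Set.univ
  an : AnalyticAt ℂ Lf 1
  eq : ∀ s : ℂ, 3 / 2 < s.re → LSeriesSummable ((fun n : ℤ => (n : ℂ)) ∘ (E27 k).LFunction) s ∧
      Lf s = (E27 k).LSeries s

/-- the value at one is unique -/
lemma IsL.uniq {k : Type} [Field k] [NumberField k] {L1 L2 : ℂ → ℂ} (h1 : IsL k L1)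
    (h2 : IsL k L2) : L1 1 = L2 1 :=
  mero_eq2 h1.mero h2.mero (fun s hs => by rw [(h1.eq s hs).2, (h2.eq s hs).2]) h1.an h2.an

/-- the normalized value -/
noncomputable def xv (k : Type) [Field k] [NumberField k] (Λ : PeriodPair) (ω : ℝ) (Lf : ℂ → ℂ) : ℂ :=
  Lf 1 * (Real.sqrt |(discr k : ℝ)| : ℝ) / period k Λ ω

section
variable {K : Type} [Field K] [NumberField K]

/-- **the field with the cube roots of unity** -/
theorem lval_big (hGK : G3 K) (ι : Pool.Agent.Y688.RR →+* 𝓞 K) {d : ℕ}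
    (hd : Module.finrank ℚ K = 2 * d) {f : ℂ → ℂ} (hf : VV ι (X0 1) f) :
    IsL K (Lam f) ∧ ∀ (Λ : PeriodPair) (ω : ℝ) (Ω : ℂ), IsPeriods Λ ω → Cur Λ Ω →
      ∀ (Γ : Type) [LinearOrderedCommGroupWithZero Γ] (v : Valuation ℂ Γ), v 2 < 1 →
        v (xv K Λ ω (Lam f)) = v (f 1) * vc v (f 1) / (v Ω ^ d * vc v Ω ^ d) := by
  refine ⟨⟨Lam_mero hf, Lam_an hf, fun s hs => ⟨(LSeries_hasProd' (E0 K)
    (hasseN (iE ι) hGK.three) hs).1, (Lam_eq hf hGK.three hs).symm⟩⟩,
    fun Λ ω Ω hΛ hC Γ _ v hv => ?_⟩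
  have hL := HL_of_Cur hC
  have h8 : v ((Real.sqrt |((3 : ℤ) : ℝ)| : ℝ) : ℂ) = 1 := v_sqrtD hv (by norm_num)
  have h9 : v ((Real.sqrt |(discr K : ℝ)| : ℝ) : ℂ) = 1 := v_sqrtD hv hGK.disc_odd
  have hr1 : InfinitePlace.nrRealPlaces K = 0 := by
    obtain ⟨ω', hω'⟩ := hGK.om
    exact InfinitePlace.IsPrimitiveRoot.nrRealPlaces_eq_zero_of_two_lt (by norm_num) (prim_three hω')
  have hr2 : InfinitePlace.nrComplexPlaces K = d := by
    have h10 := InfinitePlace.card_add_two_mul_card_eq_rank K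
    rw [hr1, hd] at h10
    omega
  unfold xv period
  rw [hr1, hr2, pow_zero, one_mul, area hC.lat, map_div₀, map_mul, map_pow, map_mul, h8, h9,
    one_mul, mul_one, Lam_one, map_mul, map_mul, mul_pow, vc_apply, vc_apply]

variable {K₀ : Type} [Field K₀] [NumberField K₀] [Algebra K₀ K]

/-- **the field without cube roots of unity** -/
theorem lval_small (hGK : G3 K) (ι : Pool.Agent.Y688.RR →+* 𝓞 K) {d : ℕ}
    (hd : Module.finrank ℚ K = 2 * d) {f : ℂ → ℂ} (hf : VV ι (X0 1) f)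
    (h2K : Module.finrank K₀ K = 2) (hns : ∀ x : K₀, x ^ 2 ≠ -3) :
    IsL K₀ (fun s => (starRingEnd ℂ) (f ((starRingEnd ℂ) s))) ∧
    ∀ (Λ : PeriodPair) (ω : ℝ) (Ω : ℂ), IsPeriods Λ ω → Cur Λ Ω →
      ∀ (Γ : Type) [LinearOrderedCommGroupWithZero Γ] (v : Valuation ℂ Γ), v 2 < 1 →
        v (xv K₀ Λ ω (fun s => (starRingEnd ℂ) (f ((starRingEnd ℂ) s)))) =
          vc v (f 1) / vc v Ω ^ d := by
  obtain ⟨τ, Q⟩ := mkQdN (K₀ := K₀) h2K hGK.val3_small hns (iE ι)
  refine ⟨⟨mero_conj hf.mero, an_conj (by rw [map_one]; exact hf.an), fun s hs => ?_⟩,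
    fun Λ ω Ω hΛ hC Γ _ v hv => ?_⟩
  · have k1 := LSeries_hasProd' (E0 K₀) Q.hasseN hs
    refine ⟨k1.1, ?_⟩
    have k2 : HasProd (fun v : HeightOneSpectrum (𝓞 K₀) => XX v s) ((E0 K₀).LSeries s) := k1.2
    have k3 : HasProd (fun v : HeightOneSpectrum (𝓞 K) => yw (iE ι) v s)
        ((starRingEnd ℂ) (f ((starRingEnd ℂ) s))) := by
      have h3 := VV_conj (N := K) (ι := ι) (f := f) (X := X0 1) (X0_ic 1)
        (by rw [X0_conj (N := K) (n := 1)]; exact hf) hs
      refine h3.congr_fun fun v => ?_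
      rw [hX1]
      unfold Pool.Agent.Y696.HH yw
      rw [one_mul]
    have k4 := (Equiv.sigmaFiberEquiv (und0 K₀ (K := K))).hasProd_iff.2 k3
    have k5 := k4.sigma (g := fun v => XX v s) fun v => Q.fibN v s
    show (starRingEnd ℂ) (f ((starRingEnd ℂ) s)) = (E0 K₀).LSeries s
    exact (k2.unique k5).symm
  · have k2 : v ((Real.sqrt |((3 : ℤ) : ℝ)| : ℝ) : ℂ) = 1 := v_sqrtD hv (by norm_num)
    have k3 : v ((Real.sqrt |(discr K₀ : ℝ)| : ℝ) : ℂ) = 1 :=
      v_sqrtD hv (fun hd => hGK.disc_odd (hd.trans (discr_dvd_discr K₀ K)))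
    have k4 : v ((2 * |((starRingEnd ℂ) Λ.ω₁ * Λ.ω₂).im| : ℝ) : ℂ) = v (ω : ℂ) ^ 2 := by
      rw [area hC.lat, map_mul, map_mul, k2, one_mul, v_period hC hΛ.real hv,
        v_period_conj hC hΛ.real hv]
      exact (pow_two _).symm
    have k5 : InfinitePlace.nrRealPlaces K₀ + 2 * InfinitePlace.nrComplexPlaces K₀ = d := by
      rw [InfinitePlace.card_add_two_mul_card_eq_rank K₀]
      have e2 := Module.finrank_mul_finrank ℚ K₀ K
      rw [h2K, hd] at e2
      omega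
    unfold xv period
    simp only [map_one]
    rw [map_div₀, map_mul, map_mul, map_pow, map_pow, k4, k3, mul_one, ← pow_mul,
      ← pow_add, k5, vc_apply, vc_apply, v_period_conj hC hΛ.real hv]

/-- the complex conjugate of the `L`-function -/
lemma IsL.conj {Lf : ℂ → ℂ} (h : IsL K Lf) :
    IsL K (fun s => (starRingEnd ℂ) (Lf ((starRingEnd ℂ) s))) := by
  refine ⟨mero_conj h.mero, an_conj (by rw [map_one]; exact h.an), fun s hs => ⟨(h.eq s hs).1, ?_⟩⟩
  have hs' : 3 / 2 < ((starRingEnd ℂ) s).re := by rwa [Complex.conj_re]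
  rw [(h.eq _ hs').2]
  show (starRingEnd ℂ) (LSeries ((fun n : ℤ => (n : ℂ)) ∘ (E27 K).LFunction)
    ((starRingEnd ℂ) s)) = LSeries ((fun n : ℤ => (n : ℂ)) ∘ (E27 K).LFunction) s
  unfold LSeries
  rw [Complex.conj_tsum]
  refine tsum_congr fun n => ?_
  unfold LSeries.term
  split_ifs with hn
  · exact map_zero _
  · rw [map_div₀]
    congr 1
    · simp
    · have h1 : (starRingEnd ℂ) ((n : ℂ) ^ (starRingEnd ℂ) s) = (n : ℂ) ^ s := by
        have h2 := Complex.cpow_conj (n : ℂ) s (by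
          rw [Complex.natCast_arg]
          exact Real.pi_pos.ne)
        rw [Complex.conj_natCast] at h2
        rw [h2, Complex.conj_conj]
      exact h1

/-- the value at one is real -/
lemma IsL.real {Lf : ℂ → ℂ} (h : IsL K Lf) : (starRingEnd ℂ) (Lf 1) = Lf 1 := by
  have h1 := h.conj.uniq h
  simpa only [map_one] using h1

end

end Pool.Agent.K7.H56.U
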