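import Pool.Agent.K7.H56.U.L

/-!
# Adjoining a square root of minus three to an extension
-/

set_option autoImplicit false
set_option linter.all false

namespace Pool.Agent.K7.H56.U

open NumberField IsDedekindDomain WithZero
open Pool.Agent.K7.H56
open Pool.Agent.R430
open Pool.Agent.Y696
open Pool.Agent.K7.H70.AS (exists_iota0 ram_mul)
open Pool.Agent.Y688 (HL)

open Polynomial in
theorem exists_M' {F K : Type} [Field F] [NumberField F] [Field K] [NumberField K] [Algebra F K]
    [IsGalois F K] (hns : ∀ x : K, x ^ 2 ≠ -3) :
    ∃ (M : Type) (_ : Field M) (_ : NumberField M) (_ : Algebra K M) (_ : Algebra F M)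
      (_ : IsScalarTower F K M), IsGalois F M ∧
      Module.finrank K M = 2 ∧ ∃ a : M, a ^ 2 = -3 := by
  classical
  haveI : Module.Finite F K := by
    haveI : IsScalarTower ℚ F K := IsScalarTower.of_algebraMap_eq fun x => by simp
    exact Module.Finite.of_restrictScalars_finite ℚ F K
  let g : F[X] := X ^ 2 + C 3
  let gK : K[X] := g.map (algebraMap F K)
  have hgK : gK = X ^ 2 + C 3 := by
    show (X ^ 2 + C 3 : F[X]).map (algebraMap F K) = X ^ 2 + C 3
    rw [Polynomial.map_add, Polynomial.map_pow, Polynomial.map_X, Polynomial.map_C, map_ofNat]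
  let M := gK.SplittingField
  have hM : NumberField M := NumberField.of_module_finite K M
  have tow : IsScalarTower F K M := inferInstance
  have hfinM : Module.Finite F M := Module.Finite.trans K M
  obtain ⟨p, hp, hsp⟩ := IsGalois.is_separable_splitting_field F K
  have hg0 : g ≠ 0 := (monic_X_pow_add_C (3 : F) two_ne_zero).ne_zero
  have hsp2 : IsSplittingField K M (g.map (algebraMap F K)) := inferInstanceAs (IsSplittingField K gK.SplittingField gK)
  have hsp3 : IsSplittingField F M (p * g) := IsSplittingField.mul (F := F) (K := K) M p g hp.ne_zero hg0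
  have hnorm : Normal F M := Normal.of_isSplittingField (p * g)
  have hgal : IsGalois F M := ⟨⟩
  have hmap : gK.map (algebraMap K M) = X ^ 2 + C 3 :=
    (congrArg (fun q => Polynomial.map (algebraMap K M) q) hgK).trans (by
      simp only [Polynomial.map_add, Polynomial.map_pow, Polynomial.map_X, Polynomial.map_ofNat, map_ofNat])
  obtain ⟨a, ha⟩ := (SplittingField.splits gK).exists_eval_eq_zero (by
    rw [hmap, degree_X_pow_add_C two_pos]
    norm_num)
  rw [hmap, eval_add, eval_pow, eval_X, eval_C] at ha
  have ha2 : a ^ 2 = -3 := eq_neg_of_add_eq_zero_left ha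
  refine ⟨M, inferInstance, hM, inferInstance, inferInstance, tow, hgal, ?_, a, ha2⟩
  have htop : IntermediateField.adjoin K {a} = (⊤ : IntermediateField K M) := by
    have h1 := IsSplittingField.adjoin_rootSet M gK
    rw [← top_le_iff]
    have h2 : Algebra.adjoin K (gK.rootSet M) ≤ (IntermediateField.adjoin K {a}).toSubalgebra := by
      rw [Algebra.adjoin_le_iff]
      intro x hx
      have h3 : x ^ 2 = -3 := by
        have h4 : aeval x (X ^ 2 + C 3 : K[X]) = 0 :=
          (congrArg (fun q => aeval x q) hgK).symm.trans (mem_rootSet.1 hx).2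
        rw [map_add, map_pow, aeval_X, aeval_C, map_ofNat] at h4
        exact eq_neg_of_add_eq_zero_left h4
      have h5 : (x - a) * (x + a) = 0 := by linear_combination h3 - ha2
      have hmem : a ∈ IntermediateField.adjoin K {a} := IntermediateField.mem_adjoin_simple_self K a
      rcases mul_eq_zero.1 h5 with h6 | h6
      · rw [sub_eq_zero.1 h6]; exact hmem
      · rw [eq_neg_of_add_eq_zero_left h6]; exact neg_mem hmem
    rw [h1] at h2
    exact fun x _ => h2 (Algebra.mem_top)
  have hirr : Irreducible (Polynomial.X ^ 2 - Polynomial.C (-3 : K)) := by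
    rw [X_pow_sub_C_irreducible_iff_of_prime Nat.prime_two]
    exact fun b => hns b
  have hmin : minpoly K a = Polynomial.X ^ 2 - Polynomial.C (-3 : K) := by
    refine (minpoly.eq_of_irreducible_of_monic hirr ?_ (Polynomial.monic_X_pow_sub_C _ two_ne_zero)).symm
    rw [map_sub, map_pow, Polynomial.aeval_X, Polynomial.aeval_C, map_neg, map_ofNat, ha2, sub_self]
  have hint : IsIntegral K a := Algebra.IsIntegral.isIntegral a
  have h3 := IntermediateField.adjoin.finrank hint
  rw [hmin, Polynomial.natDegree_X_pow_sub_C, htop, IntermediateField.finrank_top'] at h3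
  exact h3

/-- the field generated by the square root of minus three -/
theorem exists_E {F M : Type} [Field F] [NumberField F] [Field M] [NumberField M] [Algebra F M]
    {a : M} (ha : a ^ 2 = -3) (hns : ∀ x : F, x ^ 2 ≠ -3) :
    ∃ E : IntermediateField F M, Module.finrank F E = 2 ∧ ∃ b : E, b ^ 2 = -3 := by
  haveI : Module.Finite F M := by
    haveI : IsScalarTower ℚ F M := IsScalarTower.of_algebraMap_eq fun x => by simp
    exact Module.Finite.of_restrictScalars_finite ℚ F M
  have hirr : Irreducible (Polynomial.X ^ 2 - Polynomial.C (-3 : F)) := by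
    rw [X_pow_sub_C_irreducible_iff_of_prime Nat.prime_two]
    exact fun b => hns b
  have hmin : minpoly F a = Polynomial.X ^ 2 - Polynomial.C (-3 : F) := by
    refine (minpoly.eq_of_irreducible_of_monic hirr ?_ (Polynomial.monic_X_pow_sub_C _ two_ne_zero)).symm
    rw [map_sub, map_pow, Polynomial.aeval_X, Polynomial.aeval_C, map_neg, map_ofNat, ha, sub_self]
  have hint : IsIntegral F a := Algebra.IsIntegral.isIntegral a
  have h3 := IntermediateField.adjoin.finrank hint
  rw [hmin, Polynomial.natDegree_X_pow_sub_C] at h3
  exact ⟨IntermediateField.adjoin F {a}, h3,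
    ⟨⟨a, IntermediateField.mem_adjoin_simple_self F a⟩, Subtype.ext ha⟩⟩

end Pool.Agent.K7.H56.U
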