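import Pool.Agent.K7.H56.U.M

/-!
# Comparison of the values at one
-/

set_option autoImplicit false
set_option linter.all false

namespace Pool.Agent.K7.H56.U

open NumberField IsDedekindDomain WithZero WeierstrassCurve
open Pool.Agent.K7.H56
open Pool.Agent.K7.H56.P
open Pool.Agent.K7.H70.AS
open Pool.Agent.R430
open Pool.Agent.W192.HK
open Pool.Agent.Y696
open Pool.Agent.TH936.CM H667R3 Pool.Agent.TH936.PU
open Pool.Agent.Y688 (HL)
open Pool.Agent.K7.H56.M (Rm act_z three_own exists_z up_two up_three unr2_down z_coe)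
open scoped Classical

/-- the bound of the value -/
theorem bound {N : Type} [Field N] [NumberField N] (ι : Pool.Agent.Y688.RR →+* 𝓞 N) {d : ℕ}
    (hd : Module.finrank ℚ N = 2 * d) (hU : Unr2 N) {f : ℂ → ℂ} (hf : VV ι (X0 1) f)
    {L : PeriodPair} {Ω : ℂ} (hL : HL L Ω) {Γ : Type} [LinearOrderedCommGroupWithZero Γ]
    {v : Valuation ℂ Γ} (hv : v 2 < 1) : v (f 1) ≤ v Ω ^ d := by
  obtain ⟨g, g', hg, -, h⟩ := core_gen2 N ι d hd hU 1 (X0 1) (X0 1) (X0_ih 1) (X0_ih 1) odd_one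
  have h1 : f 1 = g 1 := mero_eq2 hf.mero hg.mero (fun s hs =>
    (VV_prodh (X0_ih 1) hf hs).unique (VV_prodh (X0_ih 1) hg hs)) hf.an hg.an
  rw [h1]
  exact (h L Ω hL Γ v hv).1

/-- the relation of the value of the L-function to the value of the function of the Hecke character -/
def Rel (k : Type) [Field k] [NumberField k] (f : ℂ → ℂ) (d : ℕ) : Prop :=
  ∃ Lf : ℂ → ℂ, IsL k Lf ∧ ∀ (Λ : PeriodPair) (ω : ℝ) (Ω : ℂ), IsPeriods Λ ω → Cur Λ Ω →
    ∀ (Γ : Type) [LinearOrderedCommGroupWithZero Γ] (v : Valuation ℂ Γ), v 2 < 1 →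
      v (xv k Λ ω Lf) ≤ 1 ∧
        (v (xv k Λ ω Lf) = 1 ↔ (v (f 1) = v Ω ^ d ∧ vc v (f 1) = vc v Ω ^ d))

section
variable {K : Type} [Field K] [NumberField K]

theorem rel_big (hGK : G3 K) (ι : Pool.Agent.Y688.RR →+* 𝓞 K) {d : ℕ}
    (hd : Module.finrank ℚ K = 2 * d) {f : ℂ → ℂ} (hf : VV ι (X0 1) f) : Rel K f d := by
  obtain ⟨h1, h2⟩ := lval_big hGK ι hd hf
  refine ⟨Lam f, h1, fun Λ ω Ω hΛ hC Γ _ v hv => ?_⟩
  have hL := HL_of_Cur hC
  rw [h2 Λ ω Ω hΛ hC Γ v hv]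
  have hA := bound ι hd hGK.two hf hL hv
  have hB := bound ι hd hGK.two hf hL (v := vc v) (vc_two hv)
  have hC0 : v Ω ^ d ≠ 0 := pow_ne_zero _ ((Valuation.ne_zero_iff _).2 hL.ne)
  have hD0 : vc v Ω ^ d ≠ 0 := pow_ne_zero _ ((Valuation.ne_zero_iff _).2 hL.ne)
  have hpos : 0 < v Ω ^ d * vc v Ω ^ d := zero_lt_iff.2 (mul_ne_zero hC0 hD0)
  constructor
  · rw [div_le_one₀ hpos]
    exact mul_le_mul' hA hB
  · rw [div_eq_one_iff_eq hpos.ne']
    constructor
    · intro h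
      have e1 : v (f 1) = v Ω ^ d := by
        by_contra hne
        have hlt := lt_of_le_of_ne hA hne
        have h5 : v (f 1) * vc v (f 1) < v Ω ^ d * vc v Ω ^ d :=
          lt_of_le_of_lt (mul_le_mul' le_rfl hB) (mul_lt_mul_of_pos_right hlt (zero_lt_iff.2 hD0))
        rw [h] at h5
        exact lt_irrefl _ h5
      refine ⟨e1, ?_⟩
      rw [e1] at h
      exact mul_left_cancel₀ hC0 h
    · rintro ⟨e1, e2⟩
      rw [e1, e2]

variable {K₀ : Type} [Field K₀] [NumberField K₀] [Algebra K₀ K]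

theorem rel_small (hGK : G3 K) (ι : Pool.Agent.Y688.RR →+* 𝓞 K) {d : ℕ}
    (hd : Module.finrank ℚ K = 2 * d) {f : ℂ → ℂ} (hf : VV ι (X0 1) f)
    (h2K : Module.finrank K₀ K = 2) (hns : ∀ x : K₀, x ^ 2 ≠ -3) : Rel K₀ f d := by
  obtain ⟨h1, h2⟩ := lval_small hGK ι hd hf h2K hns
  refine ⟨_, h1, fun Λ ω Ω hΛ hC Γ _ v hv => ?_⟩
  have hL := HL_of_Cur hC
  rw [h2 Λ ω Ω hΛ hC Γ v hv]
  have hB := bound ι hd hGK.two hf hL (v := vc v) (vc_two hv)
  have hD0 : vc v Ω ^ d ≠ 0 := pow_ne_zero _ ((Valuation.ne_zero_iff _).2 hL.ne)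
  have hreal : (starRingEnd ℂ) (f 1) = f 1 := by
    have h3 := h1.real
    simp only [map_one] at h3
    rw [Complex.conj_conj] at h3
    exact h3.symm
  have e1 : vc v (f 1) = v (f 1) := by rw [vc_apply, hreal]
  have e2 : vc v Ω = v Ω := by
    rw [vc_apply, v_period_conj hC hΛ.real hv, v_period hC hΛ.real hv]
  constructor
  · rw [div_le_one₀ (zero_lt_iff.2 hD0)]
    exact hB
  · rw [div_eq_one_iff_eq hD0, e1, e2]
    exact (and_self_iff).symm

end

lemma exists_iotaR {N : Type} [Field N] [NumberField N] {a : N} (ha : a ^ 2 = -3) :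
    Nonempty (Pool.Agent.Y688.RR →+* 𝓞 N) := by
  obtain ⟨ι'⟩ := exists_iota (N := N) ⟨(a - 1) / 2, by
    field_simp
    linear_combination ha⟩
  exact ⟨ι'.comp (RingEquiv.subringCongr RR_eis : Pool.Agent.Y688.RR →+* eis)⟩

lemma om_of {N : Type} [Field N] [NumberField N] {a : N} (ha : a ^ 2 = -3) :
    ∃ ω : N, ω ^ 2 + ω + 1 = 0 := ⟨(a - 1) / 2, by
    field_simp
    linear_combination ha⟩

lemma even_deg {N : Type} [Field N] [NumberField N] {a : N} (ha : a ^ 2 = -3) :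
    ∃ d, Module.finrank ℚ N = 2 * d := by
  have hns : ∀ x : ℚ, x ^ 2 ≠ -3 := by
    intro x hx
    have := sq_nonneg x
    rw [hx] at this
    norm_num at this
  obtain ⟨E, hE, -⟩ := exists_E ha hns
  refine ⟨Module.finrank E N, ?_⟩
  rw [← Module.finrank_mul_finrank ℚ E N, hE]

section NM
variable {N M : Type} [Field N] [NumberField N] [Field M] [NumberField M] [Algebra N M]

/-- the local conditions go down -/
lemma g3_down (hM : G3 M) {a : N} (ha : a ^ 2 = -3) : G3 N where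
  om := om_of ha
  two := unr2_down (K := M) hM.two
  three := fun v hv => by
    rcases hM.val3_small (K₀ := N) v hv with h | h
    · exfalso
      have h0 : v.valuation N a ≠ 0 := (Valuation.ne_zero_iff _).2 (by
        rintro rfl
        norm_num at ha)
      obtain ⟨k, hk⟩ : ∃ k : ℤ, v.valuation N a = exp k :=
        ⟨log (v.valuation N a), (exp_log h0).symm⟩
      have h5 : v.valuation N 3 = exp (2 * k) := by
        have : (3 : N) = -a ^ 2 := by rw [ha, neg_neg]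
        rw [this, Valuation.map_neg, map_pow, hk, ← exp_nsmul, nsmul_eq_mul]
        norm_num
      rw [h] at h5
      have h6 := exp_injective h5
      omega
    · exact h

variable [IsGalois N M]

/-- **the comparison over the top field** -/
theorem cmp_good {r : ℕ} (hr : Module.finrank N M = 2 ^ r) {a : M} (ha : a ^ 2 = -3) (hM : G3 M)
    (hG : Gd N M) : ∃ (ι : Pool.Agent.Y688.RR →+* 𝓞 M) (d : ℕ) (f : ℂ → ℂ) (dN : ℕ)
      (fN : ℂ → ℂ), Module.finrank ℚ M = 2 * d ∧ VV ι (X0 1) f ∧ Rel N fN dN ∧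
      ∀ (L : PeriodPair) (Ω : ℂ), HL L Ω → ∀ (Γ : Type) [LinearOrderedCommGroupWithZero Γ]
        (v : Valuation ℂ Γ), v 2 < 1 → (v (f 1) = v Ω ^ d ↔ v (fN 1) = v Ω ^ dN) := by
  by_cases hns : ∀ x : N, x ^ 2 ≠ -3
  · obtain ⟨E, hE, b, hb⟩ := exists_E ha hns
    obtain ⟨ι⟩ := exists_iotaR hb
    obtain ⟨d, hd⟩ := even_deg hb
    have hGE : G3 E := g3_down hM hb
    have hfr : ∃ m, r = m + 1 ∧ Module.finrank E M = 2 ^ m := by
      have h1 := Module.finrank_mul_finrank N E M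
      rw [hE, hr] at h1
      cases r with
      | zero =>
        rw [pow_zero] at h1
        omega
      | succ m =>
        refine ⟨m, rfl, ?_⟩
        rw [pow_succ, mul_comm] at h1
        exact Nat.eq_of_mul_eq_mul_right two_pos h1
    obtain ⟨m, rfl, hm⟩ := hfr
    have hNC : NC N E := nc_of_tower (K := M) hr
    have hGEM : Gd E M := gd_top (F := N) hNC hG
    have hdM : Module.finrank ℚ M = 2 * (d * 2 ^ m) := by
      rw [← Module.finrank_mul_finrank ℚ E M, hd, hm, mul_assoc]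
    obtain ⟨fE, -, hfE, -, -⟩ := core_gen2 E ι d hd hGE.two 1 (X0 1) (X0 1) (X0_ih 1) (X0_ih 1)
      odd_one
    obtain ⟨fM, -, hfM, -, -⟩ := core_gen2 M ((algebraMap (𝓞 E) (𝓞 M)).comp ι) _ hdM hM.two 1
      (X0 1) (X0 1) (X0_ih 1) (X0_ih 1) odd_one
    refine ⟨(algebraMap (𝓞 E) (𝓞 M)).comp ι, d * 2 ^ m, fM, d, fE, hdM, hfM,
      rel_small hGE ι hd hfE hE hns, fun L Ω hL Γ _ v hv => ?_⟩
    exact tower_good (F := E) (K := M) ι hm hM.two hGEM hd hfE hL hv m M (AlgHom.id E M) hm fM hfM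
  · push Not at hns
    obtain ⟨b, hb⟩ := hns
    obtain ⟨ι⟩ := exists_iotaR hb
    obtain ⟨d, hd⟩ := even_deg hb
    have hGE : G3 N := g3_down hM hb
    have hdM : Module.finrank ℚ M = 2 * (d * 2 ^ r) := by
      rw [← Module.finrank_mul_finrank ℚ N M, hd, hr, mul_assoc]
    obtain ⟨fE, -, hfE, -, -⟩ := core_gen2 N ι d hd hGE.two 1 (X0 1) (X0 1) (X0_ih 1) (X0_ih 1)
      odd_one
    obtain ⟨fM, -, hfM, -, -⟩ := core_gen2 M ((algebraMap (𝓞 N) (𝓞 M)).comp ι) _ hdM hM.two 1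
      (X0 1) (X0 1) (X0_ih 1) (X0_ih 1) odd_one
    refine ⟨(algebraMap (𝓞 N) (𝓞 M)).comp ι, d * 2 ^ r, fM, d, fE, hdM, hfM,
      rel_big hGE ι hd hfE, fun L Ω hL Γ _ v hv => ?_⟩
    exact tower_good (F := N) (K := M) ι hr hM.two hG hd hfE hL hv r M (AlgHom.id N M) hr fM hfM

/-- **a bad prime** -/
theorem cmp_bad {r : ℕ} (hr : Module.finrank N M = 2 ^ r) {a : M} (ha : a ^ 2 = -3) (hM : G3 M)
    {v₀ : HeightOneSpectrum (𝓞 N)} {w : HeightOneSpectrum (𝓞 M)}
    (hlo : w.asIdeal.LiesOver v₀.asIdeal) (h3 : (3 : 𝓞 N) ∉ v₀.asIdeal) {x : 𝓞 N}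
    (hx : x ^ 3 - 2 ∈ v₀.asIdeal) (hram : v₀.asIdeal.ramificationIdx' w.asIdeal ≠ 1) :
    ∃ (ι : Pool.Agent.Y688.RR →+* 𝓞 M) (d : ℕ) (f : ℂ → ℂ),
      Module.finrank ℚ M = 2 * d ∧ VV ι (X0 1) f ∧
      ∀ (L : PeriodPair) (Ω : ℂ), HL L Ω → ∀ (Γ : Type) [LinearOrderedCommGroupWithZero Γ]
        (v : Valuation ℂ Γ), v 2 < 1 → v (f 1) < v Ω ^ d := by
  by_cases hns : ∀ x : N, x ^ 2 ≠ -3
  · obtain ⟨E, hE, b, hb⟩ := exists_E ha hns
    obtain ⟨ι⟩ := exists_iotaR hb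
    obtain ⟨d, hd⟩ := even_deg hb
    obtain ⟨z, hz⟩ := exists_z hb
    have hGE : G3 E := g3_down hM hb
    have hfr : ∃ m, r = m + 1 ∧ Module.finrank E M = 2 ^ m := by
      have h1 := Module.finrank_mul_finrank N E M
      rw [hE, hr] at h1
      cases r with
      | zero =>
        rw [pow_zero] at h1
        omega
      | succ m =>
        refine ⟨m, rfl, ?_⟩
        rw [pow_succ, mul_comm] at h1
        exact Nat.eq_of_mul_eq_mul_right two_pos h1
    obtain ⟨m, rfl, hm⟩ := hfr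
    have hdM : Module.finrank ℚ M = 2 * (d * 2 ^ m) := by
      rw [← Module.finrank_mul_finrank ℚ E M, hd, hm, mul_assoc]
    obtain ⟨fM, -, hfM, -, -⟩ := core_gen2 M ((algebraMap (𝓞 E) (𝓞 M)).comp ι) _ hdM hM.two 1
      (X0 1) (X0 1) (X0_ih 1) (X0_ih 1) odd_one
    -- the prime of `E`
    set P : HeightOneSpectrum (𝓞 E) := lo E w with hP
    have hPw : w.asIdeal.LiesOver P.asIdeal := lo_lies w
    have hPv : P.asIdeal.LiesOver v₀.asIdeal := by
      refine ⟨?_⟩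
      rw [hlo.over, hPw.over, Ideal.under_under]
    have hmem : ∀ y : 𝓞 N, y ∈ v₀.asIdeal ↔ algebraMap (𝓞 N) (𝓞 E) y ∈ P.asIdeal := by
      intro y
      rw [hPv.over]
      rfl
    have h3P : (3 : 𝓞 E) ∉ P.asIdeal := by
      intro h
      apply h3
      rw [hmem, map_ofNat]
      exact h
    have hgal : IsGalois N E := gal2' hE
    have hePv : v₀.asIdeal.ramificationIdx' P.asIdeal = 1 := by
      refine ram_one hPv fun σ hσ => ?_
      by_contra hne
      have h4 := hσ z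
      rw [act_z hE hns hz hne] at h4
      apply h3P
      have : (3 : 𝓞 E) = (-1 - z - z) * (1 + 2 * z) := by linear_combination 4 * hz
      rw [this]
      exact Ideal.mul_mem_right _ _ h4
    have heP : P.asIdeal.ramificationIdx' w.asIdeal ≠ 1 := by
      intro h
      apply hram
      rw [ram_mul hPv hPw, hePv, h]
    have hR : Rm E w := by
      by_contra hcon
      exact heP (ram_one hPw fun σ hσ => Pool.Agent.K7.H56.M.not_rm hcon σ hσ)
    refine ⟨(algebraMap (𝓞 E) (𝓞 M)).comp ι, d * 2 ^ m, fM, hdM, hfM,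
      fun L Ω hL Γ _ v hv => ?_⟩
    refine tower_bad (F := E) (K := M) ι hm hM.two hd hR h3P
      (x := algebraMap (𝓞 N) (𝓞 E) x) ?_ hfM hL hv
    rw [← map_pow, ← map_ofNat (algebraMap (𝓞 N) (𝓞 E)) 2, ← map_sub]
    exact (hmem _).1 hx
  · push Not at hns
    obtain ⟨b, hb⟩ := hns
    obtain ⟨ι⟩ := exists_iotaR hb
    obtain ⟨d, hd⟩ := even_deg hb
    have hdM : Module.finrank ℚ M = 2 * (d * 2 ^ r) := by
      rw [← Module.finrank_mul_finrank ℚ N M, hd, hr, mul_assoc]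
    obtain ⟨fM, -, hfM, -, -⟩ := core_gen2 M ((algebraMap (𝓞 N) (𝓞 M)).comp ι) _ hdM hM.two 1
      (X0 1) (X0 1) (X0_ih 1) (X0_ih 1) odd_one
    have hR : Rm N w := by
      by_contra hcon
      exact hram (ram_one hlo fun σ hσ => Pool.Agent.K7.H56.M.not_rm hcon σ hσ)
    have hdn : Pool.Agent.Y688.dn N w = v₀ := by
      apply HeightOneSpectrum.ext
      rw [hlo.over]
      rfl
    refine ⟨(algebraMap (𝓞 N) (𝓞 M)).comp ι, d * 2 ^ r, fM, hdM, hfM,
      fun L Ω hL Γ _ v hv => ?_⟩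
    exact tower_bad (F := N) (K := M) ι hr hM.two hd hR (by rw [hdn]; exact h3)
      (x := x) (by rw [hdn]; exact hx) hfM hL hv

end NM

end Pool.Agent.K7.H56.U
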