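import Pool.Agent.K7.H56.U.N

/-!
# The top field
-/

set_option autoImplicit false
set_option linter.all false

namespace Pool.Agent.K7.H56.U

open NumberField IsDedekindDomain WithZero WeierstrassCurve
open Pool.Agent.K7.H56
open Pool.Agent.K7.H56.P
open Pool.Agent.K7.H70.AS
open Pool.Agent.R430
open Pool.Agent.W192.HK
open Pool.Agent.Y696
open Pool.Agent.TH936.CM H667R3 Pool.Agent.TH936.PU
open Pool.Agent.Y688 (HL)
open Pool.Agent.K7.H56.M (Rm act_z exists_z up_two up_three unr2_down z_coe)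
open scoped Classical

/-- at most quadratic ramification above three -/
def E3 (K : Type) [Field K] [NumberField K] : Prop :=
  ∀ v : HeightOneSpectrum (𝓞 K), (3 : 𝓞 K) ∈ v.asIdeal →
    v.valuation K 3 = exp (-1 : ℤ) ∨ v.valuation K 3 = exp (-2 : ℤ)

/-- the properties of the top field -/
structure Top (N K M : Type) [Field N] [NumberField N] [Field K] [NumberField K] [Field M]
    [NumberField M] [Algebra N K] [Algebra K M] [Algebra N M] [IsScalarTower N K M] : Prop where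
  galN : IsGalois N M
  galK : IsGalois K M
  degK : ∃ n, Module.finrank K M = 2 ^ n
  degN : ∃ n, Module.finrank N M = 2 ^ n
  sq : ∃ a : M, a ^ 2 = -3
  g3 : G3 M
  rel : ∀ (ι : Pool.Agent.Y688.RR →+* 𝓞 M) (d : ℕ) (f : ℂ → ℂ), Module.finrank ℚ M = 2 * d →
    VV ι (X0 1) f → Rel K f d
  unr : ∀ (v : HeightOneSpectrum (𝓞 K)) (w : HeightOneSpectrum (𝓞 M)),
    w.asIdeal.LiesOver v.asIdeal → (3 : 𝓞 K) ∉ v.asIdeal →
    v.asIdeal.ramificationIdx' w.asIdeal = 1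

lemma three_own' {K : Type} [Field K] [NumberField K] {a : K} (ha : a ^ 2 = -3) (h3 : E3 K)
    (v : HeightOneSpectrum (𝓞 K)) (hv : (3 : 𝓞 K) ∈ v.asIdeal) :
    v.valuation K 3 = exp (-2 : ℤ) := by
  rcases h3 v hv with h | h
  · exfalso
    have h0 : v.valuation K a ≠ 0 := (Valuation.ne_zero_iff _).2 (by
      rintro rfl
      norm_num at ha)
    obtain ⟨k, hk⟩ : ∃ k : ℤ, v.valuation K a = exp k :=
      ⟨log (v.valuation K a), (exp_log h0).symm⟩
    have h5 : v.valuation K 3 = exp (2 * k) := by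
      have : (3 : K) = -a ^ 2 := by rw [ha, neg_neg]
      rw [this, Valuation.map_neg, map_pow, hk, ← exp_nsmul, nsmul_eq_mul]
      norm_num
    rw [h] at h5
    have h6 := exp_injective h5
    omega
  · exact h

section
variable {N K : Type} [Field N] [NumberField N] [Field K] [NumberField K] [Algebra N K]
  [IsGalois N K]

theorem exists_top' {r : ℕ} (hr : Module.finrank N K = 2 ^ r) (hU : Unr2 K) (h3 : E3 K) :
    ∃ (M : Type) (_ : Field M) (_ : NumberField M) (_ : Algebra K M) (_ : Algebra N M)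
      (_ : IsScalarTower N K M), Top N K M := by
  by_cases hns : ∀ x : K, x ^ 2 ≠ -3
  · obtain ⟨M, i1, i2, i3, i4, i5, hgal, hfr, a, ha⟩ := exists_M' (F := N) hns
    have hgal2 : IsGalois K M := gal2' hfr
    obtain ⟨z, hz⟩ := exists_z ha
    have hG : G3 M := ⟨om_of ha, up_two hfr hns hz hU, up_three hfr hns hz h3⟩
    refine ⟨M, i1, i2, i3, i4, i5, hgal, hgal2, ⟨1, by rw [hfr, pow_one]⟩, ⟨r + 1, ?_⟩, ⟨a, ha⟩,
      hG, fun ι d f hd hf => rel_small hG ι hd hf hfr hns, fun v w hlo hv => ?_⟩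
    · rw [← Module.finrank_mul_finrank N K M, hr, hfr, pow_succ]
    · refine ram_one hlo fun σ hσ => ?_
      by_contra hne
      have h4 := hσ z
      rw [act_z hfr hns hz hne] at h4
      apply hv
      have e : (3 : 𝓞 M) = (-1 - z - z) * (1 + 2 * z) := by linear_combination 4 * hz
      have h5 : (3 : 𝓞 M) ∈ w.asIdeal := by
        rw [e]
        exact Ideal.mul_mem_right _ _ h4
      have := hlo.over
      rw [this]
      change algebraMap (𝓞 K) (𝓞 M) 3 ∈ w.asIdeal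
      rw [map_ofNat]
      exact h5
  · push Not at hns
    obtain ⟨a, ha⟩ := hns
    have hG : G3 K := ⟨om_of ha, hU, three_own' ha h3⟩
    refine ⟨K, inferInstance, inferInstance, inferInstance, inferInstance, inferInstance,
      inferInstance, inferInstance, ⟨0, by rw [Module.finrank_self, pow_zero]⟩, ⟨r, hr⟩, ⟨a, ha⟩,
      hG, fun ι d f hd hf => rel_big hG ι hd hf, fun v w hlo hv => ?_⟩
    refine ram_one hlo fun σ hσ => ?_
    exact AlgEquiv.ext fun x => σ.commutes x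

variable {M : Type} [Field M] [NumberField M] [Algebra K M] [Algebra N M] [IsScalarTower N K M]

lemma Top.gd (h : Top N K M) (hG : Gd N K) : Gd N M := by
  intro v₀ w hlo h3 hx
  have hlo1 : (lo K w).asIdeal.LiesOver v₀.asIdeal := by
    refine ⟨?_⟩
    have hPw := lo_lies (F := K) w
    rw [hlo.over, hPw.over, Ideal.under_under]
  have h3' : (3 : 𝓞 K) ∉ (lo K w).asIdeal := by
    intro h
    apply h3
    rw [hlo1.over]
    change algebraMap (𝓞 N) (𝓞 K) 3 ∈ (lo K w).asIdeal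
    rw [map_ofNat]
    exact h
  rw [ram_mul hlo1 (lo_lies w), hG v₀ _ hlo1 h3 hx, h.unr _ _ (lo_lies w) h3']

/-- **the comparison of the values, if the ramification is good** -/
theorem val_good {r : ℕ} (hr : Module.finrank N K = 2 ^ r) (hU : Unr2 K) (h3 : E3 K)
    (hG : Gd N K) : ∃ LN LK : ℂ → ℂ, IsL N LN ∧ IsL K LK ∧
      ∀ (Λ : PeriodPair) (ω : ℝ), IsPeriods Λ ω →
      ∀ (Γ : Type) [LinearOrderedCommGroupWithZero Γ] (v : Valuation ℂ Γ), v 2 < 1 →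
        v (xv N Λ ω LN) ≤ 1 ∧ v (xv K Λ ω LK) ≤ 1 ∧
        (v (xv K Λ ω LK) = 1 ↔ v (xv N Λ ω LN) = 1) := by
  obtain ⟨M, _, _, _, _, _, T⟩ := exists_top' (N := N) hr hU h3
  haveI := T.galN
  obtain ⟨n, hn⟩ := T.degN
  obtain ⟨a, ha⟩ := T.sq
  obtain ⟨ι, d, f, dN, fN, hd, hf, ⟨LN, hLN, hRN⟩, hcmp⟩ := cmp_good hn ha T.g3 (T.gd hG)
  obtain ⟨LK, hLK, hRK⟩ := T.rel ι d f hd hf
  refine ⟨LN, LK, hLN, hLK, fun Λ ω hΛ Γ _ v hv => ?_⟩
  obtain ⟨Ω, hC⟩ := cur_of hΛ.g₂ hΛ.g₃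
  have hL := HL_of_Cur hC
  obtain ⟨h1, h2⟩ := hRN Λ ω Ω hΛ hC Γ v hv
  obtain ⟨h4, h5⟩ := hRK Λ ω Ω hΛ hC Γ v hv
  refine ⟨h1, h4, ?_⟩
  rw [h2, h5, hcmp Λ Ω hL Γ v hv, hcmp Λ Ω hL Γ (vc v) (vc_two hv)]

/-- **the value, if the ramification is bad** -/
theorem val_bad {r : ℕ} (hr : Module.finrank N K = 2 ^ r) (hU : Unr2 K) (h3 : E3 K)
    (hG : ¬ Gd N K) : ∃ LK : ℂ → ℂ, IsL K LK ∧
      ∀ (Λ : PeriodPair) (ω : ℝ), IsPeriods Λ ω →
      ∀ (Γ : Type) [LinearOrderedCommGroupWithZero Γ] (v : Valuation ℂ Γ), v 2 < 1 →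
        v (xv K Λ ω LK) < 1 := by
  obtain ⟨M, _, _, _, _, _, T⟩ := exists_top' (N := N) hr hU h3
  haveI := T.galN
  obtain ⟨n, hn⟩ := T.degN
  obtain ⟨a, ha⟩ := T.sq
  unfold Pool.Agent.K7.H56.P.Gd at hG
  push Not at hG
  obtain ⟨v₀, v, hlo, h30, ⟨x, hx⟩, hram⟩ := hG
  obtain ⟨w, hw⟩ := exists_above (K := M) v
  have hlo' : w.asIdeal.LiesOver v₀.asIdeal := Ideal.LiesOver.trans w.asIdeal v.asIdeal v₀.asIdeal
  have hram' : v₀.asIdeal.ramificationIdx' w.asIdeal ≠ 1 := by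
    rw [ram_mul hlo hw]
    intro h
    exact hram (Nat.eq_one_of_mul_eq_one_right h)
  obtain ⟨ι, d, f, hd, hf, hval⟩ := cmp_bad hn ha T.g3 hlo' h30 hx hram'
  obtain ⟨LK, hLK, hRK⟩ := T.rel ι d f hd hf
  refine ⟨LK, hLK, fun Λ ω hΛ Γ _ v hv => ?_⟩
  obtain ⟨Ω, hC⟩ := cur_of hΛ.g₂ hΛ.g₃
  have hL := HL_of_Cur hC
  obtain ⟨h4, h5⟩ := hRK Λ ω Ω hΛ hC Γ v hv
  refine lt_of_le_of_ne h4 fun h => ?_
  exact (hval Λ Ω hL Γ v hv).ne (h5.1 h).1

end

end Pool.Agent.K7.H56.U
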