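import Pool.Agent.K7.H56.U.P
import Pool.Agent.Y696.Gn

/-!
# The Selmer group if the elements that satisfy the conditions are squares
-/

set_option autoImplicit false
set_option linter.all false

namespace Pool.Agent.K7.H56.U

open WeierstrassCurve IsDedekindDomain NumberField WithZero
open scoped Classical
open Pool.Agent.Y696
open Pool.Agent.TH841.SH.D
open Pool.Agent.TH841.SH (IsR IsX gf not_isX isX_some isX_zero)
open Pool.Agent.Y678.CM (NsRed)

/-- fields where the elements that satisfy the conditions are squares -/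
structure Gc (K : Type) [Field K] [NumberField K] : Prop where
  om : ∃ ω : K, ω ^ 2 + ω + 1 = 0
  cub : ∀ x : K, x ^ 3 ≠ 2
  two : ∀ v : HeightOneSpectrum (𝓞 K), ((2 : ℕ) : 𝓞 K) ∈ v.asIdeal →
    v.valuation K 2 = exp (-1 : ℤ)
  sq : ∀ δ : Cb K, PA δ → IsSquare δ

section final
variable {K : Type} [Field K] [NumberField K]

lemma Gc.exists_RD (hK : Gc K) : Nonempty (RD K) := by
  obtain ⟨ω, hω⟩ := hK.om
  obtain ⟨ρ, hρ⟩ := IsAlgClosed.exists_pow_nat_eq (2 : AlgebraicClosure K) (n := 3) (by norm_num)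
  exact ⟨{ ω := ω
           hω := hω
           h3 := hK.cub
           ρ := ρ
           hρ := hρ }⟩

/-- **the Selmer group vanishes** -/
theorem Gc.sel16 (hK : Gc K)
    {f : Coch (W16 K)} (hf : IsCoc (W16 K) f) (h2 : ∀ σ, f σ + f σ = 0)
    (hloc : ∀ v : HeightOneSpectrum (𝓞 K), LocTriv (W16 K) (v.adicCompletion K) f) :
    ∃ T : Pt (W16 K) (AlgebraicClosure K), T + T = 0 ∧
      ∀ σ : Gal K, f σ = act (W16 K) σ.toAlgHom T - T := by
  obtain ⟨D⟩ := hK.exists_RD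
  obtain ⟨δ, w, hw0, hw, hwX, hwN, hr, hN, hsq⟩ := D.glo hf h2
  apply hsq
  refine hK.sq δ ⟨hN, hr, fun v hv => ?_, fun v hv => ?_⟩
  · exact D.ev_of_loc h2 hw hwX hwN hv (hloc v) hN
  · exact D.lv_of_loc h2 hw hwX hwN (hK.two v hv) (hloc v) hN

/-- locally trivial cocycles killed by two -/
theorem Gc.selE (hK : Gc K)
    {f : Coch (E0 K)} (hf : IsCoc (E0 K) f) (h2 : ∀ σ, f σ + f σ = 0)
    (hloc : ∀ v : HeightOneSpectrum (𝓞 K), LocTriv (E0 K) (v.adicCompletion K) f) :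
    ∃ T : Pt (E0 K) (AlgebraicClosure K), T + T = 0 ∧
      ∀ σ : Gal K, f σ = act (E0 K) σ.toAlgHom T - T := by
  obtain ⟨T, hT, h⟩ := hK.sel16 (coc_Phi hf)
    (fun σ => by rw [← map_add, h2, map_zero])
    (fun v => by
      have : CharZero (v.adicCompletion K) :=
        charZero_of_injective_algebraMap (algebraMap K (v.adicCompletion K)).injective
      exact loc_Phi (hloc v))
  refine ⟨(Pool.Agent.Y696.Phi K _).symm T, ?_, fun σ => ?_⟩
  · rw [← map_add, hT, map_zero]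
  · apply (Pool.Agent.Y696.Phi K (AlgebraicClosure K)).injective
    have h1 : Pool.Agent.Y696.Phi K _ (f σ) = act (W16 K) σ.toAlgHom T - T := h σ
    rw [h1, map_sub, Phi_act, AddEquiv.apply_symm_apply]

/-- **no element of order two in the Tate-Shafarevich group** -/
theorem Gc.sha_two (hK : Gc K)
    (x : Pool.Agent.TH841.NF.D.Sha (E0 K)) (hx : x + x = 0) : x = 0 := by
  obtain ⟨D⟩ := hK.exists_RD
  obtain ⟨⟨f, hf⟩, rfl⟩ := QuotientAddGroup.mk_surjective x
  have h1 : (⟨f, hf⟩ + ⟨f, hf⟩ : Pool.Agent.TH841.NF.D.shaCoc (E0 K)) ∈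
      (cob (E0 K)).addSubgroupOf (Pool.Agent.TH841.NF.D.shaCoc (E0 K)) := by
    rw [← QuotientAddGroup.eq_zero_iff]
    exact hx
  obtain ⟨Q, hQ⟩ : IsCob (E0 K) (f + f) := h1
  obtain ⟨Q', hQ'⟩ := halve D Q
  have hf' : Pool.Agent.TH841.NF.D.IsShaCoc (E0 K) f := hf
  let b : Coch (E0 K) := fun σ : Gal K => act (E0 K) σ.toAlgHom Q' - Q'
  let g : Coch (E0 K) := f - b
  have hgσ : ∀ σ, g σ = f σ - (act (E0 K) σ.toAlgHom Q' - Q') := fun σ => rfl
  have hgc : IsCoc (E0 K) g := by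
    have := coc_add hf'.1 (coc_neg (coc_of_pt (E0 K) Q'))
    rw [← sub_eq_add_neg] at this
    exact this
  have hg2 : ∀ σ, g σ + g σ = 0 := by
    intro σ
    have h3 : f σ + f σ = act (E0 K) σ.toAlgHom Q - Q := hQ σ
    rw [hgσ]
    have e : f σ - (act (E0 K) σ.toAlgHom Q' - Q') + (f σ - (act (E0 K) σ.toAlgHom Q' - Q')) =
        (f σ + f σ) - ((act (E0 K) σ.toAlgHom Q' + act (E0 K) σ.toAlgHom Q') - (Q' + Q')) := by
      abel
    rw [e, h3, ← map_add, ← hQ', sub_self]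
  have hgl : ∀ v : HeightOneSpectrum (𝓞 K), LocTriv (E0 K) (v.adicCompletion K) g := by
    intro v ι
    obtain ⟨P, hP⟩ := hf'.2.1 v ι
    refine ⟨P - act (E0 K) ι Q', fun τ σ h => ?_⟩
    have h3 := hP τ σ h
    have h4 : act (E0 K) ι (act (E0 K) σ.toAlgHom Q') =
        act (E0 K) (τ.toAlgHom.restrictScalars K) (act (E0 K) ι Q') := by
      rw [act_act, act_act]
      congr 2
      ext z
      exact (h z).symm
    rw [hgσ, map_sub, map_sub, map_sub, h3, h4]
    abel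
  obtain ⟨T, hT, h⟩ := hK.selE hgc hg2 hgl
  refine (QuotientAddGroup.eq_zero_iff (⟨f, hf⟩ : Pool.Agent.TH841.NF.D.shaCoc (E0 K))).2 ?_
  change IsCob (E0 K) f
  refine ⟨T + Q', fun σ => ?_⟩
  have h5 := h σ
  rw [hgσ] at h5
  have h6 : f σ = (act (E0 K) σ.toAlgHom T - T) + (act (E0 K) σ.toAlgHom Q' - Q') := by
    rw [← h5]; abel
  rw [h6, map_add]
  abel

/-- **the rational points are divisible by two** -/
theorem Gc.div_two (hK : Gc K) (P : Pt (E0 K) K) :
    ∃ Q : Pt (E0 K) K, P = Q + Q := by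
  obtain ⟨D⟩ := hK.exists_RD
  set j : K →ₐ[K] AlgebraicClosure K := Algebra.ofId K _ with hj
  obtain ⟨Q, hQ⟩ := halve D (act (E0 K) j P)
  have hP : ∀ σ : Gal K, act (E0 K) σ.toAlgHom (act (E0 K) j P) = act (E0 K) j P := by
    intro σ
    rw [act_act]
    congr 1
    congr 1
    exact AlgHom.ext fun _ => σ.commutes _
  have hloc : ∀ v : HeightOneSpectrum (𝓞 K), LocTriv (E0 K) (v.adicCompletion K)
      (fun σ : Gal K => act (E0 K) σ.toAlgHom Q - Q) := by
    intro v ι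
    refine ⟨act (E0 K) ι Q, fun τ σ h => ?_⟩
    have h4 : act (E0 K) ι (act (E0 K) σ.toAlgHom Q) =
        act (E0 K) (τ.toAlgHom.restrictScalars K) (act (E0 K) ι Q) := by
      rw [act_act, act_act]
      congr 2
      ext z
      exact (h z).symm
    rw [map_sub, h4]
  obtain ⟨T, hT, h⟩ := hK.selE (coc_of_pt (E0 K) Q) (fun σ => by
      have e : act (E0 K) σ.toAlgHom Q - Q + (act (E0 K) σ.toAlgHom Q - Q) =
        (act (E0 K) σ.toAlgHom Q + act (E0 K) σ.toAlgHom Q) - (Q + Q) := by abel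
      rw [e, ← map_add, ← hQ, hP, sub_self]) hloc
  have hfix : ∀ σ : Gal K, act (E0 K) σ.toAlgHom (Q - T) = Q - T := by
    intro σ
    have h5 : act (E0 K) σ.toAlgHom Q - Q = act (E0 K) σ.toAlgHom T - T := h σ
    rw [map_sub]
    have : act (E0 K) σ.toAlgHom Q = act (E0 K) σ.toAlgHom T - T + Q := by rw [← h5]; abel
    rw [this]
    abel
  obtain ⟨R, hR⟩ : ∃ R : Pt (E0 K) K, act (E0 K) j R = Q - T := by
    rcases pt_cases (Q - T) with h0 | ⟨x, y, hn', h0⟩
    · exact ⟨0, by rw [h0, map_zero]⟩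
    · have hxy : ∀ σ : Gal K, σ x = x ∧ σ y = y := by
        intro σ
        have h5 := hfix σ
        rw [h0] at h5
        exact mk_ext.1 h5
      obtain ⟨x₀, hx⟩ := fixm (k := K) x fun σ => (hxy σ).1
      obtain ⟨y₀, hy⟩ := fixm (k := K) y fun σ => (hxy σ).2
      subst hx hy
      have hns : ((E0 K).baseChange K).toAffine.Nonsingular x₀ y₀ :=
        (Affine.baseChange_nonsingular (E0 K) j.injective ..).mp hn'
      exact ⟨mkp hns, by rw [h0]; rfl⟩
  refine ⟨R, ?_⟩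
  apply act_inj (E0 K) j
  rw [map_add, hR, hQ]
  have e : Q - T + (Q - T) = (Q + Q) - (T + T) := by abel
  rw [e, hT, sub_zero]

theorem Gc.pts_odd (hK : Gc K) :
    Finite (E0 K).toAffine.Point ∧ Odd (Nat.card (E0 K).toAffine.Point) := by
  refine @Pool.Agent.Y784.E3.fin_odd K _ _ (Classical.decEq K) fun P => ?_
  obtain ⟨Q, hQ⟩ := hK.div_two P
  refine ⟨Q, ?_⟩
  rw [two_nsmul]
  exact hQ

/-- **the Selmer group is trivial** -/
theorem Gc.s2 (hK : Gc K) : S2 K :=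
  (sel_iff hK.cub).2 ⟨hK.pts_odd.1, fun s hs => hK.sha_two s (by rw [← two_nsmul]; exact hs)⟩

end final

end Pool.Agent.K7.H56.U
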