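import Pool.Agent.K7.H56.U.Q

/-!
# The Selmer groups over a field and a Galois extension of 2-power degree
-/

set_option autoImplicit false
set_option linter.all false

namespace Pool.Agent.K7.H56.U

open NumberField IsDedekindDomain WithZero WeierstrassCurve
open Pool.Agent.K7.H56
open Pool.Agent.K7.H56.P
open Pool.Agent.K7.H70.AS (ram_mul gal2' exists_mid nc_of_tower NC)
open Pool.Agent.R430
open Pool.Agent.Y696 (Cb IV EvV LvV PA nat_mem_iff val_of_unr exists_above E27)
open Pool.Agent.K7.H56.M (Rm act_z exists_z up_two up_three unr2_down z_coe)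
open scoped Classical

section ram

variable {E M : Type} [Field E] [NumberField E] [Field M] [NumberField M] [Algebra E M]
  [IsGalois E M]

/-- the ramification index is even -/
theorem even_ram {m : ℕ} (hm : Module.finrank E M = 2 ^ m) {P : HeightOneSpectrum (𝓞 E)}
    {w v : HeightOneSpectrum (𝓞 M)} (hw : w.asIdeal.LiesOver P.asIdeal)
    (hv : v.asIdeal.LiesOver P.asIdeal) (hne : P.asIdeal.ramificationIdx' w.asIdeal ≠ 1) :
    Even (P.asIdeal.ramificationIdx' v.asIdeal) := by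
  haveI : P.asIdeal.IsPrime := P.isPrime
  haveI : w.asIdeal.IsPrime := w.isPrime
  haveI : v.asIdeal.IsPrime := v.isPrime
  have h1 : P.asIdeal.ramificationIdx' w.asIdeal = Ideal.ramificationIdxIn P.asIdeal (𝓞 M) := by
    rw [Ideal.ramificationIdx'_eq_ramificationIdx _ _ P.ne_bot,
      Ideal.ramificationIdxIn_eq_ramificationIdx P.asIdeal w.asIdeal Gal(M/E)]
  have h2 : P.asIdeal.ramificationIdx' v.asIdeal = Ideal.ramificationIdxIn P.asIdeal (𝓞 M) := by
    rw [Ideal.ramificationIdx'_eq_ramificationIdx _ _ P.ne_bot,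
      Ideal.ramificationIdxIn_eq_ramificationIdx P.asIdeal v.asIdeal Gal(M/E)]
  have h3 := Ideal.ncard_primesOver_mul_ramificationIdxIn_mul_inertiaDegIn P.asIdeal (𝓞 M) Gal(M/E)
  rw [IsGalois.card_aut_eq_finrank, hm] at h3
  have h4 : Ideal.ramificationIdxIn P.asIdeal (𝓞 M) ∣ 2 ^ m := by
    rw [← h3]
    exact Dvd.dvd.mul_left (Dvd.intro _ rfl) _
  obtain ⟨k, -, hk⟩ := (Nat.dvd_prime_pow Nat.prime_two).1 h4
  rw [h1, hk] at hne
  rw [h2, hk]
  cases k with
  | zero => exact absurd (pow_zero 2) hne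
  | succ k => exact ⟨2 ^ k, by rw [pow_succ]; ring⟩

end ram

section NM
variable {N M : Type} [Field N] [NumberField N] [Field M] [NumberField M] [Algebra N M]
  [IsGalois N M]

/-- the field generated by the root of unity -/
theorem exists_E2 {r : ℕ} (hr : Module.finrank N M = 2 ^ r) {a : M} (ha : a ^ 2 = -3) :
    ∃ (E : Type) (_ : Field E) (_ : NumberField E) (_ : Algebra N E) (_ : Algebra E M)
      (_ : IsScalarTower N E M), IsGalois N E ∧ IsGalois E M ∧
      (∃ i, Module.finrank N E = 2 ^ i) ∧ (∃ m, Module.finrank E M = 2 ^ m) ∧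
      (∃ b : E, b ^ 2 = -3) ∧
      ∀ (v : HeightOneSpectrum (𝓞 N)) (w : HeightOneSpectrum (𝓞 E)),
        w.asIdeal.LiesOver v.asIdeal → (3 : 𝓞 N) ∉ v.asIdeal →
        v.asIdeal.ramificationIdx' w.asIdeal = 1 := by
  by_cases hns : ∀ x : N, x ^ 2 ≠ -3
  · obtain ⟨E, hE, b, hb⟩ := exists_E ha hns
    obtain ⟨z, hz⟩ := exists_z hb
    have hfr : ∃ m, r = m + 1 ∧ Module.finrank E M = 2 ^ m := by
      have h1 := Module.finrank_mul_finrank N E M
      rw [hE, hr] at h1
      cases r with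
      | zero =>
        rw [pow_zero] at h1
        omega
      | succ m =>
        refine ⟨m, rfl, ?_⟩
        rw [pow_succ, mul_comm] at h1
        exact Nat.eq_of_mul_eq_mul_right two_pos h1
    obtain ⟨m, rfl, hm⟩ := hfr
    have hgal : IsGalois N E := gal2' hE
    refine ⟨E, inferInstance, inferInstance, inferInstance, inferInstance, inferInstance, hgal,
      inferInstance, ⟨1, by rw [hE, pow_one]⟩, ⟨m, hm⟩, ⟨b, hb⟩, fun v w hlo h3 => ?_⟩
    have h3P : (3 : 𝓞 E) ∉ w.asIdeal := by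
      intro h
      apply h3
      rw [hlo.over]
      change algebraMap (𝓞 N) (𝓞 E) 3 ∈ w.asIdeal
      rw [map_ofNat]
      exact h
    refine ram_one hlo fun σ hσ => ?_
    by_contra hne
    have h4 := hσ z
    rw [act_z hE hns hz hne] at h4
    apply h3P
    have : (3 : 𝓞 E) = (-1 - z - z) * (1 + 2 * z) := by linear_combination 4 * hz
    rw [this]
    exact Ideal.mul_mem_right _ _ h4
  · push Not at hns
    obtain ⟨b, hb⟩ := hns
    refine ⟨N, inferInstance, inferInstance, inferInstance, inferInstance, inferInstance,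
      inferInstance, inferInstance, ⟨0, by rw [Module.finrank_self, pow_zero]⟩, ⟨r, hr⟩, ⟨b, hb⟩,
      fun v w hlo h3 => ram_one hlo fun σ hσ => AlgEquiv.ext fun x => σ.commutes x⟩

end NM

section
variable {N K : Type} [Field N] [NumberField N] [Field K] [NumberField K] [Algebra N K]
  [IsGalois N K]

/-- **the Selmer groups in the good case** -/
theorem s2_good {r : ℕ} (hr : Module.finrank N K = 2 ^ r) (hU : Unr2 K) (h3 : E3 K)
    (hG : Gd N K) (hta : TwoC N) : S2 K ↔ S2 N := by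
  refine ⟨fun hS => s2_down (no_cube hU) hS, fun hS => ?_⟩
  by_contra hnS
  obtain ⟨M, _, _, _, _, _, T⟩ := exists_top' (N := N) hr hU h3
  haveI := T.galN
  haveI := T.galK
  obtain ⟨n, hn⟩ := T.degN
  obtain ⟨a, ha⟩ := T.sq
  have hM := T.g3
  have hcM := no_cube hM.two
  have hsq : ∃ δ : Cb M, PA δ ∧ ¬ IsSquare δ := by
    by_contra hcon
    push Not at hcon
    exact hnS (s2_down hcM (Gc.s2 ⟨hM.om, hcM, hM.two, hcon⟩))
  obtain ⟨δ, hP, hsq⟩ := hsq
  obtain ⟨E, _, _, _, _, _, g1, g2, ⟨i, hi⟩, ⟨m, hm⟩, ⟨b, hb⟩, hur⟩ := exists_E2 hn ha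
  have hNC : NC N E := nc_of_tower (K := M) hn
  have hGE : Gd E M := gd_top (F := N) hNC (T.gd hG)
  obtain ⟨δ₀, hs0, hP0⟩ := desc_gd hm hGE hcM hM.two hsq hP
  obtain ⟨ω, hω⟩ := om_of hb
  have hE := g3_down hM hb
  refine not_selT_pair (K := N) (K' := E) hi hω (no_cube hE.two) (fun v v' hlo h3 => ?_)
    (unr2_down (K := M) hM.two) (fun v hv => ?_) hta hP0 hs0 hS
  · refine hur v v' hlo ?_
    intro h
    exact h3 (by push_cast; exact h)
  · refine hM.val3_small v ?_
    have : (3 : 𝓞 N) = ((3 : ℕ) : 𝓞 N) := by norm_num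
    rw [this]
    exact hv

/-- **the Selmer group in the bad case** -/
theorem s2_bad {r : ℕ} (hr : Module.finrank N K = 2 ^ r) (hU : Unr2 K) (h3 : E3 K)
    (hG : ¬ Gd N K) (hta : TwoC K) : ¬ S2 K := by
  obtain ⟨M, _, _, _, _, _, T⟩ := exists_top' (N := N) hr hU h3
  haveI := T.galN
  haveI := T.galK
  obtain ⟨n, hn⟩ := T.degN
  obtain ⟨a, ha⟩ := T.sq
  have hM := T.g3
  have hcM := no_cube hM.two
  obtain ⟨E, _, _, _, _, _, g1, g2, ⟨i, hi⟩, ⟨m, hm⟩, ⟨b, hb⟩, hur⟩ := exists_E2 hn ha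
  have hE := g3_down hM hb
  obtain ⟨ω, hω⟩ := om_of hb
  unfold Pool.Agent.K7.H56.P.Gd at hG
  push Not at hG
  obtain ⟨v₀, v, hlo, h30, ⟨x, hx⟩, hram⟩ := hG
  obtain ⟨w, hw⟩ := exists_above (K := M) v
  have hlo' : w.asIdeal.LiesOver v₀.asIdeal := Ideal.LiesOver.trans w.asIdeal v.asIdeal v₀.asIdeal
  have hram' : v₀.asIdeal.ramificationIdx' w.asIdeal ≠ 1 := by
    rw [ram_mul hlo hw]
    intro h
    exact hram (Nat.eq_one_of_mul_eq_one_right h)
  -- the prime of `E`
  set P : HeightOneSpectrum (𝓞 E) := lo E w with hP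
  have hPw : w.asIdeal.LiesOver P.asIdeal := lo_lies w
  have hPv : P.asIdeal.LiesOver v₀.asIdeal := by
    refine ⟨?_⟩
    rw [hlo'.over, hPw.over, Ideal.under_under]
  have hmem : ∀ y : 𝓞 N, y ∈ v₀.asIdeal ↔ algebraMap (𝓞 N) (𝓞 E) y ∈ P.asIdeal := by
    intro y
    rw [hPv.over]
    rfl
  have h3P : (3 : 𝓞 E) ∉ P.asIdeal := by
    intro h
    apply h30
    rw [hmem, map_ofNat]
    exact h
  have hePv : v₀.asIdeal.ramificationIdx' P.asIdeal = 1 := hur v₀ P hPv h30
  have heP : P.asIdeal.ramificationIdx' w.asIdeal ≠ 1 := by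
    intro h
    apply hram'
    rw [ram_mul hPv hPw, hePv, h]
  have h2P : ((2 : ℕ) : 𝓞 E) ∉ P.asIdeal := by
    intro h
    have h2w : ((2 : ℕ) : 𝓞 M) ∈ w.asIdeal := (nat_lo w 2).1 h
    have e1 := hM.two w h2w
    have e2 := hE.two P h
    have e3 := HeightOneSpectrum.valuation_liesOver M P w (2 : E)
    rw [map_ofNat (algebraMap E M), e1, e2, ← exp_nsmul] at e3
    have e4 := exp_injective e3
    rw [nsmul_eq_mul] at e4
    apply heP
    have : ((P.asIdeal.ramificationIdx' w.asIdeal : ℕ) : ℤ) = 1 := by linarith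
    exact_mod_cast this
  have h6P : ((6 : ℕ) : 𝓞 E) ∉ P.asIdeal := by
    intro h
    have e6 : ((6 : ℕ) : 𝓞 E) = ((2 : ℕ) : 𝓞 E) * 3 := by push_cast; norm_num
    rw [e6] at h
    rcases P.isPrime.mem_or_mem h with h | h
    · exact h2P h
    · exact h3P h
  have hxP : algebraMap (𝓞 N) (𝓞 E) x ^ 3 - 2 ∈ P.asIdeal := by
    rw [← map_pow, ← map_ofNat (algebraMap (𝓞 N) (𝓞 E)) 2, ← map_sub]
    exact (hmem _).1 hx
  obtain ⟨δ, hδ, hδr, hδs, hδe, hδl⟩ := Pool.Agent.K7.H89.U.exists_q8 E hω hE.two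
    (no_cube hE.two) P h6P _ hxP
  have hPA : PA (Cb.map (algebraMap E M) δ) := by
    refine PA_up hω hδ hδr (fun u hu => ?_) hδl
    by_cases hc : lo E u = P
    · right
      have hu' : u.asIdeal.LiesOver P.asIdeal := by
        rw [← hc]
        exact lo_lies u
      rw [hc]
      exact even_ram hm hPw hu' heP
    · left
      exact hδe _ (fun h => hu ((nat_lo u 6).1 h)) hc
  have hns := nonsq_up (K := M) hcM hδ hδr hδs
  obtain ⟨k, hk⟩ := T.degK
  refine not_selT_pair (K := K) (K' := M) hk (ω := algebraMap E M ω) (by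
      rw [← map_pow, ← map_add, ← map_one (algebraMap E M), ← map_add, hω, map_zero]) hcM
    (fun v v' hlo h3 => ?_) hU (fun v hv => ?_) hta hPA hns
  · refine T.unr v v' hlo ?_
    intro h
    exact h3 (by push_cast; exact h)
  · refine h3 v ?_
    have : (3 : 𝓞 K) = ((3 : ℕ) : 𝓞 K) := by norm_num
    rw [this]
    exact hv

end

end Pool.Agent.K7.H56.U
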