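import Pool.Agent.K7.H56.U.R

/-!
# Towers of quadratic extensions
-/

set_option autoImplicit false
set_option linter.all false

namespace Pool.Agent.K7.H56.U

open NumberField IsDedekindDomain WithZero WeierstrassCurve
open Pool.Agent.K7.H56
open Pool.Agent.K7.H56.P
open Pool.Agent.K7.H70.AS (ram_mul gal2' gal1 exists_mid nc_of_tower NC)
open Pool.Agent.R430
open Pool.Agent.Y696 (Cb IV EvV LvV PA nat_mem_iff val_of_unr exists_above E27 IsPeriods period)
open Pool.Agent.K7.H56.M (Rm act_z exists_z up_two up_three unr2_down z_coe)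
open scoped Classical

lemma g3_loc {K M : Type} [Field K] [NumberField K] [Field M] [NumberField M] [Algebra K M]
    (h : G3 M) : Pool.Agent.K7.H56.M.Loc K := by
  intro v
  refine ⟨h.min_small v, ?_⟩
  obtain ⟨H, k7, k8⟩ := h.tam_small v
  exact ⟨H, fun P => (k7 P).trans (by cases P <;> rfl), k8⟩

lemma exG3 {N K : Type} [Field N] [NumberField N] [Field K] [NumberField K] [Algebra N K]
    [IsGalois N K] {r : ℕ} (hr : Module.finrank N K = 2 ^ r) (hU : Unr2 K) (h3 : E3 K) :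
    ∃ (M : Type) (_ : Field M) (_ : NumberField M) (_ : Algebra K M), G3 M := by
  obtain ⟨M, i1, i2, i3, _, _, T⟩ := exists_top' (N := N) hr hU h3
  exact ⟨M, i1, i2, i3, T.g3⟩

section base

variable {N K : Type} [Field N] [NumberField N] [Field K] [NumberField K] [Algebra N K]

/-- the ramification at three goes down -/
theorem e3_down (h : E3 K) : E3 N := by
  intro v hv
  obtain ⟨w, hlo⟩ := exists_above (K := K) v
  have hw : (3 : 𝓞 K) ∈ w.asIdeal := by
    have h3 : algebraMap (𝓞 N) (𝓞 K) 3 ∈ w.asIdeal := by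
      have := hlo.over
      rw [this] at hv
      exact hv
    rwa [map_ofNat] at h3
  have h4 := HeightOneSpectrum.valuation_liesOver K v w (3 : N)
  rw [map_ofNat (algebraMap N K)] at h4
  set e := v.asIdeal.ramificationIdx' w.asIdeal with he
  have hx : v.valuation N 3 ≠ 0 := (Valuation.ne_zero_iff _).2 (by norm_num)
  obtain ⟨k, hk⟩ : ∃ k : ℤ, v.valuation N 3 = exp k := ⟨log _, (exp_log hx).symm⟩
  rw [hk, ← exp_nsmul] at h4
  rw [hk]
  have h7 : ∀ j : ℤ, exp (e • k) = exp (-j) → 0 < j → k ∣ j ∧ k < 0 := by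
    intro j h5 hj
    have h5 := exp_injective h5
    rw [nsmul_eq_mul] at h5
    refine ⟨⟨-(e : ℤ), by linarith⟩, ?_⟩
    by_contra h
    rw [not_lt] at h
    have : (0 : ℤ) ≤ (e : ℤ) * k := by positivity
    omega
  rcases h w hw with h3 | h3
  · rw [h3] at h4
    obtain ⟨h8, h9⟩ := h7 1 h4 one_pos
    have h10 : -k ∣ 1 := (neg_dvd).2 h8
    have h11 : -k ≤ 1 := Int.le_of_dvd (by norm_num) h10
    left
    congr 1
    omega
  · rw [h3] at h4
    obtain ⟨h8, h9⟩ := h7 2 h4 two_pos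
    have h10 : -k ∣ 2 := (neg_dvd).2 h8
    have h11 : -k ≤ 2 := Int.le_of_dvd (by norm_num) h10
    have h12 : k = -1 ∨ k = -2 := by omega
    rcases h12 with rfl | rfl
    · left; rfl
    · right; rfl

theorem gd_self : Gd N N := by
  intro v₀ v hlo _ _
  exact ram_one hlo fun σ _ => AlgEquiv.ext fun x => σ.commutes x

/-- the L-function of a field -/
theorem exL (hU : Unr2 K) (h3 : E3 K) : ∃ L : ℂ → ℂ, IsL K L := by
  obtain ⟨L, -, h, -, -⟩ := val_good (N := K) (K := K) (r := 0)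
    (by rw [Module.finrank_self, pow_zero]) hU h3 gd_self
  exact ⟨L, h⟩

theorem xv_congr {L1 L2 : ℂ → ℂ} (h1 : IsL K L1) (h2 : IsL K L2) (Λ : PeriodPair) (ω : ℝ) :
    xv K Λ ω L1 = xv K Λ ω L2 := by
  unfold xv
  rw [h1.uniq h2]

theorem xv_le (hU : Unr2 K) (h3 : E3 K) {L : ℂ → ℂ} (hL : IsL K L) {Λ : PeriodPair} {ω : ℝ}
    (hΛ : IsPeriods Λ ω) {Γ : Type} [LinearOrderedCommGroupWithZero Γ] {v : Valuation ℂ Γ}
    (hv : v 2 < 1) : v (xv K Λ ω L) ≤ 1 := by
  obtain ⟨L', L'', h, h', h2⟩ := val_good (N := K) (K := K) (r := 0)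
    (by rw [Module.finrank_self, pow_zero]) hU h3 gd_self
  rw [xv_congr hL h]
  exact (h2 Λ ω hΛ Γ v hv).1

/-- the local facts -/
theorem loc_facts (hU : Unr2 K) (h3 : E3 K) : Pool.Agent.K7.H56.M.Loc K := by
  obtain ⟨M, _, _, _, h⟩ := exG3 (N := K) (K := K) (r := 0)
    (by rw [Module.finrank_self, pow_zero]) hU h3
  exact g3_loc (K := K) h

end base

/-- the conclusion of the approximation above two, for all fields -/
def HT : Prop := ∀ (k : Type) [Field k] [NumberField k], Unr2 k → TwoC k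

/-- **the relation between the formulas over two fields** -/
structure Rel2 (N K : Type) [Field N] [NumberField N] [Field K] [NumberField K] [Algebra N K] :
    Prop where
  gs : Gd N K → (S2 K ↔ S2 N)
  gv : Gd N K → ∀ LN LK : ℂ → ℂ, IsL N LN → IsL K LK → ∀ (Λ : PeriodPair) (ω : ℝ),
    IsPeriods Λ ω → ∀ (Γ : Type) [LinearOrderedCommGroupWithZero Γ] (v : Valuation ℂ Γ),
      v 2 < 1 → (v (xv K Λ ω LK) = 1 ↔ v (xv N Λ ω LN) = 1)
  bs : ¬ Gd N K → ¬ S2 K
  bv : ¬ Gd N K → ∀ LK : ℂ → ℂ, IsL K LK → ∀ (Λ : PeriodPair) (ω : ℝ),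
    IsPeriods Λ ω → ∀ (Γ : Type) [LinearOrderedCommGroupWithZero Γ] (v : Valuation ℂ Γ),
      v 2 < 1 → v (xv K Λ ω LK) < 1

theorem rel_quad (hT : HT) {N K : Type} [Field N] [NumberField N] [Field K] [NumberField K]
    [Algebra N K] [IsGalois N K] {r : ℕ} (hr : Module.finrank N K = 2 ^ r) (hU : Unr2 K)
    (h3 : E3 K) : Rel2 N K where
  gs hG := s2_good hr hU h3 hG (hT N (unr2_down (K := K) hU))
  gv hG LN LK hLN hLK Λ ω hΛ Γ _ v hv := by
    obtain ⟨L1, L2, h1, h2, h⟩ := val_good hr hU h3 hG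
    rw [xv_congr hLK h2, xv_congr hLN h1]
    exact (h Λ ω hΛ Γ v hv).2.2
  bs hG := s2_bad hr hU h3 hG (hT K hU)
  bv hG LK hLK Λ ω hΛ Γ _ v hv := by
    obtain ⟨L2, h2, h⟩ := val_bad hr hU h3 hG
    rw [xv_congr hLK h2]
    exact h Λ ω hΛ Γ v hv

section tower
variable {F N K : Type} [Field F] [NumberField F] [Field N] [NumberField N] [Field K] [NumberField K]
  [Algebra F N] [Algebra N K] [Algebra F K] [IsScalarTower F N K]

lemma gd_mul (h1 : Gd F N) (h2 : Gd N K) : Gd F K := by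
  intro v₀ w hlo h3 ⟨x, hx⟩
  have hPw : w.asIdeal.LiesOver (lo N w).asIdeal := lo_lies w
  have hPv : (lo N w).asIdeal.LiesOver v₀.asIdeal := by
    refine ⟨?_⟩
    rw [hlo.over, hPw.over, Ideal.under_under]
  have hmem : ∀ y : 𝓞 F, y ∈ v₀.asIdeal ↔ algebraMap (𝓞 F) (𝓞 N) y ∈ (lo N w).asIdeal := by
    intro y
    rw [hPv.over]
    rfl
  rw [ram_mul hPv hPw, h1 v₀ _ hPv h3 ⟨x, hx⟩, one_mul]
  refine h2 _ w hPw (fun h => h3 ?_) ⟨algebraMap (𝓞 F) (𝓞 N) x, ?_⟩
  · rw [hmem, map_ofNat]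
    exact h
  · rw [← map_pow, ← map_ofNat (algebraMap (𝓞 F) (𝓞 N)) 2, ← map_sub]
    exact (hmem _).1 hx

/-- the relation is transitive -/
theorem rel_trans (hNC : NC F N) (hU : Unr2 K) (h3 : E3 K) (h1 : Rel2 F N) (h2 : Rel2 N K) :
    Rel2 F K := by
  have hUN : Unr2 N := unr2_down (K := K) hU
  have h3N : E3 N := e3_down h3
  have hiff : Gd F K ↔ Gd F N ∧ Gd N K :=
    ⟨fun h => ⟨gd_bot h, gd_top hNC h⟩, fun h => gd_mul h.1 h.2⟩
  obtain ⟨LN, hLN⟩ := exL (K := N) hUN h3N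
  refine ⟨fun h => ?_, fun h LF LK hLF hLK Λ ω hΛ Γ _ v hv => ?_, fun h => ?_,
    fun h LK hLK Λ ω hΛ Γ _ v hv => ?_⟩
  · rw [hiff] at h
    rw [h2.gs h.2, h1.gs h.1]
  · rw [hiff] at h
    rw [h2.gv h.2 LN LK hLN hLK Λ ω hΛ Γ v hv, h1.gv h.1 LF LN hLF hLN Λ ω hΛ Γ v hv]
  · by_cases hg : Gd N K
    · rw [h2.gs hg]
      exact h1.bs fun h' => h (hiff.2 ⟨h', hg⟩)
    · exact h2.bs hg
  · by_cases hg : Gd N K
    · have h4 := h1.bv (fun h' => h (hiff.2 ⟨h', hg⟩)) LN hLN Λ ω hΛ Γ v hv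
      refine lt_of_le_of_ne (xv_le hU h3 hLK hΛ hv) fun h5 => ?_
      exact h4.ne ((h2.gv hg LN LK hLN hLK Λ ω hΛ Γ v hv).1 h5)
    · exact h2.bv hg LK hLK Λ ω hΛ Γ v hv

end tower

/-- **towers** -/
theorem rel_tower (hT : HT) {N G : Type} [Field N] [NumberField N] [Field G] [NumberField G]
    [Algebra N G] [IsGalois N G] {r : ℕ} (hr : Module.finrank N G = 2 ^ r) (m : ℕ) :
    ∀ (K : Type) [Field K] [NumberField K] [Algebra N K], (K →ₐ[N] G) →
      Module.finrank N K = 2 ^ m → Unr2 K → E3 K → Rel2 N K := by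
  induction m with
  | zero =>
    intro K _ _ _ φ h1 hU h3
    have hgal : IsGalois N K := gal1 (by rw [h1, pow_zero])
    exact rel_quad hT h1 hU h3
  | succ m ih =>
    intro K _ _ _ φ h1 hU h3
    obtain ⟨N', h2, h4⟩ := exists_mid (K := G) h1 hr φ
    let _ : Algebra N' G := (φ.comp N'.val).toRingHom.toAlgebra
    have hFNK : IsScalarTower N N' G :=
      IsScalarTower.of_algebraMap_eq fun x => ((φ.comp N'.val).commutes x).symm
    have hNC : NC N N' := nc_of_tower (K := G) hr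
    have hgal : IsGalois N' K := gal2' h4
    have hR1 := ih N' (φ.comp N'.val) h2 (unr2_down (K := K) hU) (e3_down h3)
    have hR2 : Rel2 N' K := rel_quad hT (r := 1) (by rw [h4, pow_one]) hU h3
    exact rel_trans hNC hU h3 hR1 hR2

end Pool.Agent.K7.H56.U
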