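import Pool.Agent.K7.H56.U.S
import Pool.Agent.K7.H89.U.Two

/-!
# The rational numbers; the condition in terms of the discriminant
-/

set_option autoImplicit false
set_option linter.all false

namespace Pool.Agent.K7.H56.U

open NumberField IsDedekindDomain WithZero WeierstrassCurve
open Pool.Agent.K7.H56
open Pool.Agent.K7.H56.P
open Pool.Agent.K7.H70.AS (ram_mul gal2' gal1 exists_mid nc_of_tower NC)
open Pool.Agent.R430
open Pool.Agent.Y696 (Cb IV EvV LvV PA nat_mem_iff val_of_unr exists_above E27 IsPeriods period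
  TwoPart)
open Pool.Agent.K7.H56.M (Rm act_z exists_z up_two up_three unr2_down z_coe AA ram_nat)
open scoped Classical

/-- the approximation above two, for all fields -/
theorem ht_true : HT := fun k _ _ hU v hv δ hN hr hL =>
  Pool.Agent.K7.H89.U.two_adic (v.valuation k) (hU v hv) (fun x hx => frob_surj hv hx) hN hr hL

section rat

theorem unr2_Q : Unr2 ℚ := by
  intro v hv
  have := Pool.Agent.R425.unr_of_disc ℚ Nat.prime_two (by
    rw [NumberField.discr_rat]
    norm_num) v hv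
  exact_mod_cast this

theorem e3_Q : E3 ℚ := by
  intro v hv
  left
  have := Pool.Agent.R425.unr_of_disc ℚ Nat.prime_three (by
    rw [NumberField.discr_rat]
    norm_num) v (by exact_mod_cast hv)
  exact_mod_cast this

theorem gal_Q : @IsGalois ℚ _ ℚ _ DivisionRing.toRatAlgebra := by
  have e : (DivisionRing.toRatAlgebra : Algebra ℚ ℚ) = Algebra.id ℚ := Subsingleton.elim _ _
  rw [e]
  infer_instance

theorem two_Q : TwoPart ℚ := by
  haveI := gal_Q
  refine Pool.Agent.K7.H56.M.good_K (n := 0) (by rw [Module.finrank_self, pow_zero]) unr2_Q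
    e3_Q ?_
  intro l hl _ hld
  rw [NumberField.discr_rat] at hld
  have : l ∣ 1 := by exact_mod_cast hld
  exact absurd (Nat.dvd_one.1 this) hl.ne_one

theorem s2_Q : S2 ℚ := by
  have T := two_Q
  exact (sel_iff (no_cube unr2_Q)).2 ⟨T.finite, fun s hs => T.sha s (by rw [← two_nsmul]; exact hs)⟩

theorem xv_Q {L : ℂ → ℂ} (hL : IsL ℚ L) {Λ : PeriodPair} {ω : ℝ}
    (hΛ : IsPeriods Λ ω) {Γ : Type} [LinearOrderedCommGroupWithZero Γ] {v : Valuation ℂ Γ}
    (hv : v 2 < 1) : v (xv ℚ Λ ω L) = 1 := by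
  obtain ⟨⟨Lf, k1, k2, k3, k4, k5⟩, -⟩ := two_Q
  rw [xv_congr hL ⟨k1, k3, k2⟩]
  exact k5 Λ ω hΛ Γ v hv

end rat

section crit
variable {K : Type} [Field K] [NumberField K]

/-- the condition in terms of the discriminant -/
theorem gd_Q : Gd ℚ K ↔ AA K := by
  constructor
  · intro hG l hl hl3 hld x hx
    obtain ⟨v, hv, hne⟩ : ∃ v : HeightOneSpectrum (𝓞 K), ((l : ℕ) : 𝓞 K) ∈ v.asIdeal ∧
        v.valuation K (l : K) ≠ exp (-1 : ℤ) := by
      by_contra hcon
      push Not at hcon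
      exact Pool.Agent.R425.not_disc K hl hcon hld
    apply hne
    have hv₀ : ((l : ℕ) : 𝓞 ℚ) ∈ (lo ℚ v).asIdeal := (nat_lo v l).2 hv
    have h30 : (3 : 𝓞 ℚ) ∉ (lo ℚ v).asIdeal := M.not_three hl hl3 hv₀
    have he := hG (lo ℚ v) v (lo_lies v) h30 (by
      obtain ⟨a, rfl⟩ := ZMod.intCast_surjective x
      have h1 : (l : ℤ) ∣ a ^ 3 - 2 := by
        rw [← ZMod.intCast_zmod_eq_zero_iff_dvd]
        push_cast
        rw [hx, sub_self]
      obtain ⟨b, hb⟩ := h1
      refine ⟨(a : 𝓞 ℚ), ?_⟩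
      have h2 : (a : 𝓞 ℚ) ^ 3 - 2 = ((l : ℕ) : 𝓞 ℚ) * (b : 𝓞 ℚ) := by exact_mod_cast congrArg (fun z : ℤ => (z : 𝓞 ℚ)) hb
      rw [h2]
      exact Ideal.mul_mem_right _ _ hv₀)
    have h5 := val_of_unr (lo_lies (F := ℚ) v) he (l : ℚ)
    rw [map_natCast (algebraMap ℚ K)] at h5
    rw [h5]
    refine Pool.Agent.R425.unr_of_disc ℚ hl ?_ _ hv₀
    rw [NumberField.discr_rat]
    intro h
    have : l ∣ 1 := by exact_mod_cast h
    exact hl.ne_one (Nat.dvd_one.1 this)
  · intro hA v₀ v hlo h30 ⟨x, hx⟩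
    obtain ⟨l, hl, hl₀⟩ := Pool.Agent.R425.G.exists_prime_mem v₀
    have hl3 : l ≠ 3 := by
      rintro rfl
      exact h30 (by exact_mod_cast hl₀)
    have hlv : ((l : ℕ) : 𝓞 K) ∈ v.asIdeal := by
      have h4 : algebraMap (𝓞 ℚ) (𝓞 K) ((l : ℕ) : 𝓞 ℚ) ∈ v.asIdeal := by
        have := hlo.over
        rw [this] at hl₀
        exact hl₀
      rwa [map_natCast] at h4
    have hld : ¬ (l : ℤ) ∣ discr K := by
      intro hld
      obtain ⟨a, ha⟩ : ∃ a : ℤ, (a : 𝓞 ℚ) = x := by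
        refine ⟨Rat.ringOfIntegersEquiv x, ?_⟩
        apply Rat.ringOfIntegersEquiv.injective
        rw [map_intCast]
        rfl
      refine hA l hl hl3 hld (a : ZMod l) ?_
      have h1 : ((a ^ 3 - 2 : ℤ) : 𝓞 ℚ) ∈ v₀.asIdeal := by
        push_cast
        rw [ha]
        exact hx
      have h2 : (l : ℤ) ∣ a ^ 3 - 2 := by
        by_contra hcon
        have hco : IsCoprime (l : ℤ) (a ^ 3 - 2) :=
          (Prime.coprime_iff_not_dvd (Nat.prime_iff_prime_int.1 hl)).2 hcon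
        obtain ⟨u, w, huw⟩ := hco
        apply v₀.isPrime.ne_top
        rw [Ideal.eq_top_iff_one]
        have h3 : (1 : 𝓞 ℚ) = (u : 𝓞 ℚ) * ((l : ℕ) : 𝓞 ℚ) + (w : 𝓞 ℚ) * ((a ^ 3 - 2 : ℤ) : 𝓞 ℚ) := by
          have := congrArg (fun t : ℤ => (t : 𝓞 ℚ)) huw
          push_cast at this ⊢
          exact this.symm
        rw [h3]
        exact Ideal.add_mem _ (Ideal.mul_mem_left _ _ hl₀) (Ideal.mul_mem_left _ _ h1)
      rw [← ZMod.intCast_zmod_eq_zero_iff_dvd] at h2
      push_cast at h2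
      exact sub_eq_zero.1 h2
    exact (ram_nat hlo hl.ne_zero hl₀ (Pool.Agent.R425.unr_of_disc K hl hld v hlv)).2

end crit

end Pool.Agent.K7.H56.U
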