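import Pool.Agent.K7.H56.U.T

/-!
# Complex numbers and the valuations above two; ramified primes
-/

set_option autoImplicit false
set_option linter.all false

namespace Pool.Agent.K7.H56.U

open NumberField IsDedekindDomain WithZero
open Pool.Agent.K7.H56.P
open Pool.Agent.Y696 (exists_above)

section val

variable {Γ : Type} [LinearOrderedCommGroupWithZero Γ] {v : Valuation ℂ Γ}

theorem v_of_int {x : ℂ} (hx : IsIntegral ℤ x) : v x ≤ 1 := by
  obtain ⟨f, hf, h⟩ := hx
  by_contra hcon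
  rw [not_le] at hcon
  have h0 : v x ≠ 0 := (lt_trans zero_lt_one hcon).ne'
  rw [Polynomial.eval₂_eq_sum_range, Finset.sum_range_succ, hf.coeff_natDegree, map_one,
    one_mul] at h
  have h1 : x ^ f.natDegree = -∑ i ∈ Finset.range f.natDegree,
      algebraMap ℤ ℂ (f.coeff i) * x ^ i := by linear_combination h
  have h2 : v (x ^ f.natDegree) < v x ^ f.natDegree := by
    conv_lhs => rw [h1, Valuation.map_neg]
    refine Valuation.map_sum_lt _ (pow_ne_zero _ h0) fun i hi => ?_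
    rw [map_mul, map_pow]
    have h3 : v (algebraMap ℤ ℂ (f.coeff i)) ≤ 1 := by
      rw [algebraMap_int_eq, eq_intCast]
      exact Pool.Agent.Y688.v_int (v := v) _
    calc v (algebraMap ℤ ℂ (f.coeff i)) * v x ^ i ≤ 1 * v x ^ i := by gcongr
      _ = v x ^ i := one_mul _
      _ < v x ^ f.natDegree := pow_lt_pow_right₀ hcon (Finset.mem_range.1 hi)
  rw [map_pow] at h2
  exact lt_irrefl _ h2

theorem v_oddz (hv : v 2 < 1) {m : ℤ} (hm : Odd m) : v (m : ℂ) = 1 :=
  Pool.Agent.Y688.v_odd hv hm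

theorem val_of_unit {x : ℂ} (hx : x ≠ 0) {m : ℤ} (hm : Odd m) (h1 : IsIntegral ℤ ((m : ℂ) * x))
    (h2 : IsIntegral ℤ ((m : ℂ) * x⁻¹)) (hv : v 2 < 1) : v x = 1 := by
  have h3 := v_of_int (v := v) h1
  have h4 := v_of_int (v := v) h2
  rw [map_mul, v_oddz hv hm, one_mul] at h3 h4
  rw [map_inv₀, inv_le_one₀ ((Valuation.pos_iff _).2 hx)] at h4
  exact le_antisymm h3 h4

theorem val_of_even {x : ℂ} {m : ℤ} {k : ℕ} (hm : Odd m) (hk : 0 < k)
    (h : IsIntegral ℤ (((m : ℂ) * x) ^ k / 2)) (hv : v 2 < 1) : v x < 1 := by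
  have h3 := v_of_int (v := v) h
  have h20 : v 2 ≠ 0 := (Valuation.ne_zero_iff _).2 two_ne_zero
  rw [map_div₀, map_pow, map_mul, v_oddz hv hm, one_mul, div_le_one₀ (zero_lt_iff.2 h20)] at h3
  by_contra hcon
  rw [not_lt] at hcon
  have h4 : 1 ≤ v x ^ k := one_le_pow₀ hcon
  exact absurd (lt_of_le_of_lt h3 hv) (not_lt.2 h4)

end val

section bad

variable {N K : Type} [Field N] [NumberField N] [Field K] [NumberField K] [Algebra N K]

/-- a bad prime in terms of ideals -/
theorem bad_iff : ¬ Gd N K ↔ ∃ (w : HeightOneSpectrum (𝓞 N)) (w' : HeightOneSpectrum (𝓞 K)),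
    (3 : 𝓞 N) ∉ w.asIdeal ∧ (∃ x : 𝓞 N, x ^ 3 - 2 ∈ w.asIdeal) ∧
    w.asIdeal.map (algebraMap (𝓞 N) (𝓞 K)) ≤ w'.asIdeal ^ 2 := by
  constructor
  · intro h
    unfold Pool.Agent.K7.H56.P.Gd at h
    push Not at h
    obtain ⟨w, w', hlo, h3, hx, hram⟩ := h
    refine ⟨w, w', h3, hx, ?_⟩
    have h1 : w.asIdeal.ramificationIdx' w'.asIdeal ≠ 0 :=
      Ideal.IsDedekindDomain.ramificationIdx'_ne_zero_of_liesOver w'.asIdeal w.ne_bot
    have h2 : 2 ≤ w.asIdeal.ramificationIdx' w'.asIdeal := by omega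
    refine Ideal.map_le_iff_le_comap.2 fun y hy => ?_
    rw [Ideal.mem_comap, ← w'.intValuation_le_pow_iff_mem]
    have h4 : w.intValuation y ≤ exp (-((1 : ℕ) : ℤ)) :=
      (w.intValuation_le_pow_iff_mem y 1).2 (by rwa [pow_one])
    have h5 := HeightOneSpectrum.valuation_liesOver K w w' (algebraMap (𝓞 N) N y)
    have e1 : algebraMap N K (algebraMap (𝓞 N) N y) =
        algebraMap (𝓞 K) K (algebraMap (𝓞 N) (𝓞 K) y) := rfl
    rw [e1, HeightOneSpectrum.valuation_of_algebraMap, HeightOneSpectrum.valuation_of_algebraMap]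
      at h5
    rw [← h5]
    calc w.intValuation y ^ (w.asIdeal.ramificationIdx' w'.asIdeal)
        ≤ w.intValuation y ^ 2 := pow_le_pow_right_of_le_one' (w.intValuation_le_one y) h2
      _ ≤ exp (-((1 : ℕ) : ℤ)) ^ 2 := pow_le_pow_left' h4 2
      _ = exp (-((2 : ℕ) : ℤ)) := by
        rw [← exp_nsmul]
        congr 1
  · rintro ⟨w, w', h3, hx, hle⟩ hG
    have hlo : w'.asIdeal.LiesOver w.asIdeal := by
      refine ⟨?_⟩
      haveI := w.isMaximal
      refine (w.isMaximal.eq_of_le ?_ ?_)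
      · exact Ideal.IsPrime.ne_top inferInstance
      · rw [Ideal.under_def, ← Ideal.map_le_iff_le_comap]
        exact hle.trans (Ideal.pow_le_self two_ne_zero)
    have he := hG w w' hlo h3 hx
    obtain ⟨p, hp⟩ := w.intValuation_exists_uniformizer
    have hpw : p ∈ w.asIdeal := by
      have := (w.intValuation_le_pow_iff_mem p 1).1 (by rw [hp]; exact le_rfl)
      rwa [pow_one] at this
    have h4 := (w'.intValuation_le_pow_iff_mem _ 2).2 (hle (Ideal.mem_map_of_mem _ hpw))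
    have h5 := HeightOneSpectrum.valuation_liesOver K w w' (algebraMap (𝓞 N) N p)
    have e1 : algebraMap N K (algebraMap (𝓞 N) N p) =
        algebraMap (𝓞 K) K (algebraMap (𝓞 N) (𝓞 K) p) := rfl
    rw [e1, HeightOneSpectrum.valuation_of_algebraMap, HeightOneSpectrum.valuation_of_algebraMap,
      he, pow_one, hp] at h5
    rw [← h5, exp_le_exp] at h4
    norm_num at h4

end bad

/-- **towers, any subfield of a Galois extension of 2-power degree** -/
theorem rel_all {N K G : Type} [Field N] [NumberField N] [Field K] [NumberField K] [Field G]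
    [NumberField G] [Algebra N K] [Algebra K G] [Algebra N G] [IsScalarTower N K G] [IsGalois N G]
    (hG : ∃ n : ℕ, Module.finrank N G = 2 ^ n) (hU : Pool.Agent.K7.H56.Unr2 K) (h3 : E3 K) :
    Rel2 N K := by
  obtain ⟨r, hr⟩ := hG
  have h1 : Module.finrank N K ∣ 2 ^ r := by
    rw [← hr, ← Module.finrank_mul_finrank N K G]
    exact Dvd.intro _ rfl
  obtain ⟨m, -, hm⟩ := (Nat.dvd_prime_pow Nat.prime_two).1 h1
  exact rel_tower ht_true hr m K (IsScalarTower.toAlgHom N K G) hm hU h3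

/-- the hypothesis on the ramification at three -/
theorem e3_of {K : Type} [Field K] [NumberField K]
    (h3 : ∀ v : HeightOneSpectrum (𝓞 K), (3 : 𝓞 K) ∉ v.asIdeal ^ 3) : E3 K := by
  intro v hv
  have e : (algebraMap (𝓞 K) K) 3 = 3 := map_ofNat _ 3
  have k1 : v.valuation K 3 = v.intValuation (3 : 𝓞 K) := by
    rw [← e]
    exact HeightOneSpectrum.valuation_of_algebraMap v 3
  have k2 : ¬ v.intValuation (3 : 𝓞 K) ≤ WithZero.exp (-(3 : ℕ) : ℤ) := fun h =>
    h3 v ((v.intValuation_le_pow_iff_mem _ 3).1 h)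
  have k3 : v.intValuation (3 : 𝓞 K) ≤ WithZero.exp (-(1 : ℕ) : ℤ) :=
    (v.intValuation_le_pow_iff_mem _ 1).2 (by rwa [pow_one])
  have h0 : v.intValuation (3 : 𝓞 K) ≠ 0 := fun h0 => by
    rw [h0] at k2
    exact k2 zero_le
  obtain ⟨a, ha⟩ : ∃ a : ℤ, v.intValuation (3 : 𝓞 K) = WithZero.exp a :=
    ⟨WithZero.log (v.intValuation (3 : 𝓞 K)), (WithZero.exp_log h0).symm⟩
  rw [ha, WithZero.exp_le_exp] at k2 k3
  rw [k1, ha]
  push_cast at k2 k3
  have : a = -1 ∨ a = -2 := by omega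
  rcases this with rfl | rfl
  · exact Or.inl rfl
  · exact Or.inr rfl

theorem unr2_of {K : Type} [Field K] [NumberField K] (h2 : ¬ (2 : ℤ) ∣ discr K) :
    Pool.Agent.K7.H56.Unr2 K := fun v hv => by
  have := Pool.Agent.R425.unr_of_disc K Nat.prime_two h2 v hv
  exact_mod_cast this

end Pool.Agent.K7.H56.U
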